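import Pool.Agent.W902.Cross

/-!
# Products of averaging operators
-/

set_option autoImplicit false
set_option linter.unusedSectionVars false

open Finset
open scoped InnerProductSpace

namespace Pool.Agent.W902.Z

open Pool.Agent.W902.Spec Pool.Agent.W902.Heis Pool.Agent.W902.Cross

section abs

variable {E : Type*} [NormedAddCommGroup E] [InnerProductSpace ℝ E]

theorem proj_norm {P : E →ₗ[ℝ] E} (h : Proj P) (x : E) : ‖P x‖ ≤ ‖x‖ := by
  have h1 := h.inner_self x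
  have h2 := real_inner_le_norm x (P x)
  rw [h1] at h2
  rcases (norm_nonneg (P x)).eq_or_lt with h3 | h3
  · rw [← h3]; exact norm_nonneg _
  · nlinarith

theorem proj_orth {P : E →ₗ[ℝ] E} (h : Proj P) (x y : E) : ⟪x - P x, P y⟫_ℝ = 0 := by
  rw [inner_sub_left, h.symm x (P y), h.idem, sub_self]

theorem proj_compl_norm {P : E →ₗ[ℝ] E} (h : Proj P) (x : E) : ‖x - P x‖ ≤ ‖x‖ := by
  have := proj_norm h.compl x
  simpa using this

theorem adj_small {P D : E →ₗ[ℝ] E} (hP : Proj P) (hD : Proj D) {η : ℝ} (hη : 0 ≤ η)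
    (h : ∀ x, ‖P (D x) - D (P (D x))‖ ≤ η * ‖x‖) (x : E) :
    ‖D (P x) - D (P (D x))‖ ≤ η * ‖x‖ := by
  set y := D (P x) - D (P (D x)) with hy
  have hDy : D y = y := by rw [hy, map_sub, hD.idem, hD.idem]
  have h1 : y = D (P (x - D x)) := by rw [hy, map_sub, map_sub]
  have h2 : ‖y‖ ^ 2 = ⟪x - D x, P (D y) - D (P (D y))⟫_ℝ := by
    rw [inner_sub_right, proj_orth hD, sub_zero, hDy, ← hP.symm, ← hDy, ← hD.symm, ← h1,
      real_inner_self_eq_norm_sq, hDy]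
  have h3 : ‖y‖ ^ 2 ≤ ‖x‖ * (η * ‖y‖) := by
    rw [h2]
    exact (real_inner_le_norm _ _).trans
      (mul_le_mul (proj_compl_norm hD x) (h y) (norm_nonneg _) (norm_nonneg _))
  rcases (norm_nonneg y).eq_or_lt with h4 | h4
  · rw [← h4]; positivity
  · have : ‖y‖ * ‖y‖ ≤ (η * ‖x‖) * ‖y‖ := by nlinarith
    exact le_of_mul_le_mul_right this h4

theorem comm_small {P D : E →ₗ[ℝ] E} (hP : Proj P) (hD : Proj D) {η : ℝ} (hη : 0 ≤ η)
    (h : ∀ x, ‖P (D x) - D (P (D x))‖ ≤ η * ‖x‖) (x : E) :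
    ‖D (P x) - P (D x)‖ ≤ 2 * η * ‖x‖ := by
  have h1 := adj_small hP hD hη h x
  have h2 := h x
  have e : D (P x) - P (D x) = (D (P x) - D (P (D x))) - (P (D x) - D (P (D x))) := by abel
  rw [e]
  refine (norm_sub_le _ _).trans ?_
  linarith

variable {ι : Type} [Fintype ι] [DecidableEq ι] {P : ι → E →ₗ[ℝ] E}
  {D : Finset ι → E →ₗ[ℝ] E} {δ : ℝ}

theorem comm_of (hP : ∀ i, Proj (P i)) (hD : ∀ W, Proj (D W)) (hδ : 0 ≤ δ)
    (hPD : ∀ W, ∀ i ∈ W, ∀ x, P i (D W x) = D W x)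
    (hpo : ∀ W x, D W x = 0 → ‖x‖ ^ 2 ≤ 2 * ∑ i ∈ W, ‖x - P i x‖ ^ 2)
    (hc : ∀ i j x, ‖P i (P j x) - P j (P i x)‖ ≤ δ * ‖x‖) (i : ι) (W : Finset ι) (x : E) :
    ‖D W (P i x) - P i (D W x)‖ ≤ 4 * Fintype.card ι * δ * ‖x‖ := by
  have hM : (1 : ℝ) ≤ Fintype.card ι := by
    exact_mod_cast Nat.succ_le_of_lt (Fintype.card_pos_iff.2 ⟨i⟩)
  have key : ∀ x, ‖P i (D W x) - D W (P i (D W x))‖ ≤ (2 * Fintype.card ι * δ) * ‖x‖ := by
    intro x
    set a := D W x with ha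
    set y := P i a - D W (P i a) with hy
    have hy0 : D W y = 0 := by rw [hy, map_sub, (hD W).idem, sub_self]
    have h1 := hpo W y hy0
    have h2 : ∀ j ∈ W, ‖y - P j y‖ ^ 2 ≤ (δ * ‖x‖) ^ 2 := by
      intro j hj
      have e1 : y - P j y = P i (P j a) - P j (P i a) := by
        have e2 : P j a = a := hPD W j hj x
        rw [hy, map_sub, hPD W j hj, e2]
        abel
      rw [e1]
      apply pow_le_pow_left₀ (norm_nonneg _)
      refine (hc i j a).trans ?_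
      exact mul_le_mul_of_nonneg_left (proj_norm (hD W) x) hδ
    have h3 : ∑ j ∈ W, ‖y - P j y‖ ^ 2 ≤ Fintype.card ι * (δ * ‖x‖) ^ 2 := by
      refine (Finset.sum_le_card_nsmul _ _ _ h2).trans ?_
      rw [nsmul_eq_mul]
      apply mul_le_mul_of_nonneg_right _ (by positivity)
      exact_mod_cast Finset.card_le_univ W
    apply le_of_sq_le_sq _ (by positivity)
    have h4 : (2 * (Fintype.card ι : ℝ) * δ * ‖x‖) ^ 2 =
        4 * (Fintype.card ι : ℝ) ^ 2 * (δ * ‖x‖) ^ 2 := by ring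
    rw [h4]
    have h5 : 0 ≤ (δ * ‖x‖) ^ 2 := by positivity
    have h6 : (Fintype.card ι : ℝ) ≤ (Fintype.card ι : ℝ) ^ 2 := by nlinarith
    nlinarith
  have := comm_small (hP i) (hD W) (by positivity) key x
  calc ‖D W (P i x) - P i (D W x)‖ ≤ 2 * (2 * Fintype.card ι * δ) * ‖x‖ := this
    _ = _ := by ring

/-- the product of the operators -/
def pr (D : Finset ι → E →ₗ[ℝ] E) : List (Finset ι) → E → E
  | [], x => x
  | W :: l, x => D W (pr D l x)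

theorem pr_norm (hD : ∀ W, Proj (D W)) (l : List (Finset ι)) (x : E) : ‖pr D l x‖ ≤ ‖x‖ := by
  induction l with
  | nil => exact le_refl _
  | cons W l ih => exact (proj_norm (hD W) _).trans ih

theorem pr_fix (hP : ∀ i, Proj (P i)) (hD : ∀ W, Proj (D W)) (hδ : 0 ≤ δ)
    (hPD : ∀ W, ∀ i ∈ W, ∀ x, P i (D W x) = D W x)
    (hpo : ∀ W x, D W x = 0 → ‖x‖ ^ 2 ≤ 2 * ∑ i ∈ W, ‖x - P i x‖ ^ 2)
    (hc : ∀ i j x, ‖P i (P j x) - P j (P i x)‖ ≤ δ * ‖x‖) (i : ι) (l : List (Finset ι))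
    (hi : ∃ W ∈ l, i ∈ W) (x : E) :
    ‖pr D l x - P i (pr D l x)‖ ≤ l.length * (4 * Fintype.card ι * δ) * ‖x‖ := by
  induction l with
  | nil => simp at hi
  | cons W l ih =>
    have hnn : 0 ≤ (l.length : ℝ) * (4 * Fintype.card ι * δ) * ‖x‖ := by positivity
    have hnn2 : 0 ≤ 4 * Fintype.card ι * δ * ‖x‖ := by positivity
    by_cases hW : i ∈ W
    · have : pr D (W :: l) x - P i (pr D (W :: l) x) = 0 := by
        show D W (pr D l x) - P i (D W (pr D l x)) = 0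
        rw [hPD W i hW, sub_self]
      rw [this, norm_zero]
      positivity
    · have hl : ∃ W ∈ l, i ∈ W := by
        obtain ⟨W', h1, h2⟩ := hi
        rcases List.mem_cons.1 h1 with rfl | h
        · exact absurd h2 hW
        · exact ⟨W', h, h2⟩
      have h1 := ih hl
      set z := pr D l x with hz
      show ‖D W z - P i (D W z)‖ ≤ _
      have e : D W z - P i (D W z) = D W (z - P i z) + (D W (P i z) - P i (D W z)) := by
        rw [map_sub]; abel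
      rw [e]
      have h2 := comm_of hP hD hδ hPD hpo hc i W z
      have h3 : ‖z‖ ≤ ‖x‖ := pr_norm hD l x
      have h4 : 4 * Fintype.card ι * δ * ‖z‖ ≤ 4 * Fintype.card ι * δ * ‖x‖ :=
        mul_le_mul_of_nonneg_left h3 (by positivity)
      have h5 := proj_norm (hD W) (z - P i z)
      refine (norm_add_le _ _).trans ?_
      rw [List.length_cons]
      push_cast
      linarith

theorem pr_small (hP : ∀ i, Proj (P i)) (hD : ∀ W, Proj (D W)) (hδ : 0 ≤ δ)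
    (hPD : ∀ W, ∀ i ∈ W, ∀ x, P i (D W x) = D W x)
    (hDu : ∀ W u, (∀ i, P i u = u) → D W u = u)
    (hpo : ∀ W x, D W x = 0 → ‖x‖ ^ 2 ≤ 2 * ∑ i ∈ W, ‖x - P i x‖ ^ 2)
    (hpo' : ∀ x, (∀ u, (∀ i, P i u = u) → ⟪u, x⟫_ℝ = 0) → ‖x‖ ^ 2 ≤ 2 * ∑ i, ‖x - P i x‖ ^ 2)
    (hc : ∀ i j x, ‖P i (P j x) - P j (P i x)‖ ≤ δ * ‖x‖) (l : List (Finset ι))
    (hl : ∀ i, ∃ W ∈ l, i ∈ W) (x : E) (hx : ∀ u, (∀ i, P i u = u) → ⟪u, x⟫_ℝ = 0)
    (hM : 1 ≤ Fintype.card ι) :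
    ‖pr D l x‖ ≤ 8 * (Fintype.card ι : ℝ) ^ 2 * l.length * δ * ‖x‖ := by
  have horth : ∀ l' : List (Finset ι), ∀ u, (∀ i, P i u = u) → ⟪u, pr D l' x⟫_ℝ = 0 := by
    intro l'
    induction l' with
    | nil => exact hx
    | cons W l' ih =>
      intro u hu
      show ⟪u, D W (pr D l' x)⟫_ℝ = 0
      rw [← (hD W).symm, hDu W u hu]
      exact ih u hu
  have h1 := hpo' (pr D l x) (horth l)
  have h2 : ∀ i ∈ (univ : Finset ι), ‖pr D l x - P i (pr D l x)‖ ^ 2 ≤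
      (l.length * (4 * Fintype.card ι * δ) * ‖x‖) ^ 2 := by
    intro i _
    exact pow_le_pow_left₀ (norm_nonneg _) (pr_fix hP hD hδ hPD hpo hc i l (hl i) x) 2
  have h3 := Finset.sum_le_card_nsmul _ _ _ h2
  rw [nsmul_eq_mul, Finset.card_univ] at h3
  apply le_of_sq_le_sq _ (by positivity)
  have hMR : (1 : ℝ) ≤ Fintype.card ι := by exact_mod_cast hM
  set M : ℝ := (Fintype.card ι : ℝ) with hMdef
  have h4 : (8 * M ^ 2 * l.length * δ * ‖x‖) ^ 2 =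
      4 * M ^ 2 * (l.length * (4 * M * δ) * ‖x‖) ^ 2 := by ring
  rw [h4]
  have h5 : 0 ≤ (l.length * (4 * M * δ) * ‖x‖) ^ 2 := by positivity
  have h6 : M ≤ M ^ 2 := by nlinarith
  nlinarith

end abs

section heis

variable {E : Type*} [NormedAddCommGroup E] [InnerProductSpace ℝ E]
variable {G : Type*} [Group G] {p : ℕ} [Fact p.Prime]
variable {ρ : G →* (E →ₗ[ℝ] E)} {α β ζ : ZMod p → G}

theorem heis_comm_norm (hρ : ∀ g x y, ⟪ρ g x, ρ g y⟫_ℝ = ⟪x, y⟫_ℝ)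
    (hα : ∀ a b, α (a + b) = α a * α b) (hβ : ∀ a b, β (a + b) = β a * β b)
    (hζ : ∀ a b, ζ (a + b) = ζ a * ζ b)
    (hζa : ∀ a c, ζ c * α a = α a * ζ c) (hζb : ∀ b c, ζ c * β b = β b * ζ c)
    (hab : ∀ a b, β b * α a = α a * β b * ζ (a * b)) (x : E) :
    ‖avg ρ α (avg ρ β x) - avg ρ β (avg ρ α x)‖ ≤ 2 / Real.sqrt p * ‖x‖ := by
  have hA := avg_proj hρ hα
  have hB := avg_proj hρ hβ
  have hZ := avg_proj hρ hζ
  set A := avg ρ α with hAdef
  set B := avg ρ β with hBdef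
  set Z := avg ρ ζ with hZdef
  have hAZ : ∀ y, A (Z y) = Z (A y) := fun y => avg_comm ρ (fun a c => (hζa a c).symm) y
  have hBZ : ∀ y, B (Z y) = Z (B y) := fun y => avg_comm ρ (fun b c => (hζb b c).symm) y
  set x0 := Z x with hx0
  set x1 := x - Z x with hx1
  have hx : x = x0 + x1 := by rw [hx0, hx1]; abel
  have hZx0 : Z x0 = x0 := hZ.idem x
  have hZx1 : Z x1 = 0 := by rw [hx1, map_sub, hZ.idem, sub_self]
  have hab0 : A (B x0) = B (A x0) := heis_comm hζa hab hζ x0 hZx0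
  have hp0 : (0 : ℝ) < p := p_pos
  have hs0 : 0 < Real.sqrt p := Real.sqrt_pos.2 hp0
  -- the norm of `B A`
  have hBA : ∀ y, Z y = 0 → ‖B (A y)‖ ^ 2 = (p : ℝ)⁻¹ * ‖A y‖ ^ 2 := by
    intro y hy
    have hu : A (A y) = A y := hA.idem y
    have hz : Z (A y) = 0 := by rw [← hAZ, hy, map_zero]
    exact heis_norm hρ hα hβ hab (A y) hu hz
  have hinv : (1 / Real.sqrt p) ^ 2 = (p : ℝ)⁻¹ := by
    rw [div_pow, Real.sq_sqrt hp0.le, one_pow, one_div]
  have hBA' : ∀ y, Z y = 0 → ‖B (A y)‖ ≤ 1 / Real.sqrt p * ‖A y‖ := by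
    intro y hy
    apply le_of_sq_le_sq _ (by positivity)
    rw [hBA y hy, mul_pow, hinv]
  have h1 : ‖B (A x1)‖ ≤ 1 / Real.sqrt p * ‖x1‖ :=
    (hBA' x1 hZx1).trans (mul_le_mul_of_nonneg_left (proj_norm hA x1) (by positivity))
  have h2 : ‖A (B x1)‖ ≤ 1 / Real.sqrt p * ‖x1‖ := by
    have hz : Z (B x1) = 0 := by rw [← hBZ, hZx1, map_zero]
    have h3 : ‖A (B x1)‖ ^ 2 = ⟪x1, B (A (B x1))⟫_ℝ := by
      rw [← hB.symm, ← real_inner_self_eq_norm_sq, hA.symm, hA.idem]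
    have h4 := hBA' (B x1) hz
    have h5 : ‖A (B x1)‖ ^ 2 ≤ ‖x1‖ * (1 / Real.sqrt p * ‖A (B x1)‖) := by
      rw [h3]
      exact (real_inner_le_norm _ _).trans (mul_le_mul_of_nonneg_left h4 (norm_nonneg _))
    rcases (norm_nonneg (A (B x1))).eq_or_lt with h6 | h6
    · rw [← h6]; positivity
    · have : ‖A (B x1)‖ * ‖A (B x1)‖ ≤ (1 / Real.sqrt p * ‖x1‖) * ‖A (B x1)‖ := by nlinarith
      exact le_of_mul_le_mul_right this h6
  have h3 : ‖x1‖ ≤ ‖x‖ := proj_compl_norm hZ x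
  have e : A (B x) - B (A x) = A (B x1) - B (A x1) := by
    rw [hx, map_add, map_add, map_add, map_add, hab0]
    abel
  rw [e]
  refine (norm_sub_le _ _).trans ?_
  calc ‖A (B x1)‖ + ‖B (A x1)‖ ≤ 1 / Real.sqrt p * ‖x1‖ + 1 / Real.sqrt p * ‖x1‖ :=
        add_le_add h2 h1
    _ = 2 / Real.sqrt p * ‖x1‖ := by ring
    _ ≤ _ := mul_le_mul_of_nonneg_left h3 (by positivity)

end heis

end Pool.Agent.W902.Z
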