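import Pool.Agent.W902.Z.Cls
import Pool.Agent.H554R2.Rnd.Cover

/-!
# Few inputs are in small classes (after `Pool.Agent.H554R2.Rnd.Cover`)
-/

set_option autoImplicit false

open Finset

namespace Pool.Agent.W902.Z

open Pool.Agent.H554R2.Sem Pool.Agent.H554R2.Coin Pool.Agent.H554R2.Lin Pool.Agent.H554R2.Rnd

/-- the exponents -/
theorem exp_bound (κ n m X M1 M2 g H : ℕ) (hκ : 1 ≤ κ) (hH : 1 ≤ H) (hg : g = m / κ)
    (h : X * 2 ^ g ≤ 2 ^ n * (M1 * M2)) (h1 : (M1 : ℝ) ≤ (2 : ℝ) ^ ((m : ℝ) / (4 * κ)))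
    (h2 : (M2 : ℝ) ≤ (2 : ℝ) ^ ((m : ℝ) / (4 * κ))) (hn : 2 * (n : ℝ) ≤ 3 * H * m) :
    (X : ℝ) ≤ 2 * 2 ^ n * (2 : ℝ) ^ (-((n : ℝ) / (3 * κ * H))) := by
  have hR : (X : ℝ) * 2 ^ g ≤ 2 ^ n * (M1 * M2) := by exact_mod_cast h
  have hHR : (1 : ℝ) ≤ H := by exact_mod_cast hH
  have hκR : (0 : ℝ) < κ := by exact_mod_cast hκ
  have h3 : (M1 : ℝ) * M2 ≤ (2 : ℝ) ^ ((m : ℝ) / (4 * κ)) * (2 : ℝ) ^ ((m : ℝ) / (4 * κ)) :=
    mul_le_mul h1 h2 (by positivity) (by positivity)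
  have h4 : (2 : ℝ) ^ ((m : ℝ) / κ - 1) ≤ 2 ^ g := by
    rw [← Real.rpow_natCast (2 : ℝ) g]
    apply Real.rpow_le_rpow_of_exponent_le (by norm_num)
    have h7 : m < κ * (g + 1) := by
      rw [hg]
      exact Nat.lt_mul_div_succ m (by omega)
    have h8 : (m : ℝ) < κ * ((g : ℝ) + 1) := by exact_mod_cast h7
    rw [sub_le_iff_le_add, div_le_iff₀ hκR]
    linarith
  have h5 : (X : ℝ) * (2 : ℝ) ^ ((m : ℝ) / κ - 1) ≤
      2 ^ n * ((2 : ℝ) ^ ((m : ℝ) / (4 * κ)) * (2 : ℝ) ^ ((m : ℝ) / (4 * κ))) := by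
    calc (X : ℝ) * (2 : ℝ) ^ ((m : ℝ) / κ - 1) ≤ X * 2 ^ g :=
          mul_le_mul_of_nonneg_left h4 (by positivity)
      _ ≤ 2 ^ n * (M1 * M2) := hR
      _ ≤ _ := mul_le_mul_of_nonneg_left h3 (by positivity)
  have h6 : (X : ℝ) = (X : ℝ) * (2 : ℝ) ^ ((m : ℝ) / κ - 1) *
      (2 : ℝ) ^ (1 - (m : ℝ) / κ) := by
    rw [mul_assoc, ← Real.rpow_add (by norm_num)]
    have : (m : ℝ) / κ - 1 + (1 - (m : ℝ) / κ) = 0 := by ring
    rw [this, Real.rpow_zero, mul_one]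
  rw [h6]
  calc (X : ℝ) * (2 : ℝ) ^ ((m : ℝ) / κ - 1) * (2 : ℝ) ^ (1 - (m : ℝ) / κ)
      ≤ 2 ^ n * ((2 : ℝ) ^ ((m : ℝ) / (4 * κ)) * (2 : ℝ) ^ ((m : ℝ) / (4 * κ))) *
          (2 : ℝ) ^ (1 - (m : ℝ) / κ) := mul_le_mul_of_nonneg_right h5 (by positivity)
    _ = 2 ^ n * ((2 : ℝ) ^ (1 - (m : ℝ) / (2 * κ))) := by
        rw [mul_assoc, ← Real.rpow_add (by norm_num), ← Real.rpow_add (by norm_num)]
        congr 2
        ring
    _ ≤ 2 ^ n * (2 * (2 : ℝ) ^ (-((n : ℝ) / (3 * κ * H)))) := by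
        apply mul_le_mul_of_nonneg_left _ (by positivity)
        rw [sub_eq_add_neg, Real.rpow_add (by norm_num), Real.rpow_one]
        apply mul_le_mul_of_nonneg_left _ (by norm_num)
        apply Real.rpow_le_rpow_of_exponent_le (by norm_num)
        apply neg_le_neg
        rw [div_le_iff₀ (by positivity)]
        have e9 : (m : ℝ) / (2 * κ) * (3 * κ * H) = 3 * H * m / 2 := by
          field_simp
        rw [e9]
        linarith
    _ = 2 * 2 ^ n * (2 : ℝ) ^ (-((n : ℝ) / (3 * κ * H))) := by ring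

open Classical in
/-- one class of sizes -/
theorem class_bound {n r s : ℕ} (B : Blk n r s) (hB : AllRead B) (T : Fin r → Fin 3)
    (k c E H lam κ : ℕ) (hlam : 1 ≤ lam) (hκ : 1 ≤ κ) (hE : 1 ≤ E) (hH : 1 ≤ H) (hc : c ≤ 2 * k)
    (hch : ∀ N d m : ℕ, N ≤ (450 * lam * 4 ^ k + 3) * m → E * d ≤ 18 * m →
      ((∑ i ∈ range (d + 1), N.choose i : ℕ) : ℝ) ≤ (2 : ℝ) ^ ((m : ℝ) / (4 * κ : ℕ)))
    (K' : Finset (Pt n)) (hK : K' ⊆ B.K) (a b : ℕ) (μ : ℝ) (hμ : 0 ≤ μ) (hn : (n : ℝ) ≤ H * μ)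
    (hg : ∀ x ∈ K', GoodT2 (B.S x) T c E (300 * lam * 2 ^ c) μ)
    (ha : ∀ x ∈ K', (hat (B.S x) T 0).card = a) (hb : ∀ x ∈ K', (hat (B.S x) T 1).card = b) :
    ((K'.filter (fun x => ¬ Lk κ (2 * H) B T x)).card : ℝ) ≤
      4 * 2 ^ n * (2 : ℝ) ^ (-((n : ℝ) / (3 * κ * H))) := by
  rcases K'.eq_empty_or_nonempty with he | ⟨x0, hx0⟩
  · rw [he]
    simp only [Finset.filter_empty, Finset.card_empty, Nat.cast_zero]
    positivity
  obtain ⟨-, ha1, ha2, hb1, hb2⟩ := R13_typ (B.S x0) T c E hE (300 * lam * 2 ^ c) μ (hg x0 hx0)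
  rw [ha x0 hx0] at ha1 ha2
  rw [hb x0 hx0] at hb1 hb2
  set d := ⌊12 * μ / E⌋₊ with hd
  set w := ⌊(300 * lam * 2 ^ c) * μ⌋₊ with hw
  set m := min a b with hm
  have hER : (1 : ℝ) ≤ E := by exact_mod_cast hE
  have hHR : (1 : ℝ) ≤ H := by exact_mod_cast hH
  have hm1 : 2 / 3 * μ ≤ m := by
    rw [hm]
    rcases le_total a b with h | h
    · rw [min_eq_left h]; exact ha1
    · rw [min_eq_right h]; exact hb1
  have hdE : (E : ℝ) * d ≤ 12 * μ := by
    have h1 : (d : ℝ) ≤ 12 * μ / E := Nat.floor_le (by positivity)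
    rw [le_div_iff₀ (by positivity)] at h1
    linarith
  have hd12 : (d : ℝ) ≤ 12 * μ := by
    have : (d : ℝ) ≤ E * d := by
      have : (0 : ℝ) ≤ d := Nat.cast_nonneg _
      nlinarith
    linarith
  have hEd : E * d ≤ 18 * m := by
    have : (E : ℝ) * d ≤ 18 * m := by linarith
    exact_mod_cast this
  have h4k : (1 : ℝ) ≤ (4 : ℝ) ^ k := one_le_pow₀ (by norm_num)
  have hlR : (1 : ℝ) ≤ lam := by exact_mod_cast hlam
  have hl4 : (1 : ℝ) ≤ lam * 4 ^ k := one_le_mul_of_one_le_of_one_le hlR h4k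
  have hm0 : (0 : ℝ) ≤ m := Nat.cast_nonneg _
  have hbig : (38 : ℝ) * m ≤ (450 * lam * 4 ^ k + 3) * m := by
    apply mul_le_mul_of_nonneg_right _ hm0
    linarith
  have had : a + d ≤ (450 * lam * 4 ^ k + 3) * m := by
    have : (a : ℝ) + d ≤ (450 * lam * 4 ^ k + 3) * m := by linarith
    exact_mod_cast this
  have hbd : b + d ≤ (450 * lam * 4 ^ k + 3) * m := by
    have : (b : ℝ) + d ≤ (450 * lam * 4 ^ k + 3) * m := by linarith
    exact_mod_cast this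
  have hwm : w ≤ (450 * lam * 4 ^ k + 3) * m := by
    have h1 : (w : ℝ) ≤ (300 * lam * 2 ^ c) * μ := Nat.floor_le (by positivity)
    have h2 : (2 : ℝ) ^ c ≤ 4 ^ k := by
      calc (2 : ℝ) ^ c ≤ 2 ^ (2 * k) := pow_le_pow_right₀ (by norm_num) hc
        _ = 4 ^ k := by rw [pow_mul]; norm_num
    have h3 : (300 * lam * 2 ^ c) * μ ≤ (300 * lam * 4 ^ k) * μ := by
      apply mul_le_mul_of_nonneg_right _ hμ
      exact mul_le_mul_of_nonneg_left h2 (by positivity)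
    have h4 : (300 * lam * 4 ^ k) * μ ≤ (300 * lam * 4 ^ k) * (3 / 2 * m) := by
      apply mul_le_mul_of_nonneg_left _ (by positivity)
      linarith
    have : (w : ℝ) ≤ (450 * lam * 4 ^ k + 3) * m := by
      calc (w : ℝ) ≤ (300 * lam * 4 ^ k) * (3 / 2 * m) := h1.trans (h3.trans h4)
        _ = (450 * lam * 4 ^ k) * m := by ring
        _ ≤ (450 * lam * 4 ^ k + 3) * m := by
          apply mul_le_mul_of_nonneg_right _ hm0
          linarith
    exact_mod_cast this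
  have e1 : ((4 * κ : ℕ) : ℝ) = 4 * κ := by push_cast; rfl
  have M1 := hch (a + d) d m had hEd
  have M2 := hch (b + d) d m hbd hEd
  have M3 := hch w d m hwm hEd
  rw [e1] at M1 M2 M3
  have hty : ∀ x ∈ K', Typ2 (B.S x) T c a b d w := by
    intro x hx
    have h1 := (R13_typ (B.S x) T c E hE (300 * lam * 2 ^ c) μ (hg x hx)).1
    rw [ha x hx, hb x hx] at h1
    exact h1
  have hn2 : 2 * (n : ℝ) ≤ 3 * H * m := by nlinarith
  have F0 := fb0_large (g := m / κ) B hB T K' hK hty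
  have F1 := fb1_large (g := m / κ) B hB T K' hK hty
  have G0 := exp_bound κ n m _ _ _ (m / κ) H hκ hH rfl F0 M2 M3 hn2
  have G1 := exp_bound κ n m _ _ _ (m / κ) H hκ hH rfl F1 M1 M3 hn2
  have hsub : K'.filter (fun x => ¬ Lk κ (2 * H) B T x) ⊆
      K'.filter (fun x => 2 ^ (m / κ) * (fb B T 0 x).card < 2 ^ a) ∪
      K'.filter (fun x => 2 ^ (m / κ) * (fb B T 1 x).card < 2 ^ b) := by
    intro x hx
    rw [Finset.mem_filter] at hx
    obtain ⟨hxK, hxL⟩ := hx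
    rw [Finset.mem_union, Finset.mem_filter, Finset.mem_filter]
    by_contra hcon
    push Not at hcon
    obtain ⟨hc1, hc2⟩ := hcon
    apply hxL
    have hgg : gk κ B T x = m / κ := by rw [gk, ha x hxK, hb x hxK]
    refine ⟨?_, ?_, ?_, ?_⟩
    · rw [ha x hxK]
      have : (n : ℝ) ≤ 2 * H * a := by
        have : (H : ℝ) * μ ≤ H * (3 / 2 * a) := by
          apply mul_le_mul_of_nonneg_left _ (by positivity)
          linarith
        have : (0 : ℝ) ≤ H * a := by positivity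
        nlinarith
      exact_mod_cast this
    · rw [hb x hxK]
      have : (n : ℝ) ≤ 2 * H * b := by
        have : (H : ℝ) * μ ≤ H * (3 / 2 * b) := by
          apply mul_le_mul_of_nonneg_left _ (by positivity)
          linarith
        have : (0 : ℝ) ≤ H * b := by positivity
        nlinarith
      exact_mod_cast this
    · rw [hgg, ha x hxK]
      exact hc1 hxK
    · rw [hgg, hb x hxK]
      exact hc2 hxK
  have hcard := (Finset.card_le_card hsub).trans (Finset.card_union_le _ _)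
  have hcardR : ((K'.filter (fun x => ¬ Lk κ (2 * H) B T x)).card : ℝ) ≤
      ((K'.filter (fun x => 2 ^ (m / κ) * (fb B T 0 x).card < 2 ^ a)).card : ℝ) +
      ((K'.filter (fun x => 2 ^ (m / κ) * (fb B T 1 x).card < 2 ^ b)).card : ℝ) := by
    exact_mod_cast hcard
  linarith

open Classical in
/-- all classes of sizes -/
theorem bad_c {n r s : ℕ} (B : Blk n r s) (hB : AllRead B) (T : Fin r → Fin 3)
    (k c E H q lam κ : ℕ) (hlam : 1 ≤ lam) (hκ : 1 ≤ κ) (hE : 1 ≤ E) (hH : 1 ≤ H) (hc : c ≤ 2 * k)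
    (hch : ∀ N d m : ℕ, N ≤ (450 * lam * 4 ^ k + 3) * m → E * d ≤ 18 * m →
      ((∑ i ∈ range (d + 1), N.choose i : ℕ) : ℝ) ≤ (2 : ℝ) ^ ((m : ℝ) / (4 * κ : ℕ)))
    (K' : Finset (Pt n)) (hK : K' ⊆ B.K)
    (hn : ∀ x ∈ K', (n : ℝ) ≤ H * (cnt (B.S x) c / (q : ℝ) ^ c))
    (hg : ∀ x ∈ K', GoodT2 (B.S x) T c E (300 * lam * 2 ^ c) (cnt (B.S x) c / (q : ℝ) ^ c)) :
    ((K'.filter (fun x => ¬ Lk κ (2 * H) B T x)).card : ℝ) ≤
      ((n : ℝ) + 1) ^ 3 * (4 * 2 ^ n * (2 : ℝ) ^ (-((n : ℝ) / (3 * κ * H)))) := by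
  set f : Pt n → ℕ × ℕ × ℕ := fun x =>
    ((hat (B.S x) T 0).card, (hat (B.S x) T 1).card, cnt (B.S x) c) with hf
  set t : Finset (ℕ × ℕ × ℕ) := range (n + 1) ×ˢ range (n + 1) ×ˢ range (n + 1) with ht
  have hle : ∀ A : Finset (Fin n), A.card < n + 1 := by
    intro A
    have := Finset.card_le_univ A
    rw [Fintype.card_fin] at this
    omega
  have h1 := Finset.card_eq_sum_card_fiberwise
    (s := K'.filter (fun x => ¬ Lk κ (2 * H) B T x)) (t := t) (f := f) (by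
      intro x _
      rw [ht, Finset.mem_coe, hf]
      simp only [Finset.mem_product, Finset.mem_range]
      exact ⟨hle _, hle _, hle _⟩)
  have h2 : ∀ y ∈ t, (((K'.filter (fun x => ¬ Lk κ (2 * H) B T x)).filter
      (fun x => f x = y)).card : ℝ) ≤ 4 * 2 ^ n * (2 : ℝ) ^ (-((n : ℝ) / (3 * κ * H))) := by
    intro y _
    rw [Finset.filter_comm]
    rcases (K'.filter (fun x => f x = y)).eq_empty_or_nonempty with he | ⟨x0, hx0⟩
    · rw [he]
      simp only [Finset.filter_empty, Finset.card_empty, Nat.cast_zero]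
      positivity
    have hy : ∀ x ∈ K'.filter (fun x => f x = y), x ∈ K' ∧ (hat (B.S x) T 0).card = y.1 ∧
        (hat (B.S x) T 1).card = y.2.1 ∧ cnt (B.S x) c = y.2.2 := by
      intro x hx
      rw [Finset.mem_filter] at hx
      obtain ⟨hx1, hx2⟩ := hx
      rw [← hx2]
      exact ⟨hx1, rfl, rfl, rfl⟩
    refine class_bound B hB T k c E H lam κ hlam hκ hE hH hc hch (K'.filter (fun x => f x = y))
      ((Finset.filter_subset _ _).trans hK) y.1 y.2.1 ((y.2.2 : ℝ) / (q : ℝ) ^ c) (by positivity)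
      ?_ ?_ ?_ ?_
    · have := hn x0 (hy x0 hx0).1
      rw [(hy x0 hx0).2.2.2] at this
      exact this
    · intro x hx
      have := hg x (hy x hx).1
      rw [(hy x hx).2.2.2] at this
      exact this
    · intro x hx; exact (hy x hx).2.1
    · intro x hx; exact (hy x hx).2.2.1
  have h3 : ((K'.filter (fun x => ¬ Lk κ (2 * H) B T x)).card : ℝ) =
      ∑ y ∈ t, (((K'.filter (fun x => ¬ Lk κ (2 * H) B T x)).filter
        (fun x => f x = y)).card : ℝ) := by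
    rw [h1]; push_cast; rfl
  rw [h3]
  calc _ ≤ ∑ _y ∈ t, (4 * 2 ^ n * (2 : ℝ) ^ (-((n : ℝ) / (3 * κ * H)))) :=
        Finset.sum_le_sum h2
    _ = ((n : ℝ) + 1) ^ 3 * (4 * 2 ^ n * (2 : ℝ) ^ (-((n : ℝ) / (3 * κ * H)))) := by
        rw [Finset.sum_const, nsmul_eq_mul, ht]
        simp only [Finset.card_product, Finset.card_range]
        push_cast
        ring


end Pool.Agent.W902.Z
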