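import Pool.Agent.W902.Z.Stm
import Pool.Agent.H554R2.Rnd.FoolBlk

/-!
# Sums over the large classes with crossing feet
-/

set_option autoImplicit false

open Finset

namespace Pool.Agent.W902.Z

open Pool.Agent.H554R2.Sem Pool.Agent.H554R2.Coin Pool.Agent.H554R2.Lin Pool.Agent.H554R2.Rnd

/-- The exponent of the density. -/
def gk {n r s : ℕ} (κ : ℕ) (B : Blk n r s) (T : Fin r → Fin 3) (x : Pt n) : ℕ :=
  min (hat (B.S x) T 0).card (hat (B.S x) T 1).card / κ

/-- The feet and the class of `x` are large. -/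
def Lk {n r s : ℕ} (κ Q : ℕ) (B : Blk n r s) (T : Fin r → Fin 3) (x : Pt n) : Prop :=
  n ≤ Q * (hat (B.S x) T 0).card ∧ n ≤ Q * (hat (B.S x) T 1).card ∧
  2 ^ (hat (B.S x) T 0).card ≤ 2 ^ gk κ B T x * (fb B T 0 x).card ∧
  2 ^ (hat (B.S x) T 1).card ≤ 2 ^ gk κ B T x * (fb B T 1 x).card

/-- The feet and the class of `x` are large and the feet are crossing. -/
def Gx {n r s D : ℕ} (C Q : ℕ) (π : Fin D → Fin n → Fin n) (B : Blk n r s) (T : Fin r → Fin 3)
    (x : Pt n) : Prop :=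
  Lk (64 * C) Q B T x ∧ Crs π (128 * C * Q) (hat (B.S x) T 0) (hat (B.S x) T 1)
    (((min (hat (B.S x) T 0).card (hat (B.S x) T 1).card : ℕ) : ℝ) / C)

theorem Gx_congr {n r s D C Q : ℕ} (π : Fin D → Fin n → Fin n) (B : Blk n r s) (hB : AllRead B)
    (T : Fin r → Fin 3) (x y : Pt n)
    (hx : x ∈ B.K) (hy : y ∈ cls B T x) : Gx C Q π B T x ↔ Gx C Q π B T y := by
  have hy' := (R6_mem_cls B T x y).1 hy
  have hx' := R8_symm B T x y hx hy
  have e0 : (fb B T 0 y).card = (fb B T 0 x).card :=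
    le_antisymm (R8_le0 B hB T x y hx hy) (R8_le0 B hB T y x hy'.1 hx')
  have e1 : (fb B T 1 y).card = (fb B T 1 x).card :=
    le_antisymm (R8_le1 B hB T x y hx hy) (R8_le1 B hB T y x hy'.1 hx')
  unfold Gx Lk gk
  rw [e0, e1, hy'.2.1, hy'.2.2.1]

theorem one_class {n r s D C Q : ℕ} (hC : 1 ≤ C) (hQ : 1 ≤ Q) (B : Blk n r s)
    (hB : AllRead B) (T : Fin r → Fin 3) (x : Pt n) (hx : x ∈ B.K) (π : Fin D → Fin n → Fin n)
    (h : Fin D → Fin n → Fin n → Bool)
    (hker : ∀ A B : Finset (Fin n), Disjoint A B → n ≤ Q * A.card → n ≤ Q * B.card →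
        Crs π (128 * C * Q) A B (((min A.card B.card : ℕ) : ℝ) / C) →
          (ker (coef π h univ) A B).card * 2 ^ (min A.card B.card / (8 * C)) ≤ 2 ^ B.card)
    (hG : Gx C Q π B T x) :
    |∑ y ∈ cls B T x, chi π h univ y| * 2 ^ (n / (64 * C * Q)) ≤ ((cls B T x).card : ℤ) := by
  obtain ⟨⟨hn0, hn1, hX, hY⟩, hcr⟩ := hG
  have hdis := (sum_cls B hB T x hx (fun _ => 1)).1
  have hsum := fun f : Pt n → ℤ => (sum_cls B hB T x hx f).2
  have hcard : (cls B T x).card = (fb B T 0 x).card * (fb B T 1 x).card := by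
    have := hsum (fun _ => 1)
    simp only [sum_const, nsmul_eq_mul, mul_one] at this
    exact_mod_cast this
  have hfb : ∀ e, ∀ y ∈ fb B T e x, ∀ v, v ∉ hat (B.S x) T e → y v = x v := by
    intro e y hy
    exact ((R6_mem_fb B T e x y).1 hy).2.2.2
  have hg : n / (64 * C * Q) ≤ 3 * gk (64 * C) B T x := by
    have h1 : n / Q ≤ min (hat (B.S x) T 0).card (hat (B.S x) T 1).card := by
      refine le_min ?_ ?_
      · exact Nat.div_le_of_le_mul hn0
      · exact Nat.div_le_of_le_mul hn1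
    have h2 : n / (64 * C * Q) ≤ gk (64 * C) B T x := by
      rw [mul_comm, ← Nat.div_div_eq_div_mul]
      exact Nat.div_le_div_right h1
    omega
  have h1 := disc π h univ (hat (B.S x) T 0) (hat (B.S x) T 1) hdis x (fb B T 0 x) (fb B T 1 x)
    (hfb 0) (hfb 1)
  rw [← hsum (fun y => chi π h univ y)] at h1
  have hr : 8 * gk (64 * C) B T x ≤
      min (hat (B.S x) T 0).card (hat (B.S x) T 1).card / (8 * C) := by
    unfold gk
    set a := min (hat (B.S x) T 0).card (hat (B.S x) T 1).card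
    rw [Nat.le_div_iff_mul_le (by omega)]
    calc 8 * (a / (64 * C)) * (8 * C) = 64 * C * (a / (64 * C)) := by ring
      _ ≤ a := Nat.mul_div_le _ _
  have h2 := R19_arith _ _ _ _ _ _ _ _ (gk (64 * C) B T x) hcard hr h1
    (hker _ _ hdis hn0 hn1 hcr) hX hY
  refine le_trans ?_ h2
  exact mul_le_mul_of_nonneg_left (pow_le_pow_right₀ (by norm_num) hg) (abs_nonneg _)

open Classical in
theorem all_classes {n r s D C Q : ℕ} (hC : 1 ≤ C) (hQ : 1 ≤ Q) (B : Blk n r s)
    (hB : AllRead B) (T : Fin r → Fin 3) (π : Fin D → Fin n → Fin n)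
    (h : Fin D → Fin n → Fin n → Bool)
    (hker : ∀ A B : Finset (Fin n), Disjoint A B → n ≤ Q * A.card → n ≤ Q * B.card →
        Crs π (128 * C * Q) A B (((min A.card B.card : ℕ) : ℝ) / C) →
          (ker (coef π h univ) A B).card * 2 ^ (min A.card B.card / (8 * C)) ≤ 2 ^ B.card) :
    |∑ y ∈ B.K.filter (fun x => Gx C Q π B T x), chi π h univ y| * 2 ^ (n / (64 * C * Q)) ≤
      2 ^ n := by
  set Gs := B.K.filter (fun x => Gx C Q π B T x) with hGs
  set CL : Finset (Finset (Pt n)) := Gs.image (fun x => cls B T x) with hCL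
  have hpart : ∀ f : Pt n → ℤ, ∑ y ∈ Gs, f y = ∑ R ∈ CL, ∑ y ∈ R, f y := by
    intro f
    rw [← Finset.sum_fiberwise_of_maps_to (s := Gs) (t := CL) (g := fun x => cls B T x)
      (fun x hx => Finset.mem_image_of_mem _ hx)]
    refine Finset.sum_congr rfl fun R hR => ?_
    obtain ⟨x, hx, rfl⟩ := Finset.mem_image.1 hR
    obtain ⟨hxK, hxL⟩ := Finset.mem_filter.1 hx
    apply Finset.sum_congr _ fun _ _ => rfl
    ext y
    rw [hGs]
    simp only [Finset.mem_filter]
    constructor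
    · rintro ⟨⟨hyK, _⟩, he⟩
      exact (R20_cls_eq B T x y hxK hyK).1 he
    · intro hyc
      have hyK : y ∈ B.K := ((R6_mem_cls B T x y).1 hyc).1
      exact ⟨⟨hyK, (Gx_congr π B hB T x y hxK hyc).1 hxL⟩, (R20_cls_eq B T x y hxK hyK).2 hyc⟩
  have h1 : |∑ y ∈ Gs, chi π h univ y| * 2 ^ (n / (64 * C * Q)) ≤
      ∑ R ∈ CL, (R.card : ℤ) := by
    rw [hpart]
    calc |∑ R ∈ CL, ∑ y ∈ R, chi π h univ y| * 2 ^ (n / (64 * C * Q))
        ≤ (∑ R ∈ CL, |∑ y ∈ R, chi π h univ y|) * 2 ^ (n / (64 * C * Q)) :=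
          mul_le_mul_of_nonneg_right (Finset.abs_sum_le_sum_abs _ _) (by positivity)
      _ = ∑ R ∈ CL, |∑ y ∈ R, chi π h univ y| * 2 ^ (n / (64 * C * Q)) := Finset.sum_mul _ _ _
      _ ≤ _ := by
          apply Finset.sum_le_sum
          intro R hR
          obtain ⟨x, hx, rfl⟩ := Finset.mem_image.1 hR
          obtain ⟨hxK, hxL⟩ := Finset.mem_filter.1 hx
          exact one_class hC hQ B hB T x hxK π h hker hxL
  have h2 : ∑ R ∈ CL, (R.card : ℤ) = Gs.card := by
    have := hpart (fun _ => 1)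
    simp only [sum_const, nsmul_eq_mul, mul_one] at this
    exact this.symm
  have h3 : Gs.card ≤ 2 ^ n := by
    refine (Finset.card_le_univ _).trans (le_of_eq ?_)
    show Fintype.card (Fin n → Bool) = 2 ^ n
    rw [Fintype.card_fun, Fintype.card_bool, Fintype.card_fin]
  rw [h2] at h1
  refine h1.trans ?_
  exact_mod_cast h3

end Pool.Agent.W902.Z
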