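import Pool.Agent.W902.Z.Stm
import Pool.Agent.H554R2.Rnd.Coefs

/-!
# Random coefficients
-/

set_option autoImplicit false

open Finset

namespace Pool.Agent.W902.Z

open Pool.Agent.H554R2.Sem Pool.Agent.H554R2.Coin Pool.Agent.H554R2.Lin Pool.Agent.H554R2.Rnd

theorem pz : R18PZ := fun m m' t ht h h' => pairs_zero m m' t ht h h'

theorem group_bound {n G t : ℕ} (π : Fin n → Fin G) (A B : Finset (Fin n)) (O : Finset (Fin G))
    (ht : 2 ≤ t) (hO : ∀ g ∈ O, 8 * t ≤ (A.filter (fun v => π v = g)).card ∧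
      8 * t ≤ (B.filter (fun v => π v = g)).card) (g : Fin G) :
    (Nat.card {p : {u // π u = g} → (Fin n → ZMod 2) × (Fin t → ZMod 2) //
      R18R π A B g t p} : ℝ) ≤
    (2 : ℝ) ^ ((univ.filter (fun v => π v = g)).card * n + (B.filter (fun v => π v = g)).card * t) *
      (2 : ℝ) ^ (if g ∈ O then -(3 * ((min (A.filter (fun v => π v = g)).card
        (B.filter (fun v => π v = g)).card : ℕ) : ℝ) * t / 8) else 0) := by
  classical
  have h0 := R18_group (t := t) π A B g
  set a := (A.filter (fun v => π v = g)).card with ha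
  set b := (B.filter (fun v => π v = g)).card with hb
  set f := (univ.filter (fun v => π v = g)).card with hf
  set c := Nat.card {p : {u // π u = g} → (Fin n → ZMod 2) × (Fin t → ZMod 2) //
      R18R π A B g t p} with hc
  set P := Nat.card (R18P {u // π u = g ∧ u ∈ A} {v // π v = g ∧ v ∈ B} t) with hP
  have c1 : Fintype.card {u // π u = g ∧ u ∈ A} = a := by
    rw [Fintype.card_subtype, ha]
    congr 1
    ext v
    simp [and_comm]
  have c2 : Fintype.card {u // π u = g ∧ u ∈ B} = b := by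
    rw [Fintype.card_subtype, hb]
    congr 1
    ext v
    simp [and_comm]
  set θ : ℝ := (2 : ℝ) ^ (if g ∈ O then -(3 * ((min a b : ℕ) : ℝ) * t / 8) else 0) with hθ
  have hPb : (P : ℝ) ≤ (2 : ℝ) ^ (a * b + b * t) * θ := by
    by_cases hg : g ∈ O
    · rw [hθ, if_pos hg]
      obtain ⟨hga, hgb⟩ := hO g hg
      have h1 := R18_reindex {u // π u = g ∧ u ∈ A} {v // π v = g ∧ v ∈ B} t
      rw [c1, c2] at h1
      have h2 := pz a b t ht hga hgb
      have h3 : (P : ℝ) ≤ (Nat.card (R18P (Fin a) (Fin b) t) : ℝ) := by exact_mod_cast h1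
      refine h3.trans (h2.trans ?_)
      apply mul_le_mul_of_nonneg_left _ (by positivity)
      apply Real.rpow_le_rpow_of_exponent_le (by norm_num)
      push_cast
      exact le_refl _
    · rw [hθ, if_neg hg, Real.rpow_zero, mul_one]
      have h1 := R18_triv {u // π u = g ∧ u ∈ A} {v // π v = g ∧ v ∈ B} t
      rw [c1, c2] at h1
      exact_mod_cast h1
  have hpos : (0 : ℝ) < 2 ^ (a * b) := by positivity
  have h0' : (c : ℝ) * 2 ^ (a * b) ≤ (P : ℝ) * 2 ^ (f * n) := by exact_mod_cast h0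
  have h1 : (c : ℝ) * 2 ^ (a * b) ≤ ((2 : ℝ) ^ (f * n + b * t) * θ) * 2 ^ (a * b) := by
    calc (c : ℝ) * 2 ^ (a * b) ≤ (P : ℝ) * 2 ^ (f * n) := h0'
      _ ≤ ((2 : ℝ) ^ (a * b + b * t) * θ) * 2 ^ (f * n) :=
        mul_le_mul_of_nonneg_right hPb (by positivity)
      _ = _ := by rw [pow_add, pow_add]; ring
  exact le_of_mul_le_mul_right h1 hpos

theorem total {n G t : ℕ} (π : Fin n → Fin G) (A B : Finset (Fin n)) (O : Finset (Fin G))
    (ht : 2 ≤ t) (hO : ∀ g ∈ O, 8 * t ≤ (A.filter (fun v => π v = g)).card ∧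
      8 * t ≤ (B.filter (fun v => π v = g)).card) :
    (Nat.card {w : Fin n → (Fin n → ZMod 2) × (Fin t → ZMod 2) //
      ∀ g, R18R π A B g t (fun u => w u.1)} : ℝ) ≤
    (2 : ℝ) ^ (n * n + B.card * t) *
      (2 : ℝ) ^ (-(3 * ((∑ g ∈ O, min (A.filter (fun v => π v = g)).card
        (B.filter (fun v => π v = g)).card : ℕ) : ℝ) * t / 8)) := by
  classical
  rw [R18_decouple π (fun g => R18R π A B g t)]
  push_cast
  calc ∏ g, (Nat.card {p : {u // π u = g} → (Fin n → ZMod 2) × (Fin t → ZMod 2) //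
        R18R π A B g t p} : ℝ)
      ≤ ∏ g, ((2 : ℝ) ^ ((univ.filter (fun v => π v = g)).card * n +
          (B.filter (fun v => π v = g)).card * t) *
        (2 : ℝ) ^ (if g ∈ O then -(3 * ((min (A.filter (fun v => π v = g)).card
        (B.filter (fun v => π v = g)).card : ℕ) : ℝ) * t / 8) else 0)) :=
        prod_le_prod (fun _ _ => Nat.cast_nonneg _) fun g _ =>
          group_bound π A B O ht hO g
    _ = _ := by
      rw [prod_mul_distrib, prod_pow_eq_pow_sum, sum_add_distrib, ← sum_mul, ← sum_mul]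
      have e1 : ∑ g, (univ.filter (fun v => π v = g)).card = n := by
        rw [← card_eq_sum_card_fiberwise (f := π) (s := univ) (t := univ) (fun _ _ => mem_univ _),
          card_univ, Fintype.card_fin]
      have e2 : ∑ g, (B.filter (fun v => π v = g)).card = B.card :=
        (card_eq_sum_card_fiberwise (f := π) (s := B) (t := univ) (fun _ _ => mem_univ _)).symm
      rw [e1, e2]
      congr 1
      rw [← Real.rpow_sum_of_pos (by norm_num), ← sum_filter, filter_mem_eq_inter, univ_inter,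
        Finset.sum_neg_distrib]
      congr 1
      rw [← Finset.sum_div, ← Finset.sum_mul, ← Finset.mul_sum]
      push_cast
      rfl

theorem bad_small {n t D C Q : ℕ} (hC : 1 ≤ C) (hQ : 1 ≤ Q) (ht : t = 16 * C * Q)
    (π : Fin D → Fin n → Fin n) (A B : Finset (Fin n)) (hd : Disjoint A B)
    (hA : n ≤ Q * A.card) (hB : n ≤ Q * B.card)
    (hc : Crs π (8 * t) A B (((min A.card B.card : ℕ) : ℝ) / C)) :
    (univ.filter (fun h : Fin D → Fin n → Fin n → Bool =>
      2 ^ B.card < (ker (coef π h univ) A B).card * 2 ^ (min A.card B.card / (8 * C)))).card *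
        2 ^ (4 * n) ≤ Fintype.card (Fin D → Fin n → Fin n → Bool) := by
  classical
  obtain ⟨j, O, hO, hμ⟩ := hc
  have ht2 : 2 ≤ t := by
    rw [ht]
    have : 1 * 1 ≤ C * Q := Nat.mul_le_mul hC hQ
    nlinarith
  set a0 := min A.card B.card with ha0
  have hna : n ≤ Q * a0 := by
    rw [ha0]
    rcases min_choice A.card B.card with h | h <;> rw [h] <;> assumption
  set m1 : ℕ := ∑ g ∈ O, min (A.filter (fun v => π j v = g)).card
        (B.filter (fun v => π j v = g)).card with hm1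
  have hCR : (1 : ℝ) ≤ C := by exact_mod_cast hC
  have hm1R : (a0 : ℝ) ≤ C * m1 := by
    have h1 : (a0 : ℝ) / C ≤ m1 := hμ
    rw [div_le_iff₀ (by linarith)] at h1
    linarith
  have htot := total (t := t) (π j) A B O ht2 hO
  have hmom := R18_moment (t := t) π A B hd univ j (mem_univ j)
  rw [← hm1] at htot
  set Z := Nat.card {w : Fin n → (Fin n → ZMod 2) × (Fin t → ZMod 2) //
        ∀ g, R18R (π j) A B g t (fun u => w u.1)} with hZ
  set S := ∑ h : Fin D → Fin n → Fin n → Bool, (ker (coef π h univ) A B).card ^ t with hS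
  set H := Fintype.card (Fin D → Fin n → Fin n → Bool) with hH
  have hSb : (S : ℝ) ≤ (H : ℝ) * ((2 : ℝ) ^ (B.card * t) * (2 : ℝ) ^ (-(3 * (m1 : ℝ) * t / 8))) := by
    have h1 : (2 : ℝ) ^ (n * n) * (S : ℝ) ≤ (H : ℝ) * (Z : ℝ) := by exact_mod_cast hmom
    have h3 : (H : ℝ) * (Z : ℝ) ≤ (2 : ℝ) ^ (n * n) *
        ((H : ℝ) * ((2 : ℝ) ^ (B.card * t) * (2 : ℝ) ^ (-(3 * (m1 : ℝ) * t / 8)))) := by
      calc (H : ℝ) * (Z : ℝ) ≤ (H : ℝ) * ((2 : ℝ) ^ (n * n + B.card * t) *
            (2 : ℝ) ^ (-(3 * (m1 : ℝ) * t / 8))) :=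
            mul_le_mul_of_nonneg_left htot (Nat.cast_nonneg _)
        _ = _ := by rw [pow_add]; ring
    exact le_of_mul_le_mul_left (h1.trans h3) (by positivity)
  -- Markov
  set e := a0 / (8 * C) with he
  set bad := univ.filter (fun h : Fin D → Fin n → Fin n → Bool =>
      2 ^ B.card < (ker (coef π h univ) A B).card * 2 ^ e) with hbad
  have hmk : bad.card * 2 ^ (B.card * t) ≤ S * 2 ^ (e * t) := by
    calc bad.card * 2 ^ (B.card * t) = ∑ h ∈ bad, (2 ^ B.card) ^ t := by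
          rw [sum_const, smul_eq_mul, ← pow_mul]
      _ ≤ ∑ h ∈ bad, ((ker (coef π h univ) A B).card * 2 ^ e) ^ t := by
          refine sum_le_sum fun h hh => ?_
          rw [hbad, mem_filter] at hh
          exact Nat.pow_le_pow_left hh.2.le t
      _ ≤ ∑ h : Fin D → Fin n → Fin n → Bool, ((ker (coef π h univ) A B).card * 2 ^ e) ^ t :=
          sum_le_sum_of_subset (subset_univ _)
      _ = S * 2 ^ (e * t) := by
          rw [hS, sum_mul]
          refine sum_congr rfl fun h _ => ?_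
          rw [mul_pow, ← pow_mul]
  have hmk' : (bad.card : ℝ) * 2 ^ (B.card * t) ≤ (S : ℝ) * 2 ^ (e * t) := by exact_mod_cast hmk
  have hfin : (bad.card : ℝ) * 2 ^ (4 * n) ≤ (H : ℝ) := by
    have h1 : (bad.card : ℝ) * 2 ^ (B.card * t) ≤
        ((H : ℝ) * ((2 : ℝ) ^ (-(3 * (m1 : ℝ) * t / 8)) * 2 ^ (e * t))) * 2 ^ (B.card * t) := by
      calc (bad.card : ℝ) * 2 ^ (B.card * t) ≤ (S : ℝ) * 2 ^ (e * t) := hmk'
        _ ≤ ((H : ℝ) * ((2 : ℝ) ^ (B.card * t) * (2 : ℝ) ^ (-(3 * (m1 : ℝ) * t / 8)))) *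
              2 ^ (e * t) := mul_le_mul_of_nonneg_right hSb (by positivity)
        _ = _ := by ring
    have h2 : (bad.card : ℝ) ≤ (H : ℝ) * ((2 : ℝ) ^ (-(3 * (m1 : ℝ) * t / 8)) * 2 ^ (e * t)) :=
      le_of_mul_le_mul_right h1 (by positivity)
    have h3 : (2 : ℝ) ^ (-(3 * (m1 : ℝ) * t / 8)) * 2 ^ (e * t) * 2 ^ (4 * n) ≤ 1 := by
      rw [← Real.rpow_natCast, ← Real.rpow_natCast, ← Real.rpow_add (by norm_num),
        ← Real.rpow_add (by norm_num)]
      apply Real.rpow_le_one_of_one_le_of_nonpos (by norm_num)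
      push_cast
      have he' : (e : ℝ) ≤ (m1 : ℝ) / 8 := by
        have h4 : (e : ℝ) ≤ (a0 : ℝ) / (8 * C) := by
          rw [he]
          exact_mod_cast Nat.cast_div_le (m := a0) (n := 8 * C) (α := ℝ)
        refine h4.trans ?_
        rw [div_le_div_iff₀ (by positivity) (by norm_num)]
        linarith
      have ht' : (t : ℝ) = 16 * C * Q := by rw [ht]; push_cast; ring
      have hna' : (n : ℝ) ≤ Q * a0 := by exact_mod_cast hna
      have hQ0 : (0 : ℝ) ≤ Q := Nat.cast_nonneg _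
      have h4 : (e : ℝ) * t ≤ (m1 : ℝ) / 8 * t :=
        mul_le_mul_of_nonneg_right he' (Nat.cast_nonneg _)
      have h5 : 4 * (n : ℝ) ≤ (m1 : ℝ) / 4 * t := by
        rw [ht']
        have h6 : (Q : ℝ) * a0 ≤ Q * (C * m1) := mul_le_mul_of_nonneg_left hm1R hQ0
        calc 4 * (n : ℝ) ≤ 4 * (Q * (C * m1)) := by linarith
          _ = (m1 : ℝ) / 4 * (16 * C * Q) := by ring
      linarith
    calc (bad.card : ℝ) * 2 ^ (4 * n)
        ≤ (H : ℝ) * ((2 : ℝ) ^ (-(3 * (m1 : ℝ) * t / 8)) * 2 ^ (e * t)) * 2 ^ (4 * n) :=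
          mul_le_mul_of_nonneg_right h2 (by positivity)
      _ = (H : ℝ) * ((2 : ℝ) ^ (-(3 * (m1 : ℝ) * t / 8)) * 2 ^ (e * t) * 2 ^ (4 * n)) := by ring
      _ ≤ (H : ℝ) * 1 := mul_le_mul_of_nonneg_left h3 (Nat.cast_nonneg _)
      _ = _ := mul_one _
  exact_mod_cast hfin

/-- random coefficients -/
theorem coefs (C Q D n : ℕ) (hC : 1 ≤ C) (hQ : 1 ≤ Q) (hn : 1 ≤ n)
    (π : Fin D → Fin n → Fin n) : ∃ h : Fin D → Fin n → Fin n → Bool,
      ∀ A B : Finset (Fin n), Disjoint A B → n ≤ Q * A.card → n ≤ Q * B.card →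
        Crs π (128 * C * Q) A B (((min A.card B.card : ℕ) : ℝ) / C) →
          (ker (coef π h univ) A B).card * 2 ^ (min A.card B.card / (8 * C)) ≤ 2 ^ B.card := by
  classical
  by_contra hno
  push Not at hno
  set H := Fintype.card (Fin D → Fin n → Fin n → Bool) with hH
  let val : Finset (Fin n) × Finset (Fin n) → Prop := fun q =>
    Disjoint q.1 q.2 ∧ n ≤ Q * q.1.card ∧ n ≤ Q * q.2.card ∧
      Crs π (128 * C * Q) q.1 q.2 (((min q.1.card q.2.card : ℕ) : ℝ) / C)
  let bad : Finset (Fin n) × Finset (Fin n) →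
      Finset (Fin D → Fin n → Fin n → Bool) := fun q =>
    if val q then univ.filter (fun h => 2 ^ q.2.card <
      (ker (coef π h univ) q.1 q.2).card * 2 ^ (min q.1.card q.2.card / (8 * C))) else ∅
  have hbad : ∀ q, (bad q).card * 2 ^ (4 * n) ≤ H := by
    rintro ⟨A, B⟩
    by_cases hv : val (A, B)
    · simp only [bad, if_pos hv]
      obtain ⟨h1, h2, h3, h4⟩ := hv
      apply bad_small hC hQ rfl π A B h1 h2 h3
      rw [show 8 * (16 * C * Q) = 128 * C * Q by ring]
      exact h4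
    · simp only [bad, if_neg hv, card_empty, zero_mul]
      exact Nat.zero_le _
  have hcov : (univ : Finset (Fin D → Fin n → Fin n → Bool)) ⊆ univ.biUnion bad := by
    intro h _
    obtain ⟨A, B, h1, h2, h3, h4, h6⟩ := hno h
    rw [mem_biUnion]
    refine ⟨(A, B), mem_univ _, ?_⟩
    have hv : val (A, B) := ⟨h1, h2, h3, h4⟩
    simp only [bad, if_pos hv]
    rw [mem_filter]
    exact ⟨mem_univ _, h6⟩
  have h1 : H ≤ ∑ q, (bad q).card := by
    rw [hH, ← card_univ]
    exact (card_le_card hcov).trans card_biUnion_le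
  have h2 : H * 2 ^ (4 * n) ≤
      Fintype.card (Finset (Fin n) × Finset (Fin n)) * H := by
    calc H * 2 ^ (4 * n) ≤ (∑ q, (bad q).card) * 2 ^ (4 * n) := Nat.mul_le_mul_right _ h1
      _ = ∑ q, (bad q).card * 2 ^ (4 * n) := sum_mul _ _ _
      _ ≤ ∑ q : Finset (Fin n) × Finset (Fin n), H :=
          sum_le_sum fun q _ => hbad q
      _ = _ := by rw [sum_const, card_univ, smul_eq_mul]
  have hHpos : 0 < H := Fintype.card_pos
  have h3 : 2 ^ (4 * n) ≤
      Fintype.card (Finset (Fin n) × Finset (Fin n)) := by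
    rw [mul_comm] at h2
    exact Nat.le_of_mul_le_mul_right h2 hHpos
  rw [Fintype.card_prod, Fintype.card_finset, Fintype.card_fin, ← pow_add] at h3
  have h4 := (Nat.pow_le_pow_iff_right (by norm_num)).1 h3
  omega

end Pool.Agent.W902.Z
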