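import Mathlib

/-!
# Pruning
-/

set_option autoImplicit false
set_option linter.unusedSectionVars false

open Finset

namespace Pool.Agent.W902.Z

variable {α γ β : Type} [Fintype α] [DecidableEq α] [DecidableEq γ] [DecidableEq β]

/-- the classes which meet `Y` -/
def hull (f : α → β) (Y : Finset α) : Finset α := univ.filter fun j => ∃ y ∈ Y, f j = f y

theorem hull_mono (f : α → β) {Y Y' : Finset α} (h : Y ⊆ Y') : hull f Y ⊆ hull f Y' := by
  intro j hj
  simp only [hull, mem_filter, mem_univ, true_and] at hj ⊢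
  obtain ⟨y, hy, e⟩ := hj
  exact ⟨y, h hy, e⟩

theorem hull_card (f : α → β) (S Y : Finset α) (τ : ℝ)
    (h : ∀ y ∈ Y, τ * (univ.filter fun j => f j = f y).card ≤ (S.filter fun j => f j = f y).card) :
    τ * (hull f Y).card ≤ S.card := by
  have h1 : (hull f Y).card = ∑ b ∈ Y.image f, (univ.filter fun j => f j = b).card := by
    have : hull f Y = (Y.image f).biUnion fun b => univ.filter fun j => f j = b := by
      ext j
      simp only [hull, mem_filter, mem_univ, true_and, mem_biUnion, mem_image]
      constructor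
      · rintro ⟨y, hy, e⟩
        exact ⟨f y, ⟨y, hy, rfl⟩, e⟩
      · rintro ⟨b, ⟨y, hy, rfl⟩, e⟩
        exact ⟨y, hy, e⟩
    rw [this, Finset.card_biUnion]
    intro b _ b' _ hbb
    rw [Function.onFun, Finset.disjoint_left]
    intro j hj hj'
    exact hbb ((mem_filter.1 hj).2.symm.trans (mem_filter.1 hj').2)
  have h2 : ∑ b ∈ Y.image f, (S.filter fun j => f j = b).card ≤ S.card := by
    rw [← Finset.card_biUnion]
    · apply Finset.card_le_card
      intro j hj
      obtain ⟨b, _, hb⟩ := mem_biUnion.1 hj
      exact (mem_filter.1 hb).1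
    · intro b _ b' _ hbb
      rw [Function.onFun, Finset.disjoint_left]
      intro j hj hj'
      exact hbb ((mem_filter.1 hj).2.symm.trans (mem_filter.1 hj').2)
  have h3 : (∑ b ∈ Y.image f, ((S.filter fun j => f j = b).card : ℝ)) ≤ S.card := by
    exact_mod_cast h2
  rw [h1]
  push_cast
  rw [Finset.mul_sum]
  refine le_trans (Finset.sum_le_sum fun b hb => ?_) h3
  obtain ⟨y, hy, rfl⟩ := mem_image.1 hb
  exact h y hy

theorem prune_comb (f : γ → α → β) (Gs : Finset γ) (S Y0 : Finset α) (τ θ : ℝ) (hτ : 0 < τ)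
    (hθ : 0 ≤ θ)
    (hheavy : ∀ W ∈ Gs, ∀ y ∈ Y0, τ * (univ.filter fun j => f W j = f W y).card ≤
      (S.filter fun j => f W j = f W y).card)
    (hbig : θ * Gs.card * S.card < τ * Y0.card) :
    ∃ Y ⊆ Y0, Y.Nonempty ∧ ∀ W ∈ Gs, ∀ y ∈ Y,
      θ * (univ.filter fun j => f W j = f W y).card ≤ (Y.filter fun j => f W j = f W y).card := by
  set Ψ : Finset α → ℝ := fun Y => Y.card - θ * ∑ W ∈ Gs, ((hull (f W) Y).card : ℝ) with hΨ
  obtain ⟨Y, hY, hmax⟩ := Finset.exists_max_image Y0.powerset Ψ ⟨_, Finset.mem_powerset_self _⟩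
  rw [mem_powerset] at hY
  have hpos : 0 < Ψ Y := by
    refine lt_of_lt_of_le ?_ (hmax Y0 (Finset.mem_powerset_self _))
    have h1 : ∀ W ∈ Gs, ((hull (f W) Y0).card : ℝ) ≤ S.card / τ := by
      intro W hW
      rw [le_div_iff₀ hτ, mul_comm]
      exact hull_card (f W) S Y0 τ (hheavy W hW)
    have h2 := Finset.sum_le_card_nsmul _ _ _ h1
    rw [nsmul_eq_mul] at h2
    have h3 : θ * ∑ W ∈ Gs, ((hull (f W) Y0).card : ℝ) ≤ θ * (Gs.card * (S.card / τ)) :=
      mul_le_mul_of_nonneg_left h2 hθ
    have h4 : θ * (Gs.card * (S.card / τ)) < Y0.card := by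
      have : θ * (Gs.card * (S.card / τ)) = θ * Gs.card * S.card / τ := by ring
      rw [this, div_lt_iff₀ hτ, mul_comm (Y0.card : ℝ)]
      exact hbig
    simp only [hΨ]
    linarith
  refine ⟨Y, hY, ?_, ?_⟩
  · by_contra hne
    rw [not_nonempty_iff_eq_empty] at hne
    rw [hne] at hpos
    simp only [hΨ, Finset.card_empty, Nat.cast_zero, zero_sub] at hpos
    have : 0 ≤ θ * ∑ W ∈ Gs, ((hull (f W) (∅ : Finset α)).card : ℝ) :=
      mul_nonneg hθ (Finset.sum_nonneg fun _ _ => Nat.cast_nonneg _)
    linarith
  · intro W hW y hy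
    by_contra hcon
    push Not at hcon
    set Y' := Y.filter fun j => f W j ≠ f W y with hY'
    have hsub : Y' ⊆ Y := Finset.filter_subset _ _
    have hm := hmax Y' (mem_powerset.2 (hsub.trans hY))
    have h1 : (Y'.card : ℝ) = Y.card - (Y.filter fun j => f W j = f W y).card := by
      have := Finset.card_filter_add_card_filter_not (s := Y) (fun j => f W j = f W y)
      have h2 : ((Y.filter fun j => f W j = f W y).card : ℝ) + Y'.card = Y.card := by
        exact_mod_cast this
      linarith
    have h2 : ∀ W' ∈ Gs, ((hull (f W') Y').card : ℝ) ≤ (hull (f W') Y).card -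
        (if W' = W then ((univ.filter fun j => f W j = f W y).card : ℝ) else 0) := by
      intro W' _
      by_cases hWW : W' = W
      · subst hWW
        rw [if_pos rfl]
        have h3 : (hull (f W') Y').card + (univ.filter fun j => f W' j = f W' y).card ≤
            (hull (f W') Y).card := by
          rw [← Finset.card_union_of_disjoint]
          · apply Finset.card_le_card
            apply Finset.union_subset (hull_mono _ hsub)
            intro j hj
            simp only [hull, mem_filter, mem_univ, true_and] at hj ⊢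
            exact ⟨y, hy, hj⟩
          · rw [Finset.disjoint_left]
            intro j hj hj'
            simp only [hull, hY', mem_filter, mem_univ, true_and] at hj hj'
            obtain ⟨y', ⟨_, hy2⟩, e⟩ := hj
            exact hy2 (e.symm.trans hj')
        have h4 : ((hull (f W') Y').card : ℝ) + (univ.filter fun j => f W' j = f W' y).card ≤
            (hull (f W') Y).card := by exact_mod_cast h3
        linarith
      · rw [if_neg hWW, sub_zero]
        exact_mod_cast Finset.card_le_card (hull_mono _ hsub)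
    have h3 := Finset.sum_le_sum h2
    rw [Finset.sum_sub_distrib, Finset.sum_ite_eq' Gs W, if_pos hW] at h3
    have h4 := mul_le_mul_of_nonneg_left h3 hθ
    simp only [hΨ] at hm
    rw [h1] at hm
    rw [mul_sub] at h4
    linarith

end Pool.Agent.W902.Z
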