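import Pool.Agent.W902.Z.Stm
import Pool.Agent.W766.ZCross

/-!
# Crossing feet for the partitions of the system
-/

set_option autoImplicit false

open Finset

namespace Pool.Agent.W902.Z

open Pool.Agent.H554R2.Sem Pool.Agent.H554R2.Coin Pool.Agent.H554R2.Lin Pool.Agent.H554R2.Rnd

theorem Crs_mono {n : ℕ} {ω : Type} (lab : ω → Fin n → Fin n) (t0 : ℕ) (A B : Finset (Fin n))
    {μ μ' : ℝ} (h : μ' ≤ μ) (hc : Crs lab t0 A B μ) : Crs lab t0 A B μ' := by
  obtain ⟨W, O, h1, h2⟩ := hc
  exact ⟨W, O, h1, h.trans h2⟩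

open Classical in
theorem cross_x {n r M K0 D : ℕ} [NeZero M] (e : Fin D ≃ {W : Finset (ZMod M) // W.card = K0})
    (lab : Finset (ZMod M) → Fin n → Fin n) (real : Finset (Fin n)) (L ρ : ℕ) (ζ τ : ℝ)
    (hnr : L * realᶜ.card ≤ n)
    (hL : ∀ W, ∀ i ∈ real, L ≤ (univ.filter fun j => lab W j = lab W i).card ∧
        ∀ j, lab W j = lab W i → j ∈ real)
    (hpr : ∀ S ⊆ real, ρ * S.card ≤ n →
        ((S.filter fun y => ∀ z, ∃ W : Finset (ZMod M), W.card = K0 ∧ z ∈ W ∧
          τ * (univ.filter fun j => lab W j = lab W y).card ≤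
            (S.filter fun j => lab W j = lab W y).card).card : ℝ) ≤ ζ * S.card)
    (S : Fin n → Finset (Fin r)) (q c t0 H lam k : ℕ) (hq : 3 ≤ q) (hc1 : 1 ≤ c) (hH : 1 ≤ H)
    (hlam : 1 ≤ lam) (hn1 : 1 ≤ n) (hζ0 : 0 < ζ) (hτ0 : 0 < τ)
    (hcK : c ≤ K0) (hKM : K0 ≤ M)
    (hsz : ∀ j, ρ * (univ.filter fun v => j ∈ S v).card ≤ n)
    (hsum : ∑ j, (univ.filter fun v => j ∈ S v).card ≤ k * n)
    (hn : (n : ℝ) ≤ H * (cnt S c / (q : ℝ) ^ c))
    (hζ : 4 * H * k * ζ ≤ 1) (hL4 : 4 * H ≤ L) (hLt : 8 * D * H * t0 ≤ L)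
    (hτ : 128 * lam * (K0 * τ) * (q : ℝ) ^ (2 * c) * D * H ≤ 1) :
    2 * lam * Nat.card {T : Fin r → Fin q // ¬ Crs (fun d => lab (e d).1) t0 (hat S (kind T) 0)
      (hat S (kind T) 1) (cnt S c / (q : ℝ) ^ c / (16 * D))} ≤ q ^ r := by
  obtain ⟨R, hR⟩ : ∃ R : Fin r → Finset (Fin n), R = fun j =>
    (univ.filter fun v => j ∈ S v) ∩ real := ⟨_, rfl⟩
  have hRm : ∀ j v, v ∈ R j ↔ j ∈ S v ∧ v ∈ real := by
    intro j v
    rw [hR]
    simp
  have hRsub : ∀ j, R j ⊆ real := by
    intro j v hv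
    exact ((hRm j v).1 hv).2
  have hRcard : ∀ j, (R j).card ≤ (univ.filter fun v => j ∈ S v).card := by
    intro j
    rw [hR]
    exact Finset.card_le_card Finset.inter_subset_left
  obtain ⟨Bad, hBad⟩ : ∃ Bad : Fin r → Finset (Fin n), Bad = fun j =>
    (R j).filter fun y => ∀ z, ∃ W : Finset (ZMod M), W.card = K0 ∧ z ∈ W ∧
          τ * (univ.filter fun j => lab W j = lab W y).card ≤
            ((R j).filter fun j => lab W j = lab W y).card := ⟨_, rfl⟩
  have hBadc : ∀ j, ((Bad j).card : ℝ) ≤ ζ * (R j).card := by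
    intro j
    rw [hBad]
    exact hpr (R j) (hRsub j) ((Nat.mul_le_mul_left _ (hRcard j)).trans (hsz j))
  obtain ⟨Gd, hGd⟩ : ∃ Gd : Finset (Fin n), Gd = univ.filter fun v =>
    (S v).card = c ∧ v ∈ real ∧ ∀ j, v ∉ Bad j := ⟨_, rfl⟩
  have hGm : ∀ v ∈ Gd, (S v).card = c ∧ v ∈ real ∧ ∀ j, v ∉ Bad j := by
    intro v hv
    rw [hGd, mem_filter] at hv
    exact hv.2
  -- the choice of the partition
  have hW : ∀ v ∈ Gd, ∃ d : Fin D, ((univ.filter fun u =>
      lab (e d).1 u = lab (e d).1 v ∧ ¬ Disjoint (S u) (S v)).card : ℝ) ≤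
        (K0 * τ) * nb (lab (e d).1) univ (lab (e d).1 v) := by
    intro v hv
    obtain ⟨h1, h2, h3⟩ := hGm v hv
    have h4 : ∀ j, ∃ z : ZMod M, j ∈ S v → ∀ W : Finset (ZMod M), W.card = K0 → z ∈ W →
        (((R j).filter fun u => lab W u = lab W v).card : ℝ) <
          τ * (univ.filter fun u => lab W u = lab W v).card := by
      intro j
      by_cases hj : j ∈ S v
      · have h5 := h3 j
        rw [hBad] at h5
        simp only [mem_filter, not_and, not_forall] at h5
        obtain ⟨z, hz⟩ := h5 ((hRm j v).2 ⟨hj, h2⟩)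
        refine ⟨z, fun _ W hWc hzW => ?_⟩
        by_contra hcon
        rw [not_lt] at hcon
        exact hz ⟨W, hWc, hzW, hcon⟩
      · exact ⟨0, fun h => absurd h hj⟩
    choose Z hZ using h4
    obtain ⟨W, hW1, hW2⟩ := Finset.exists_superset_card_eq (s := (S v).image Z) (n := K0)
      (Finset.card_image_le.trans (by rw [h1]; exact hcK)) (by rw [ZMod.card]; exact hKM)
    refine ⟨e.symm ⟨W, hW2⟩, ?_⟩
    rw [Equiv.apply_symm_apply]
    have h6 : (univ.filter fun u => lab W u = lab W v ∧ ¬ Disjoint (S u) (S v)) ⊆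
        (S v).biUnion fun j => (R j).filter fun u => lab W u = lab W v := by
      intro u hu
      rw [mem_filter] at hu
      obtain ⟨-, hu1, hu2⟩ := hu
      rw [Finset.not_disjoint_iff] at hu2
      obtain ⟨j, hj1, hj2⟩ := hu2
      rw [mem_biUnion]
      exact ⟨j, hj2, mem_filter.2 ⟨(hRm j u).2 ⟨hj1, (hL W v h2).2 u hu1⟩, hu1⟩⟩
    have h7 := (Finset.card_le_card h6).trans Finset.card_biUnion_le
    have h8 : ((univ.filter fun u => lab W u = lab W v ∧ ¬ Disjoint (S u) (S v)).card : ℝ) ≤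
        ∑ j ∈ S v, (((R j).filter fun u => lab W u = lab W v).card : ℝ) := by
      exact_mod_cast h7
    refine h8.trans ?_
    calc ∑ j ∈ S v, (((R j).filter fun u => lab W u = lab W v).card : ℝ)
        ≤ ∑ _j ∈ S v, τ * ((univ.filter fun u => lab W u = lab W v).card : ℝ) := by
          apply Finset.sum_le_sum
          intro j hj
          exact (hZ j hj W hW2 (hW1 (mem_image_of_mem _ hj))).le
      _ = c * (τ * ((univ.filter fun u => lab W u = lab W v).card : ℝ)) := by
          rw [Finset.sum_const, nsmul_eq_mul, h1]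
      _ ≤ K0 * (τ * ((univ.filter fun u => lab W u = lab W v).card : ℝ)) := by
          apply mul_le_mul_of_nonneg_right _ (by positivity)
          exact_mod_cast hcK
      _ = (K0 * τ) * nb (lab W) univ (lab W v) := by
          rw [nb]; ring
  have hq0 : (0 : ℝ) < q := by
    have : 0 < q := by omega
    exact_mod_cast this
  have hq1 : (1 : ℝ) ≤ (q : ℝ) ^ c := by
    apply one_le_pow₀
    have : 1 ≤ q := by omega
    exact_mod_cast this
  have hHR : (1 : ℝ) ≤ H := by exact_mod_cast hH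
  have hnR : (1 : ℝ) ≤ n := by exact_mod_cast hn1
  -- the number of good variables
  have hcnt : cnt S c ≤ 2 * Gd.card := by
    have h1 : (univ.filter fun v => (S v).card = c) ⊆ Gd ∪ (realᶜ ∪ univ.biUnion Bad) := by
      intro v hv
      rw [mem_filter] at hv
      by_contra hcon
      simp only [mem_union, mem_compl, mem_biUnion, mem_univ, true_and, not_or, not_not,
        not_exists] at hcon
      apply hcon.1
      rw [hGd, mem_filter]
      exact ⟨mem_univ _, hv.2, hcon.2.1, hcon.2.2⟩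
    have h2 : cnt S c ≤ Gd.card + (realᶜ.card + ∑ j, (Bad j).card) := by
      refine (Finset.card_le_card h1).trans ((Finset.card_union_le _ _).trans ?_)
      exact Nat.add_le_add_left ((Finset.card_union_le _ _).trans
        (Nat.add_le_add_left Finset.card_biUnion_le _)) _
    have h2R : (cnt S c : ℝ) ≤ Gd.card + (realᶜ.card + ∑ j, ((Bad j).card : ℝ)) := by
      exact_mod_cast h2
    have h3 : (n : ℝ) ≤ H * cnt S c := by
      refine hn.trans ?_
      apply mul_le_mul_of_nonneg_left _ (by positivity)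
      exact div_le_self (by positivity) hq1
    have h4 : 4 * (H : ℝ) * (realᶜ.card : ℝ) ≤ n := by
      calc 4 * (H : ℝ) * (realᶜ.card : ℝ) ≤ L * (realᶜ.card : ℝ) := by
            apply mul_le_mul_of_nonneg_right _ (by positivity)
            exact_mod_cast hL4
        _ ≤ n := by exact_mod_cast hnr
    have h5 : 4 * (H : ℝ) * ∑ j, ((Bad j).card : ℝ) ≤ n := by
      calc 4 * (H : ℝ) * ∑ j, ((Bad j).card : ℝ) ≤ 4 * (H : ℝ) * ∑ j, ζ * ((R j).card : ℝ) := by
            apply mul_le_mul_of_nonneg_left _ (by positivity)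
            exact Finset.sum_le_sum fun j _ => hBadc j
        _ = 4 * H * ζ * ∑ j, ((R j).card : ℝ) := by rw [← Finset.mul_sum]; ring
        _ ≤ 4 * H * ζ * (k * n) := by
            apply mul_le_mul_of_nonneg_left _ (by positivity)
            have : ∑ j, (R j).card ≤ k * n := (Finset.sum_le_sum fun j _ => hRcard j).trans hsum
            exact_mod_cast this
        _ = (4 * H * k * ζ) * n := by ring
        _ ≤ 1 * n := mul_le_mul_of_nonneg_right hζ (by positivity)
        _ = n := one_mul _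
    have h6 : (cnt S c : ℝ) ≤ 2 * Gd.card := by
      have h7 : (4 * (H : ℝ)) * cnt S c ≤ (4 * (H : ℝ)) * Gd.card + (2 * (H : ℝ)) * cnt S c := by
        calc (4 * (H : ℝ)) * cnt S c ≤
            (4 * (H : ℝ)) * (Gd.card + (realᶜ.card + ∑ j, ((Bad j).card : ℝ))) :=
              mul_le_mul_of_nonneg_left h2R (by positivity)
          _ = (4 * (H : ℝ)) * Gd.card + (4 * (H : ℝ) * (realᶜ.card : ℝ) +
              4 * (H : ℝ) * ∑ j, ((Bad j).card : ℝ)) := by ring
          _ ≤ (4 * (H : ℝ)) * Gd.card + (2 * (H : ℝ)) * cnt S c := by linarith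
      have h8 : (2 * (H : ℝ)) * cnt S c ≤ (2 * (H : ℝ)) * (2 * Gd.card) := by linarith
      exact le_of_mul_le_mul_left h8 (by positivity)
    exact_mod_cast h6
  have hD : Nonempty (Fin D) := by
    by_contra hne
    rw [not_nonempty_iff] at hne
    have : Gd = ∅ := by
      rw [Finset.eq_empty_iff_forall_notMem]
      intro v hv
      obtain ⟨d, -⟩ := hW v hv
      exact hne.elim d
    rw [this, card_empty] at hcnt
    have h9 : cnt S c = 0 := by omega
    rw [h9] at hn
    simp at hn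
    omega
  choose! Wo hWo using hW
  refine Pool.Agent.W766.ZCross.main n r q c L t0 H lam (Fin D) (fun d => lab (e d).1) S Gd Wo
    (K0 * τ) hq hc1 hH hlam hn1 (by positivity) (fun v hv => (hGm v hv).1) hcnt hn hWo ?_ ?_ ?_
      |>.trans' ?_
  · intro v hv
    exact (hL (e (Wo v)).1 v (hGm v hv).2.1).1
  · rw [Fintype.card_fin]; exact hLt
  · rw [Fintype.card_fin]; exact hτ
  · rw [Fintype.card_fin]

end Pool.Agent.W902.Z
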