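import Pool.Agent.W902.Z.Stm
import Pool.Agent.H554R2.Rnd.Random

/-!
# Random colourings (after `Pool.Agent.H554R2.Rnd.random_T2`)
-/

set_option autoImplicit false

open Finset

namespace Pool.Agent.W902.Z

open Pool.Agent.H554R2.Sem Pool.Agent.H554R2.Coin Pool.Agent.H554R2.Lin Pool.Agent.H554R2.Rnd

theorem union8 {α : Type} [DecidableEq α] {s a b c d e f g h : Finset α}
    (hs : s ⊆ a ∪ (b ∪ (c ∪ (d ∪ (e ∪ (f ∪ (g ∪ h))))))) :
    (s.card : ℝ) ≤ a.card + (b.card + (c.card + (d.card + (e.card + (f.card +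
      (g.card + h.card)))))) := by
  have h1 := card_le_card hs
  have h2 := card_union_le a (b ∪ (c ∪ (d ∪ (e ∪ (f ∪ (g ∪ h))))))
  have h3 := card_union_le b (c ∪ (d ∪ (e ∪ (f ∪ (g ∪ h)))))
  have h4 := card_union_le c (d ∪ (e ∪ (f ∪ (g ∪ h))))
  have h5 := card_union_le d (e ∪ (f ∪ (g ∪ h)))
  have h6 := card_union_le e (f ∪ (g ∪ h))
  have h7 := card_union_le f (g ∪ h)
  have h8 := card_union_le g h
  have h9 : s.card ≤ a.card + (b.card + (c.card + (d.card + (e.card + (f.card +
      (g.card + h.card)))))) := by omega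
  exact_mod_cast h9

/-- most colourings are good -/
theorem random : TaskRandom := by
  intro n r q c lam hlam hq hc S E hE h1 h2 h3
  classical
  have hq0 : 0 < q := by omega
  have hlR : (1 : ℝ) ≤ lam := by exact_mod_cast hlam
  have hl0 : (0 : ℝ) < lam := by linarith
  have hw := R11_sum (r := r) (q := q) hc (fun t => (cnt S t : ℝ)) (fun t => Nat.cast_nonneg _)
    hq0 (lam * E) (by nlinarith) h1 h2
  have hE0 : 0 < E := by linarith
  have hLE : 0 < lam * E := by positivity
  obtain ⟨μ, hμ⟩ : ∃ μ : ℝ, μ = cnt S c / (q : ℝ) ^ c := ⟨_, rfl⟩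
  have hμ0 : 0 ≤ μ := by rw [hμ]; positivity
  obtain ⟨N, hN⟩ : ∃ N : ℝ, N = (q : ℝ) ^ r := ⟨_, rfl⟩
  have hN0 : 0 ≤ N := by rw [hN]; positivity
  -- the two colours
  have t0 : ∀ (T : Fin r → Fin q) j, T j = ⟨0, by omega⟩ ↔ (T j : ℕ) = 0 := fun T j => Fin.ext_iff
  have t1 : ∀ (T : Fin r → Fin q) j, T j = ⟨1, by omega⟩ ↔ (T j : ℕ) = 1 := fun T j => Fin.ext_iff
  have x0 : ∀ (T : Fin r → Fin q) j, kind T j = 0 ↔ T j = ⟨0, by omega⟩ := by
    intro T j
    rw [t0]
    unfold kind
    split_ifs with a b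
    · exact iff_of_true rfl a
    · exact iff_of_false (by decide) a
    · exact iff_of_false (by decide) a
  have x1 : ∀ (T : Fin r → Fin q) j, kind T j = 1 ↔ T j = ⟨1, by omega⟩ := by
    intro T j
    rw [t1]
    unfold kind
    split_ifs with a b
    · exact iff_of_false (by decide) (by omega)
    · exact iff_of_true rfl b
    · exact iff_of_false (by decide) b
  have y0 : ∀ (T : Fin r → Fin q) j, kind T j ≠ 2 ↔
      T j = ⟨0, by omega⟩ ∨ T j = ⟨1, by omega⟩ := by
    intro T j
    rw [t0, t1]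
    unfold kind
    split_ifs with a b
    · exact iff_of_true (by decide) (Or.inl a)
    · exact iff_of_true (by decide) (Or.inr b)
    · exact iff_of_false (fun h => h rfl) (fun h => h.elim a b)
  have y1 : ∀ (T : Fin r → Fin q) j, kind T j ≠ 2 ↔
      T j = ⟨1, by omega⟩ ∨ T j = ⟨0, by omega⟩ := fun T j => (y0 T j).trans or_comm
  -- moments
  have hm : 0 ≤ μ / (lam * E) := by positivity
  have s1 : ∑ t ∈ (range (r + 1)).erase c, (cnt S t : ℝ) / (q : ℝ) ^ t ≤ μ / (lam * E) := by
    rw [le_div_iff₀ hLE, mul_comm, hμ]; exact h1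
  have s2 : ∑ t ∈ (range (r + 1)).filter (fun t => c < t),
      (cnt S t : ℝ) * t.choose c / (q : ℝ) ^ t ≤ μ / (lam * E) := by
    rw [le_div_iff₀ hLE, mul_comm, hμ]
    refine le_trans (mul_le_mul_of_nonneg_left (sum_le_sum fun t _ => ?_) hLE.le) h2
    have h4 : ((t.choose c : ℕ) : ℝ) ≤ 2 ^ t := by exact_mod_cast Nat.choose_le_two_pow t c
    exact div_le_div_of_nonneg_right (mul_le_mul_of_nonneg_left h4 (Nat.cast_nonneg _))
      (by positivity)
  have s3 : ∑ j : Fin r, ((univ.filter (fun v => j ∈ S v)).card : ℝ) ^ 2 ≤ μ ^ 2 / (180 * lam) := by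
    rw [← hμ] at h3
    rw [le_div_iff₀ (by positivity)]
    linarith
  have A0 := v4_markov (fun T : Fin r → Fin q => (((core S (kind T) 0 c).card : ℝ) - μ) ^ 2)
    (fun T => sq_nonneg _) (m := μ ^ 2 / (180 * lam)) (k := 20 * lam) hN0 (by positivity) (by positivity) (by
      have := v4_var (c := c) S hq0 x0
      rw [← hμ, ← hN] at this
      exact this.trans (mul_le_mul_of_nonneg_left s3 hN0))
  have A1 := v4_markov (fun T : Fin r → Fin q => (((core S (kind T) 1 c).card : ℝ) - μ) ^ 2)
    (fun T => sq_nonneg _) (m := μ ^ 2 / (180 * lam)) (k := 20 * lam) hN0 (by positivity) (by positivity) (by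
      have := v4_var (c := c) S hq0 x1
      rw [← hμ, ← hN] at this
      exact this.trans (mul_le_mul_of_nonneg_left s3 hN0))
  have B0 := v4_markov (fun T : Fin r → Fin q =>
    ((hat S (kind T) 0 \ core S (kind T) 0 c).card : ℝ)) (fun T => Nat.cast_nonneg _)
    (m := μ / (lam * E)) (k := 12 * lam) hN0 hm (by positivity) (by
      have := v4_hat (c := c) S hq0 x0
      rw [← hN] at this
      exact this.trans (mul_le_mul_of_nonneg_left s1 hN0))
  have B1 := v4_markov (fun T : Fin r → Fin q =>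
    ((hat S (kind T) 1 \ core S (kind T) 1 c).card : ℝ)) (fun T => Nat.cast_nonneg _)
    (m := μ / (lam * E)) (k := 12 * lam) hN0 hm (by positivity) (by
      have := v4_hat (c := c) S hq0 x1
      rw [← hN] at this
      exact this.trans (mul_le_mul_of_nonneg_left s1 hN0))
  have C0 := v4_markov (fun T : Fin r → Fin q =>
    ((bar S (kind T) 0 c \ core S (kind T) 0 c).card : ℝ)) (fun T => Nat.cast_nonneg _)
    (m := μ / (lam * E)) (k := 12 * lam) hN0 hm (by positivity) (by
      have := v4_bar (c := c) S hq0 x0 y0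
      rw [← hN] at this
      exact this.trans (mul_le_mul_of_nonneg_left s2 hN0))
  have C1 := v4_markov (fun T : Fin r → Fin q =>
    ((bar S (kind T) 1 c \ core S (kind T) 1 c).card : ℝ)) (fun T => Nat.cast_nonneg _)
    (m := μ / (lam * E)) (k := 12 * lam) hN0 hm (by positivity) (by
      have := v4_bar (c := c) S hq0 x1 y1
      rw [← hN] at this
      exact this.trans (mul_le_mul_of_nonneg_left s2 hN0))
  rw [← hμ] at hw
  have hw0 : 0 ≤ 3 * 2 ^ c * μ := by positivity
  have D0 := v4_markov (fun T : Fin r → Fin q => ((wide S (kind T) 0).card : ℝ))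
    (fun T => Nat.cast_nonneg _) (m := 3 * 2 ^ c * μ) (k := 100 * lam) hN0 hw0 (by positivity) (by
      have := R11_wide S (e := 0) hq0 y0
      rw [← hN] at this
      exact this.trans (mul_le_mul_of_nonneg_left hw hN0))
  have D1 := v4_markov (fun T : Fin r → Fin q => ((wide S (kind T) 1).card : ℝ))
    (fun T => Nat.cast_nonneg _) (m := 3 * 2 ^ c * μ) (k := 100 * lam) hN0 hw0 (by positivity) (by
      have := R11_wide S (e := 1) hq0 y0
      rw [← hN] at this
      exact this.trans (mul_le_mul_of_nonneg_left hw hN0))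
  -- good or bad
  have hcover : (univ : Finset (Fin r → Fin q)) ⊆
      univ.filter (fun T => GoodT2 S (kind T) c E (300 * lam * 2 ^ c) μ) ∪
      (univ.filter (fun T => 100 * lam * (3 * 2 ^ c * μ) < ((wide S (kind T) 0).card : ℝ)) ∪
      (univ.filter (fun T => 100 * lam * (3 * 2 ^ c * μ) < ((wide S (kind T) 1).card : ℝ)) ∪
      (univ.filter (fun T => 20 * lam * (μ ^ 2 / (180 * lam)) < (((core S (kind T) 0 c).card : ℝ) - μ) ^ 2) ∪
      (univ.filter (fun T => 20 * lam * (μ ^ 2 / (180 * lam)) < (((core S (kind T) 1 c).card : ℝ) - μ) ^ 2) ∪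
      (univ.filter (fun T => 12 * lam * (μ / (lam * E)) <
        ((hat S (kind T) 0 \ core S (kind T) 0 c).card : ℝ)) ∪
      (univ.filter (fun T => 12 * lam * (μ / (lam * E)) <
        ((hat S (kind T) 1 \ core S (kind T) 1 c).card : ℝ)) ∪
      (univ.filter (fun T => 12 * lam * (μ / (lam * E)) <
        ((bar S (kind T) 0 c \ core S (kind T) 0 c).card : ℝ)) ∪
      univ.filter (fun T => 12 * lam * (μ / (lam * E)) <
        ((bar S (kind T) 1 c \ core S (kind T) 1 c).card : ℝ))))))))) := by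
    intro T _
    by_contra hcon
    simp only [mem_union, mem_filter, mem_univ, true_and, not_or, not_lt] at hcon
    obtain ⟨hg, w0, w1, a0, a1, b0, b1, c0, c1⟩ := hcon
    apply hg
    refine ⟨?_, by linarith, by linarith⟩
    have hsq : ∀ z : ℝ, (z - μ) ^ 2 ≤ 20 * lam * (μ ^ 2 / (180 * lam)) → 2 / 3 * μ ≤ z ∧ z ≤ 4 / 3 * μ := by
      intro z hz
      have h4 : (z - μ) ^ 2 ≤ (μ / 3) ^ 2 := by
        calc (z - μ) ^ 2 ≤ 20 * lam * (μ ^ 2 / (180 * lam)) := hz
          _ = (μ / 3) ^ 2 := by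
            field_simp
            ring
      have h5 := abs_le_of_sq_le_sq' h4 (by positivity)
      constructor <;> linarith [h5.1, h5.2]
    have hd : ∀ z : ℕ, (z : ℝ) ≤ 12 * lam * (μ / (lam * E)) → E * (z : ℝ) ≤ 12 * μ := by
      intro z hz
      calc E * (z : ℝ) ≤ E * (12 * lam * (μ / (lam * E))) := mul_le_mul_of_nonneg_left hz hE0.le
        _ = 12 * μ := by field_simp
    obtain ⟨D, hD⟩ : ∃ D : ℕ, D = max (max (hat S (kind T) 0 \ core S (kind T) 0 c).card
      (hat S (kind T) 1 \ core S (kind T) 1 c).card)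
      (max (bar S (kind T) 0 c \ core S (kind T) 0 c).card
        (bar S (kind T) 1 c \ core S (kind T) 1 c).card) := ⟨_, rfl⟩
    refine ⟨(core S (kind T) 0 c).card, (core S (kind T) 1 c).card, D,
      ⟨rfl, rfl, ?_, ?_, ?_, ?_⟩, (hsq _ a0).1, (hsq _ a0).2, (hsq _ a1).1, (hsq _ a1).2, ?_⟩
    · rw [hD]; exact (le_max_left _ _).trans (le_max_left _ _)
    · rw [hD]; exact (le_max_right _ _).trans (le_max_left _ _)
    · rw [hD]; exact (le_max_left _ _).trans (le_max_right _ _)
    · rw [hD]; exact (le_max_right _ _).trans (le_max_right _ _)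
    · rw [hD]
      rcases max_choice (max (hat S (kind T) 0 \ core S (kind T) 0 c).card
        (hat S (kind T) 1 \ core S (kind T) 1 c).card)
        (max (bar S (kind T) 0 c \ core S (kind T) 0 c).card
        (bar S (kind T) 1 c \ core S (kind T) 1 c).card) with h | h
      · rw [h]
        rcases max_choice (hat S (kind T) 0 \ core S (kind T) 0 c).card
          (hat S (kind T) 1 \ core S (kind T) 1 c).card with h' | h'
        · rw [h']; exact hd _ b0
        · rw [h']; exact hd _ b1
      · rw [h]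
        rcases max_choice (bar S (kind T) 0 c \ core S (kind T) 0 c).card
          (bar S (kind T) 1 c \ core S (kind T) 1 c).card with h' | h'
        · rw [h']; exact hd _ c0
        · rw [h']; exact hd _ c1
  obtain ⟨bad, hbad⟩ : ∃ bad : Finset (Fin r → Fin q), bad = univ.filter (fun T =>
    ¬ GoodT2 S (kind T) c E (300 * lam * 2 ^ c) μ) := ⟨_, rfl⟩
  have hsub : bad ⊆
      (univ.filter (fun T => 100 * lam * (3 * 2 ^ c * μ) < ((wide S (kind T) 0).card : ℝ)) ∪
      (univ.filter (fun T => 100 * lam * (3 * 2 ^ c * μ) < ((wide S (kind T) 1).card : ℝ)) ∪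
      (univ.filter (fun T => 20 * lam * (μ ^ 2 / (180 * lam)) <
        (((core S (kind T) 0 c).card : ℝ) - μ) ^ 2) ∪
      (univ.filter (fun T => 20 * lam * (μ ^ 2 / (180 * lam)) <
        (((core S (kind T) 1 c).card : ℝ) - μ) ^ 2) ∪
      (univ.filter (fun T => 12 * lam * (μ / (lam * E)) <
        ((hat S (kind T) 0 \ core S (kind T) 0 c).card : ℝ)) ∪
      (univ.filter (fun T => 12 * lam * (μ / (lam * E)) <
        ((hat S (kind T) 1 \ core S (kind T) 1 c).card : ℝ)) ∪
      (univ.filter (fun T => 12 * lam * (μ / (lam * E)) <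
        ((bar S (kind T) 0 c \ core S (kind T) 0 c).card : ℝ)) ∪
      univ.filter (fun T => 12 * lam * (μ / (lam * E)) <
        ((bar S (kind T) 1 c \ core S (kind T) 1 c).card : ℝ))))))))) := by
    intro T hT
    rw [hbad, mem_filter] at hT
    rcases mem_union.1 (hcover (mem_univ T)) with h | h
    · exact absurd (mem_filter.1 h).2 hT.2
    · exact h
  have h8 := union8 hsub
  have h9 := mul_le_mul_of_nonneg_left h8 hl0.le
  have hfin : 2 * lam * (bad.card : ℝ) ≤ N := by
    linarith
  rw [← hμ, Nat.card_eq_fintype_card, Fintype.card_subtype]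
  rw [hN, hbad] at hfin
  exact_mod_cast hfin

end Pool.Agent.W902.Z
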