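import Pool.Agent.W902.Z.Stm
import Pool.Agent.H554R2.Lin.Scales

/-!
# Scales (after `Pool.Agent.H554R2.Rnd.scales2`)
-/

set_option autoImplicit false

open Finset

namespace Pool.Agent.W902.Z

open Pool.Agent.H554R2.Sem Pool.Agent.H554R2.Coin Pool.Agent.H554R2.Lin Pool.Agent.H554R2.Rnd

/-- all scales but `2 k` are good -/
theorem scales : TaskScales := by
  intro k hk E I hE
  rcases Nat.eq_zero_or_pos I with hI0 | hI0
  · subst hI0
    exact ⟨3, 1, le_refl _, le_refl _, fun r n N _ _ _ _ =>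
      ⟨∅, by simp, fun i hi => absurd hi (Nat.not_lt_zero _)⟩⟩
  obtain ⟨ℓ, hℓ⟩ : ∃ ℓ : ℕ, ℓ = 2 ^ (2 * k + 6) * (8 * k * E) := ⟨_, rfl⟩
  have hkE : 1 ≤ k * E := Nat.one_le_iff_ne_zero.2 (by positivity)
  have hℓ3 : 3 ≤ ℓ := by
    have h1 : 2 ^ 6 ≤ 2 ^ (2 * k + 6) := Nat.pow_le_pow_right (by norm_num) (by omega)
    have h2 : 8 ≤ 8 * k * E := by rw [mul_assoc]; omega
    rw [hℓ]
    calc 3 ≤ 2 ^ 6 * 8 := by norm_num
      _ ≤ 2 ^ (2 * k + 6) * (8 * k * E) := Nat.mul_le_mul h1 h2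
  have hH : 4 ≤ 32 * E * k * ℓ ^ (4 * I * k) := by
    have h1 : 1 ≤ ℓ ^ (4 * I * k) := Nat.one_le_pow _ _ (by omega)
    calc 4 ≤ 32 * (k * E) * 1 := by omega
      _ ≤ 32 * (k * E) * ℓ ^ (4 * I * k) := Nat.mul_le_mul_left _ h1
      _ = 32 * E * k * ℓ ^ (4 * I * k) := by ring
  refine ⟨ℓ, 32 * E * k * ℓ ^ (4 * I * k), hℓ3, by omega, ?_⟩
  intro r n N hn hsum hsum2 hN00
  have hN0 : 32 * E * k * ℓ ^ (4 * I * k) * N 0 ≤ n := by
    rw [hN00, mul_zero]
    exact Nat.zero_le _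
  obtain ⟨t0, ht1, ht2, ht3, ht4⟩ := V3_freq k _ hk hH r n N hn hsum hsum2 hN0
  set L : ℝ := (ℓ : ℝ) with hL
  have hL2 : (2 : ℝ) ≤ L := by
    have : (3 : ℝ) ≤ L := by rw [hL]; exact_mod_cast hℓ3
    linarith
  have hL0 : 0 < L := by linarith
  have hL1 : 1 ≤ L := by linarith
  have hLbig : (2 : ℝ) ^ (2 * k + 6) * (8 * k * E) = L := by
    rw [hL, hℓ]; push_cast; ring
  have hkr : (1 : ℝ) ≤ k := by exact_mod_cast hk
  have hEr : (1 : ℝ) ≤ E := by exact_mod_cast hE
  have hnr : (0 : ℝ) < n := by exact_mod_cast hn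
  set J : Finset ℕ := (Finset.Icc 1 (2 * k)).filter (· ≤ r) with hJ
  have hmemJ : ∀ t, t ∈ J ↔ 1 ≤ t ∧ t ≤ 2 * k ∧ t ≤ r := by
    intro t
    rw [hJ, Finset.mem_filter, Finset.mem_Icc, and_assoc]
  have hJne : J.Nonempty := ⟨t0, (hmemJ t0).2 ⟨ht1, ht2, ht3⟩⟩
  have hmax : ∀ i : ℕ, ∃ c ∈ J, ∀ t ∈ J,
      (N t : ℝ) / (L ^ (2 * i)) ^ t ≤ (N c : ℝ) / (L ^ (2 * i)) ^ c := fun i =>
    Finset.exists_max_image J (fun t => (N t : ℝ) / (L ^ (2 * i)) ^ t) hJne
  choose c hcJ hcmax using hmax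
  have ht0N : (n : ℝ) / (8 * k) ≤ N t0 := by
    rw [div_le_iff₀ (by positivity)]
    have : (n : ℝ) ≤ 8 * k * N t0 := by exact_mod_cast ht4
    linarith
  have ht0pos : (0 : ℝ) < N t0 := lt_of_lt_of_le (by positivity) ht0N
  have hpos : ∀ i, 0 < (N (c i) : ℝ) / (L ^ (2 * i)) ^ (c i) := by
    intro i
    refine lt_of_lt_of_le ?_ (hcmax i t0 ((hmemJ t0).2 ⟨ht1, ht2, ht3⟩))
    positivity
  have hsplit : ∀ i t : ℕ, (N t : ℝ) / (L ^ (2 * (i + 1))) ^ t =
      (N t : ℝ) / (L ^ (2 * i)) ^ t / L ^ (2 * t) := by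
    intro i t
    rw [div_div]
    congr 1
    rw [← pow_mul, ← pow_mul, ← pow_add]
    congr 1
    ring
  have hdec : ∀ i, c (i + 1) ≤ c i := by
    intro i
    by_contra hlt
    push Not at hlt
    have h1 := hcmax i (c (i + 1)) (hcJ (i + 1))
    have h2 := hcmax (i + 1) (c i) (hcJ i)
    rw [hsplit, hsplit] at h2
    have h3 : (N (c (i + 1)) : ℝ) / (L ^ (2 * i)) ^ c (i + 1) / L ^ (2 * c (i + 1)) ≤
        (N (c i) : ℝ) / (L ^ (2 * i)) ^ c i / L ^ (2 * c (i + 1)) :=
      div_le_div_of_nonneg_right h1 (by positivity)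
    have h4 : (N (c i) : ℝ) / (L ^ (2 * i)) ^ c i / L ^ (2 * c (i + 1)) <
        (N (c i) : ℝ) / (L ^ (2 * i)) ^ c i / L ^ (2 * c i) := by
      apply div_lt_div_of_pos_left (hpos i) (by positivity)
      exact pow_lt_pow_right₀ (by linarith) (by omega)
    linarith
  have htel : ∀ I' : ℕ, ((range I').filter fun i => c (i + 1) ≠ c i).card + c I' ≤ c 0 := by
    intro I'
    induction I' with
    | zero => simp
    | succ I' ih =>
      rw [Finset.range_add_one, Finset.filter_insert]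
      have hd := hdec I'
      split_ifs with hne
      · have : ((insert I' ((range I').filter fun i => c (i + 1) ≠ c i)).card) ≤
          ((range I').filter fun i => c (i + 1) ≠ c i).card + 1 := Finset.card_insert_le _ _
        omega
      · omega
  refine ⟨(range I).filter fun i => c (i + 1) ≠ c i, ?_, ?_⟩
  · have h1 := htel I
    have h2 := ((hmemJ _).1 (hcJ 0)).2.1
    omega
  intro i hi hbad
  have hci : c (i + 1) = c i := by
    by_contra hne
    exact hbad (Finset.mem_filter.2 ⟨Finset.mem_range.2 hi, hne⟩)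
  obtain ⟨hc1, hc2, hc3⟩ := (hmemJ _).1 (hcJ i)
  have hm1 := hcmax i
  have hm2 := hcmax (i + 1)
  rw [hci] at hm2
  have hp := hpos i
  set cc := c i with hcc
  clear_value cc
  refine ⟨cc, hc1, hc2, hc3, ?_⟩
  set q : ℝ := L ^ (2 * i + 1) with hq
  set μ : ℝ := (N cc : ℝ) / q ^ cc with hμ
  have hq0 : 0 < q := by positivity
  have hqL : L ≤ q := by
    rw [hq, pow_succ]
    exact le_mul_of_one_le_left hL0.le (one_le_pow₀ hL1)
  have hqt : ∀ t : ℕ, q ^ t = (L ^ (2 * i)) ^ t * L ^ t := by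
    intro t
    rw [hq, pow_succ, mul_pow]
  have hqt2 : ∀ t : ℕ, (L ^ (2 * (i + 1))) ^ t = q ^ t * L ^ t := by
    intro t
    rw [hq, ← mul_pow]
    congr 1
  have hμpos : 0 < μ := by
    rw [hμ, hqt, ← div_div]
    positivity
  -- small `t`
  have hsmall : ∀ t ∈ J, t ≠ cc → (N t : ℝ) / q ^ t ≤ μ / L := by
    intro t ht hne
    rcases lt_or_gt_of_ne hne with h | h
    · -- `t < cc`
      have h1 := hm2 t ht
      rw [hqt2, hqt2, ← div_div, ← div_div] at h1
      have h2 : (N t : ℝ) / q ^ t ≤ μ / L ^ cc * L ^ t := by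
        rw [div_le_iff₀ (by positivity)] at h1
        exact h1
      refine h2.trans ?_
      obtain ⟨j, hj⟩ : ∃ j, cc = t + (j + 1) := ⟨cc - t - 1, by omega⟩
      have h3 : μ / L ^ cc * L ^ t = μ / (L ^ j * L) := by
        rw [hj, pow_add, pow_succ]
        field_simp
      rw [h3]
      apply div_le_div_of_nonneg_left hμpos.le hL0
      exact le_mul_of_one_le_left hL0.le (one_le_pow₀ hL1)
    · have h1 := hm1 t ht
      have h2 : (N t : ℝ) / q ^ t ≤ μ * L ^ cc / L ^ t := by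
        rw [hqt, ← div_div]
        apply div_le_div_of_nonneg_right _ (by positivity)
        refine h1.trans (le_of_eq ?_)
        rw [hμ, hqt]
        field_simp
      refine h2.trans ?_
      obtain ⟨j, hj⟩ : ∃ j, t = cc + (j + 1) := ⟨t - cc - 1, by omega⟩
      have h3 : μ * L ^ cc / L ^ t = μ / (L ^ j * L) := by
        rw [hj, pow_add, pow_succ]
        field_simp
      rw [h3]
      apply div_le_div_of_nonneg_left hμpos.le hL0
      exact le_mul_of_one_le_left hL0.le (one_le_pow₀ hL1)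
  -- lower bound for `μ`
  have hnμ : (n : ℝ) ≤ 8 * k * q ^ (2 * k) * μ := by
    have h1 := hm1 t0 ((hmemJ t0).2 ⟨ht1, ht2, ht3⟩)
    have h2 : (n : ℝ) / (8 * k) / (L ^ (2 * i)) ^ (2 * k) ≤ (N cc : ℝ) / (L ^ (2 * i)) ^ cc := by
      refine le_trans ?_ h1
      apply div_le_div₀ ht0pos.le ht0N (by positivity)
      exact pow_le_pow_right₀ (one_le_pow₀ hL1) ht2
    have h3 : μ = (N cc : ℝ) / (L ^ (2 * i)) ^ cc / L ^ cc := by rw [hμ, hqt, ← div_div]
    have h4 : (n : ℝ) / (8 * k) / (L ^ (2 * i)) ^ (2 * k) / L ^ (2 * k) ≤ μ := by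
      rw [h3]
      apply div_le_div₀ hp.le h2 (by positivity)
      exact pow_le_pow_right₀ hL1 hc2
    rw [div_div, div_div, div_le_iff₀ (by positivity)] at h4
    rw [hqt]
    calc (n : ℝ) ≤ μ * (8 * k * ((L ^ (2 * i)) ^ (2 * k) * L ^ (2 * k))) := h4
      _ = _ := by ring
  have hsumr : ∑ t ∈ range (r + 1), (N t : ℝ) = n := by
    rw [← hsum]; push_cast; rfl
  have hcardJ : (((range (r + 1)).filter fun t => 1 ≤ t ∧ t ≤ 2 * k).card : ℝ) ≤ 2 * k := by
    have : ((range (r + 1)).filter fun t => 1 ≤ t ∧ t ≤ 2 * k) ⊆ Finset.Icc 1 (2 * k) := by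
      intro t ht
      rw [Finset.mem_filter] at ht
      exact Finset.mem_Icc.2 ht.2
    have h5 := Finset.card_le_card this
    rw [Nat.card_Icc, Nat.add_sub_cancel] at h5
    exact_mod_cast h5
  have hsumJ : ∀ w : ℝ, 0 ≤ w →
      ∑ t ∈ range (r + 1), (if 1 ≤ t ∧ t ≤ 2 * k then w else 0) ≤ 2 * k * w := by
    intro w hw
    rw [← Finset.sum_filter, Finset.sum_const, nsmul_eq_mul]
    exact mul_le_mul_of_nonneg_right hcardJ hw
  have hqk : q ^ (2 * k) ≤ L ^ (4 * I * k) := by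
    rw [hq, ← pow_mul]
    apply pow_le_pow_right₀ hL1
    calc (2 * i + 1) * (2 * k) ≤ (2 * I) * (2 * k) := Nat.mul_le_mul_right _ (by omega)
      _ = 4 * I * k := by ring
  have hHr : ((32 * E * k * ℓ ^ (4 * I * k) : ℕ) : ℝ) = 32 * E * k * L ^ (4 * I * k) := by
    push_cast; rfl
  have hlast : (n : ℝ) ≤ ((32 * E * k * ℓ ^ (4 * I * k) : ℕ) : ℝ) / (4 * E) * μ := by
    rw [hHr]
    have e1 : (32 : ℝ) * E * k * L ^ (4 * I * k) / (4 * E) = 8 * k * L ^ (4 * I * k) := by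
      field_simp
      ring
    rw [e1]
    refine hnμ.trans ?_
    apply mul_le_mul_of_nonneg_right _ hμpos.le
    apply mul_le_mul_of_nonneg_left hqk (by positivity)
  have hHpos : (0 : ℝ) < ((32 * E * k * ℓ ^ (4 * I * k) : ℕ) : ℝ) := by
    rw [hHr]; positivity
  have hN0r : (N 0 : ℝ) ≤ μ / (4 * E) := by
    have h1 : ((32 * E * k * ℓ ^ (4 * I * k) : ℕ) : ℝ) * N 0 ≤ n := by exact_mod_cast hN0
    have h2 := h1.trans hlast
    have h3 : ((32 * E * k * ℓ ^ (4 * I * k) : ℕ) : ℝ) / (4 * E) * μ =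
        ((32 * E * k * ℓ ^ (4 * I * k) : ℕ) : ℝ) * (μ / (4 * E)) := by field_simp
    rw [h3] at h2
    exact le_of_mul_le_mul_left h2 hHpos
  have hnq : (n : ℝ) / q ^ (2 * k + 1) ≤ 8 * k * μ / L := by
    rw [div_le_div_iff₀ (by positivity) hL0, pow_succ]
    calc (n : ℝ) * L ≤ (8 * k * q ^ (2 * k) * μ) * q :=
          mul_le_mul hnμ hqL hL0.le (by positivity)
      _ = 8 * k * μ * (q ^ (2 * k) * q) := by ring
  have h2k : (1 : ℝ) ≤ 2 ^ (2 * k) := one_le_pow₀ (by norm_num)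
  have hLe : (64 : ℝ) * 2 ^ (2 * k) * (8 * k * E) = L := by
    rw [← hLbig, pow_add]; ring
  refine ⟨?_, ?_, ?_⟩
  · -- first sum
    have hb : ∀ t ∈ (range (r + 1)).erase cc, (N t : ℝ) / q ^ t ≤
        (if t = 0 then (N t : ℝ) else 0) + (if 1 ≤ t ∧ t ≤ 2 * k then μ / L else 0) +
          (N t : ℝ) / q ^ (2 * k + 1) := by
      intro t ht
      obtain ⟨hne, htr⟩ := Finset.mem_erase.1 ht
      rw [Finset.mem_range] at htr
      have hx : (0 : ℝ) ≤ (N t : ℝ) / q ^ (2 * k + 1) := by positivity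
      by_cases h0 : t = 0
      · rw [if_pos h0, if_neg (by omega), add_zero, h0, pow_zero, div_one]
        rw [h0] at hx
        linarith
      · by_cases h1 : t ≤ 2 * k
        · rw [if_neg h0, if_pos ⟨by omega, h1⟩, zero_add]
          have := hsmall t ((hmemJ t).2 ⟨by omega, h1, by omega⟩) hne
          linarith
        · rw [if_neg h0, if_neg (by omega), zero_add, zero_add]
          apply div_le_div_of_nonneg_left (Nat.cast_nonneg _) (by positivity)
          exact pow_le_pow_right₀ (by linarith) (by omega)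
    have hs : ∑ t ∈ (range (r + 1)).erase cc, (N t : ℝ) / q ^ t ≤
        N 0 + 2 * k * (μ / L) + n / q ^ (2 * k + 1) := by
      refine (Finset.sum_le_sum hb).trans ?_
      refine (Finset.sum_le_sum_of_subset_of_nonneg (Finset.erase_subset _ _) ?_).trans ?_
      · intro t _ _
        have : (0 : ℝ) ≤ (N t : ℝ) / q ^ (2 * k + 1) := by positivity
        have h5 : (0 : ℝ) ≤ if t = 0 then (N t : ℝ) else 0 := by split_ifs <;> positivity
        have h6 : (0 : ℝ) ≤ if 1 ≤ t ∧ t ≤ 2 * k then μ / L else 0 := by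
          split_ifs <;> positivity
        linarith
      · rw [Finset.sum_add_distrib, Finset.sum_add_distrib,
          Finset.sum_ite_eq' (range (r + 1)) 0 (fun t => (N t : ℝ)),
          if_pos (Finset.mem_range.2 (Nat.succ_pos r)), ← Finset.sum_div, hsumr]
        have := hsumJ (μ / L) (by positivity)
        linarith
    have hfin : (E : ℝ) * (N 0 + 2 * k * (μ / L) + n / q ^ (2 * k + 1)) ≤ μ := by
      have h5 : (E : ℝ) * (μ / (4 * E)) = μ / 4 := by field_simp
      have h6 : (E : ℝ) * (N 0 + 2 * k * (μ / L) + n / q ^ (2 * k + 1)) ≤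
          E * (μ / (4 * E) + 2 * k * (μ / L) + 8 * k * μ / L) := by
        apply mul_le_mul_of_nonneg_left _ (by linarith)
        linarith
      refine h6.trans ?_
      have h7 : (E : ℝ) * (μ / (4 * E) + 2 * k * (μ / L) + 8 * k * μ / L) =
          μ / 4 + 10 * (k * E) * μ / L := by
        rw [mul_add, mul_add, h5]
        ring
      rw [h7]
      have h8 : 10 * (k * E : ℝ) * μ / L ≤ μ / 2 := by
        rw [div_le_div_iff₀ hL0 (by norm_num), ← hLe]
        have h9 : (0 : ℝ) ≤ k * E * μ := by positivity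
        nlinarith [mul_le_mul_of_nonneg_left h2k h9]
      linarith
    exact (mul_le_mul_of_nonneg_left hs (by linarith)).trans hfin
  · -- second sum
    have hq2 : 2 / q ≤ 1 := by
      rw [div_le_one hq0]; linarith
    have hb : ∀ t ∈ (range (r + 1)).filter (fun t => cc < t),
        (N t : ℝ) * 2 ^ t / q ^ t ≤
        (if 1 ≤ t ∧ t ≤ 2 * k then 2 ^ (2 * k) * (μ / L) else 0) +
          (N t : ℝ) * (2 / q) ^ (2 * k + 1) := by
      intro t ht
      obtain ⟨htr, hct⟩ := Finset.mem_filter.1 ht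
      rw [Finset.mem_range] at htr
      have hx : (0 : ℝ) ≤ (N t : ℝ) * (2 / q) ^ (2 * k + 1) := by positivity
      by_cases h1 : t ≤ 2 * k
      · rw [if_pos ⟨by omega, h1⟩]
        have h3 := hsmall t ((hmemJ t).2 ⟨by omega, h1, by omega⟩) (by omega)
        have h4 : (2 : ℝ) ^ t ≤ 2 ^ (2 * k) := pow_le_pow_right₀ (by norm_num) h1
        have h5 : (N t : ℝ) * 2 ^ t / q ^ t = 2 ^ t * ((N t : ℝ) / q ^ t) := by ring
        rw [h5]
        have h6 : (2 : ℝ) ^ t * ((N t : ℝ) / q ^ t) ≤ 2 ^ (2 * k) * (μ / L) :=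
          mul_le_mul h4 h3 (by positivity) (by positivity)
        linarith
      · rw [if_neg (by omega), zero_add]
        rw [mul_div_assoc, ← div_pow]
        apply mul_le_mul_of_nonneg_left _ (Nat.cast_nonneg _)
        exact pow_le_pow_of_le_one (by positivity) hq2 (by omega)
    have hs : ∑ t ∈ (range (r + 1)).filter (fun t => cc < t),
        (N t : ℝ) * 2 ^ t / q ^ t ≤
        2 * k * (2 ^ (2 * k) * (μ / L)) + n * (2 / q) ^ (2 * k + 1) := by
      refine (Finset.sum_le_sum hb).trans ?_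
      refine (Finset.sum_le_sum_of_subset_of_nonneg (Finset.filter_subset _ _) ?_).trans ?_
      · intro t _ _
        have : (0 : ℝ) ≤ (N t : ℝ) * (2 / q) ^ (2 * k + 1) := by positivity
        have h6 : (0 : ℝ) ≤ if 1 ≤ t ∧ t ≤ 2 * k then 2 ^ (2 * k) * (μ / L) else 0 := by
          split_ifs <;> positivity
        linarith
      · rw [Finset.sum_add_distrib, ← Finset.sum_mul, hsumr]
        have := hsumJ (2 ^ (2 * k) * (μ / L)) (by positivity)
        linarith
    have hn2 : (n : ℝ) * (2 / q) ^ (2 * k + 1) ≤ 2 ^ (2 * k + 1) * (8 * k * μ / L) := by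
      rw [div_pow]
      have : (n : ℝ) * (2 ^ (2 * k + 1) / q ^ (2 * k + 1)) =
          2 ^ (2 * k + 1) * (n / q ^ (2 * k + 1)) := by ring
      rw [this]
      exact mul_le_mul_of_nonneg_left hnq (by positivity)
    have hfin : (E : ℝ) * (2 * k * (2 ^ (2 * k) * (μ / L)) +
        2 ^ (2 * k + 1) * (8 * k * μ / L)) ≤ μ := by
      have h7 : (E : ℝ) * (2 * k * (2 ^ (2 * k) * (μ / L)) + 2 ^ (2 * k + 1) * (8 * k * μ / L)) =
          18 * (k * E) * 2 ^ (2 * k) * μ / L := by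
        rw [pow_succ]
        ring
      rw [h7, div_le_iff₀ hL0]
      have h9 : (0 : ℝ) ≤ k * E * 2 ^ (2 * k) * μ := by positivity
      calc 18 * (k * E : ℝ) * 2 ^ (2 * k) * μ = 18 * (k * E * 2 ^ (2 * k) * μ) := by ring
        _ ≤ 512 * (k * E * 2 ^ (2 * k) * μ) := by linarith
        _ = μ * L := by rw [← hLe]; ring
    refine (mul_le_mul_of_nonneg_left (hs.trans ?_) (by linarith)).trans hfin
    linarith
  · refine hlast.trans ?_
    apply mul_le_mul_of_nonneg_right _ hμpos.le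
    apply div_le_self hHpos.le
    linarith

end Pool.Agent.W902.Z
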