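import Pool.Agent.W902.Z.Prune
import Pool.Agent.W902.Z.Comb
import Pool.Agent.W902.Part

/-!
# The partitions: for each set of variables of small density, most of its elements lie in few
elements of it per class, for all the partitions whose index contains some number `z`
-/

set_option autoImplicit false
set_option linter.unusedSectionVars false

open Finset

namespace Pool.Agent.W902.Z

open Pool.Agent.W902.Orb Pool.Agent.W902.Cross

/-- the orbit as a type -/
abbrev Vt {M : ℕ} [NeZero M] (hM : 3 ≤ M) (p s : ℕ) [Fact p.Prime] : Type :=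
  MulAction.orbit (Gr hM p s) (w0 M p s)

noncomputable instance {M : ℕ} [NeZero M] (hM : 3 ≤ M) (p s : ℕ) [Fact p.Prime] :
    Fintype (Vt hM p s) := (inferInstance : Fintype (Or hM p s))

theorem prune_orb {M : ℕ} [NeZero M] (hM : 3 ≤ M) {p s : ℕ} [Fact p.Prime] (hp : 16 ≤ p)
    (l : List (Finset (ZMod M))) (hl : ∀ i, ∃ W ∈ l, i ∈ W)
    (h : Vt hM p s → ℝ) (h0 : ∀ v, 0 ≤ h v) (h1 : ∀ v, h v ≤ 1) (θ : ℝ) (hθ : 0 ≤ θ)
    (hh : ∀ W ∈ l, ∀ v, 0 < h v → θ * (blk (κ hM (p := p) (s := s)) W v).card ≤ ∑ w ∈ blk (κ hM (p := p) (s := s)) W v, h w)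
    (hpos : ∃ v, 0 < h v) :
    θ ^ l.length ≤ (∑ v, h v) / Fintype.card (Vt hM p s) +
      16 * (M : ℝ) ^ 2 * l.length / Real.sqrt p := by
  have := prune_bound (G := Gr hM p s) (V := Vt hM p s) hp
    (Equiv.addRight (1 : ZMod M)) (κ hM (p := p) (s := s)) (ζ hM)
    (fun i a b => Subtype.ext (mv_add hM i a b)) (fun i a b => Subtype.ext (zt_add hM i a b))
    (fun i a c => Subtype.ext (zt_mv hM i a c)) (fun i b c => Subtype.ext (zt_mv' hM i b c))
    (fun i a b => Subtype.ext (mv_heis hM i a b))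
    (fun i j _ h1 h2 a b => Subtype.ext (mv_comm hM i j h1 h2 a b))
    (fun i => succ_ne hM i)
    (fun v w => by
      rw [H_top]
      obtain ⟨g, hg⟩ := MulAction.exists_smul_eq (Gr hM p s) v w
      exact ⟨g, Subgroup.mem_top _, hg⟩)
    l hl ⟨0⟩ h h0 h1 θ hθ hh hpos
  rw [ZMod.card] at this
  exact this

theorem blk_card_le {M : ℕ} [NeZero M] (hM : 3 ≤ M) {p s : ℕ} [Fact p.Prime]
    (W : Finset (ZMod M)) (z : ZMod M) (hz : z ∉ W) (v : Vt hM p s) :
    (blk (κ hM (p := p) (s := s)) W v).card ≤ (p ^ M) ^ M := by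
  refine le_trans ?_ (card_Inv z v.1)
  have h5 : (blk (κ hM (p := p) (s := s)) W v).card = Nat.card (blk (κ hM (p := p) (s := s)) W v : Finset (Vt hM p s)) := by
    rw [Nat.card_eq_fintype_card, Fintype.card_coe]
  rw [h5]
  have hmem : ∀ w : (blk (κ hM (p := p) (s := s)) W v : Finset (Vt hM p s)), w.1.1 ∈ Inv z v.1 := by
    rintro ⟨w, hw⟩
    obtain ⟨g, hg, rfl⟩ := mem_blk.1 hw
    exact Inv_smul hM _ _ _ hz g hg
  apply Nat.card_le_card_of_injective (fun w => (⟨w.1.1, hmem w⟩ : Inv _ _))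
  intro a b h
  have h6 := congrArg Subtype.val h
  exact Subtype.ext (Subtype.ext h6)

section lab

variable {M : ℕ} [NeZero M] (hM : 3 ≤ M) (p s : ℕ) [Fact p.Prime] (n : ℕ)

/-- the number of vectors -/
noncomputable def qv : ℕ := Fintype.card (Vt hM p s)

theorem qv_pos : 0 < qv hM p s := card_pos (p := p) (s := s) hM

/-- the vector of a variable -/
noncomputable def ph (i : Fin n) : Vt hM p s := (Fintype.equivFin (Vt hM p s)).symm
  ⟨(i : ℕ) % qv hM p s, Nat.mod_lt _ (qv_pos hM p s)⟩

/-- the variables in complete copies -/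
noncomputable def rl : Finset (Fin n) := univ.filter fun i => (i : ℕ) < n / qv hM p s * qv hM p s

theorem mem_rl {i : Fin n} : i ∈ rl hM p s n ↔ (i : ℕ) < n / qv hM p s * qv hM p s := by
  simp [rl]

theorem fib_rl (v : Vt hM p s) :
    ((rl hM p s n).filter fun i => ph hM p s n i = v).card = n / qv hM p s := by
  classical
  have hq := qv_pos hM p s
  set q := qv hM p s with hqd
  set b : ℕ := (Fintype.equivFin (Vt hM p s) v : ℕ) with hb
  have hbq : b < q := (Fintype.equivFin (Vt hM p s) v).2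
  have hkey : ∀ i : Fin n, ph hM p s n i = v ↔ (i : ℕ) % q = b := by
    intro i
    unfold ph
    rw [Equiv.symm_apply_eq, Fin.ext_iff]
  have hlt : ∀ a : Fin (n / q), (a : ℕ) * q + b < n := by
    intro a
    have h1 : ((a : ℕ) + 1) * q ≤ n / q * q := Nat.mul_le_mul_right _ a.2
    have h2 := Nat.div_mul_le_self n q
    nlinarith
  rw [← Fintype.card_fin (n / q), ← Finset.card_univ]
  symm
  apply Finset.card_bij (fun (a : Fin (n / q)) _ => (⟨(a : ℕ) * q + b, hlt a⟩ : Fin n))
  · intro a _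
    rw [mem_filter, mem_rl, hkey]
    constructor
    · show (a : ℕ) * q + b < n / q * q
      have h1 : ((a : ℕ) + 1) * q ≤ n / q * q := Nat.mul_le_mul_right _ a.2
      nlinarith
    · show ((a : ℕ) * q + b) % q = b
      rw [Nat.add_comm, Nat.add_mul_mod_self_right, Nat.mod_eq_of_lt hbq]
  · intro a _ a' _ h
    have h1 : (a : ℕ) * q + b = (a' : ℕ) * q + b := Fin.mk.inj_iff.1 h
    have h2 : (a : ℕ) * q = (a' : ℕ) * q := by omega
    exact Fin.ext (Nat.eq_of_mul_eq_mul_right hq h2)
  · intro i hi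
    rw [mem_filter, mem_rl, hkey] at hi
    refine ⟨⟨(i : ℕ) / q, ?_⟩, mem_univ _, ?_⟩
    · rw [Nat.div_lt_iff_lt_mul hq]
      exact hi.1
    · apply Fin.ext
      show (i : ℕ) / q * q + b = i
      rw [← hi.2]
      exact Nat.div_add_mod' _ _

/-- the relation -/
def rel (W : Finset (ZMod M)) (i j : Fin n) : Prop :=
  i = j ∨ (i ∈ rl hM p s n ∧ j ∈ rl hM p s n ∧ ph hM p s n j ∈ blk (κ hM (p := p) (s := s)) W (ph hM p s n i))

/-- the equivalence relation -/
def std (W : Finset (ZMod M)) : Setoid (Fin n) where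
  r := rel hM p s n W
  iseqv := by
    refine ⟨fun i => Or.inl rfl, ?_, ?_⟩
    · rintro i j (rfl | ⟨h1, h2, h3⟩)
      · exact Or.inl rfl
      · exact Or.inr ⟨h2, h1, mem_blk_comm.1 h3⟩
    · rintro i j k (rfl | ⟨h1, h2, h3⟩) (rfl | ⟨h4, h5, h6⟩)
      · exact Or.inl rfl
      · exact Or.inr ⟨h4, h5, h6⟩
      · exact Or.inr ⟨h1, h2, h3⟩
      · refine Or.inr ⟨h1, h5, ?_⟩
        rw [← blk_eq h3]
        exact h6

/-- the label -/
noncomputable def lb (W : Finset (ZMod M)) (i : Fin n) : Fin n :=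
  (Quotient.mk (std hM p s n W) i).out

theorem lb_eq {W : Finset (ZMod M)} {i j : Fin n} :
    lb hM p s n W i = lb hM p s n W j ↔ rel hM p s n W i j := by
  constructor
  · intro h
    have h1 : (Quotient.mk (std hM p s n W) i) = Quotient.mk (std hM p s n W) j := by
      rw [← Quotient.out_eq (Quotient.mk (std hM p s n W) i),
        ← Quotient.out_eq (Quotient.mk (std hM p s n W) j)]
      exact congrArg _ h
    exact Quotient.exact h1
  · intro h
    have h1 : (Quotient.mk (std hM p s n W) i) = Quotient.mk (std hM p s n W) j :=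
      Quotient.sound h
    unfold lb
    rw [h1]

theorem lb_real {W : Finset (ZMod M)} {i j : Fin n} (hi : i ∈ rl hM p s n) :
    lb hM p s n W j = lb hM p s n W i ↔
      j ∈ rl hM p s n ∧ ph hM p s n j ∈ blk (κ hM (p := p) (s := s)) W (ph hM p s n i) := by
  rw [eq_comm, lb_eq]
  constructor
  · rintro (rfl | ⟨_, h2, h3⟩)
    · exact ⟨hi, self_mem_blk _ _ _⟩
    · exact ⟨h2, h3⟩
  · rintro ⟨h2, h3⟩
    exact Or.inr ⟨hi, h2, h3⟩

theorem card_lb {W : Finset (ZMod M)} {i : Fin n} (hi : i ∈ rl hM p s n) :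
    (univ.filter fun j => lb hM p s n W j = lb hM p s n W i).card =
      n / qv hM p s * (blk (κ hM (p := p) (s := s)) W (ph hM p s n i)).card := by
  classical
  have e : (univ.filter fun j => lb hM p s n W j = lb hM p s n W i) =
      (rl hM p s n).filter fun j => ph hM p s n j ∈ blk (κ hM (p := p) (s := s)) W (ph hM p s n i) := by
    ext j
    rw [mem_filter, mem_filter, lb_real hM p s n hi]
    simp
  rw [e, Finset.card_eq_sum_card_fiberwise (f := ph hM p s n)
    (s := (rl hM p s n).filter fun j => ph hM p s n j ∈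
      blk (κ hM (p := p) (s := s)) W (ph hM p s n i))
    (t := blk (κ hM (p := p) (s := s)) W (ph hM p s n i))
    (fun j hj => Finset.mem_coe.2 (mem_filter.1 (Finset.mem_coe.1 hj)).2)]
  rw [Finset.sum_congr rfl (g := fun _ => n / qv hM p s), Finset.sum_const, smul_eq_mul, mul_comm]
  intro v hv
  rw [← fib_rl hM p s n v]
  congr 1
  ext j
  simp only [mem_filter]
  constructor
  · rintro ⟨⟨h1, _⟩, h3⟩
    exact ⟨h1, h3⟩
  · rintro ⟨h1, h3⟩
    exact ⟨⟨h1, by rw [h3]; exact hv⟩, h3⟩

end lab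

open Classical in
theorem sys (M K0 L : ℕ) [NeZero M] (hM : 3 ≤ M) (hL : 1 ≤ L) (ζ τ : ℝ) (hζ : 0 < ζ)
    (hτ : 0 < τ) : ∃ ρ B : ℕ, 0 < ρ ∧ ∀ n ≥ L, ∃ (real : Finset (Fin n))
      (lab : Finset (ZMod M) → Fin n → Fin n), L * realᶜ.card ≤ n ∧
      (∀ W W', W ⊆ W' → ∀ i j, lab W i = lab W j → lab W' i = lab W' j) ∧
      (∀ z b, (univ.filter fun i => lab (univ.erase z) i = b).card ≤ B) ∧
      (∀ W, ∀ i ∈ real, L ≤ (univ.filter fun j => lab W j = lab W i).card ∧
        ∀ j, lab W j = lab W i → j ∈ real) ∧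
      ∀ S ⊆ real, ρ * S.card ≤ n →
        ((S.filter fun y => ∀ z, ∃ W : Finset (ZMod M), W.card = K0 ∧ z ∈ W ∧
          τ * (univ.filter fun j => lab W j = lab W y).card ≤
            (S.filter fun j => lab W j = lab W y).card).card : ℝ) ≤ ζ * S.card := by
  obtain ⟨F, hF⟩ : ∃ F : ℕ, F = Fintype.card (Finset (Finset (ZMod M))) := ⟨_, rfl⟩
  have hF0 : 0 < F := by rw [hF]; exact Fintype.card_pos
  have hFR : (0 : ℝ) < F := by exact_mod_cast hF0
  obtain ⟨θ, hθ⟩ : ∃ θ : ℝ, θ = min 1 (ζ * τ / (F * 2 ^ M)) := ⟨_, rfl⟩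
  have hθ0 : 0 < θ := by rw [hθ]; exact lt_min one_pos (by positivity)
  have hθ1 : θ ≤ 1 := by rw [hθ]; exact min_le_left _ _
  have hθ2 : θ * (F * 2 ^ M) ≤ ζ * τ := by
    rw [← le_div_iff₀ (by positivity), hθ]
    exact min_le_right _ _
  obtain ⟨ε, hε⟩ : ∃ ε : ℝ, ε = θ ^ (2 ^ M) := ⟨_, rfl⟩
  have hε0 : 0 < ε := by rw [hε]; exact pow_pos hθ0 _
  obtain ⟨ρ, hρ⟩ := exists_nat_gt (8 / ε)
  obtain ⟨P0, hP0⟩ := exists_nat_gt ((64 * (M : ℝ) ^ 2 * 2 ^ M / ε) ^ 2)
  obtain ⟨p, hp1, hp2⟩ := Nat.exists_infinite_primes (max 16 P0)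
  have : Fact p.Prime := ⟨hp2⟩
  have hp16 : 16 ≤ p := (le_max_left _ _).trans hp1
  have hρR : (0 : ℝ) < ρ := lt_trans (by positivity) hρ
  have hρ0 : 0 < ρ := by exact_mod_cast hρR
  have hpε : 16 * (M : ℝ) ^ 2 * 2 ^ M / Real.sqrt p ≤ ε / 4 := by
    have h1 : (64 * (M : ℝ) ^ 2 * 2 ^ M / ε) ≤ Real.sqrt p := by
      apply Real.le_sqrt_of_sq_le
      refine hP0.le.trans ?_
      exact_mod_cast (le_max_right _ _).trans hp1
    have h2 : 0 < Real.sqrt p := by
      apply Real.sqrt_pos.2
      exact_mod_cast hp2.pos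
    rw [div_le_iff₀ hε0] at h1
    rw [div_le_iff₀ h2]
    linarith
  refine ⟨ρ, 2 * L * p ^ M * (p ^ M) ^ M + 1, hρ0, ?_⟩
  intro n hn
  have hnL : 1 ≤ n / L := (Nat.one_le_div_iff (by omega)).2 hn
  obtain ⟨s, hs1, hs2⟩ := exists_size (p := p) hM (n / L) hnL
  have hs1' : qv hM p s ≤ n / L := hs1
  have hs2' : n / L ≤ p ^ M * qv hM p s := hs2
  obtain ⟨q, hq⟩ : ∃ q, q = qv hM p s := ⟨_, rfl⟩
  have hq0 : 0 < q := by rw [hq]; exact qv_pos hM p s
  rw [← hq] at hs1' hs2'
  obtain ⟨c, hc⟩ : ∃ c, c = n / q := ⟨_, rfl⟩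
  have hLc : L ≤ c := by
    rw [hc, Nat.le_div_iff_mul_le hq0]
    calc L * q ≤ L * (n / L) := Nat.mul_le_mul_left _ hs1'
      _ ≤ n := Nat.mul_div_le n L
  have hcU : c ≤ 2 * L * p ^ M := by
    rw [hc]
    apply Nat.div_le_of_le_mul
    have h1 := Nat.lt_div_mul_add (a := n) (b := L) (by omega)
    calc n ≤ n / L * L + L := h1.le
      _ ≤ 2 * (n / L) * L := by nlinarith
      _ ≤ 2 * (p ^ M * q) * L := Nat.mul_le_mul_right _ (Nat.mul_le_mul_left _ hs2')
      _ = q * (2 * L * p ^ M) := by ring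
  have hcq : n < 2 * (c * q) := by
    have h1 := Nat.lt_div_mul_add (a := n) (b := q) hq0
    rw [← hc] at h1
    have : 1 * q ≤ c * q := Nat.mul_le_mul_right _ (by omega)
    omega
  refine ⟨rl hM p s n, lb hM p s n, ?_, ?_, ?_, ?_, ?_⟩
  · -- the other variables
    have h1 : ((rl hM p s n)ᶜ).card ≤ q := by
      rw [← Finset.card_range q]
      apply Finset.card_le_card_of_injOn (fun i : Fin n => (i : ℕ) - c * q)
      · intro i hi
        rw [mem_coe, mem_compl, mem_rl, ← hq, ← hc, not_lt] at hi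
        rw [mem_coe, mem_range]
        have h1 := Nat.lt_div_mul_add (a := n) (b := q) hq0
        rw [← hc] at h1
        have := i.2
        show (i : ℕ) - c * q < q
        omega
      · intro i hi j hj h
        rw [mem_coe, mem_compl, mem_rl, ← hq, ← hc, not_lt] at hi hj
        have h' : (i : ℕ) - c * q = (j : ℕ) - c * q := h
        apply Fin.ext
        omega
    calc L * ((rl hM p s n)ᶜ).card ≤ L * (n / L) := Nat.mul_le_mul_left _ (h1.trans hs1')
      _ ≤ n := Nat.mul_div_le n L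
  · intro W W' hW i j h
    rw [lb_eq] at h ⊢
    rcases h with h | ⟨h1, h2, h3⟩
    · exact Or.inl h
    · obtain ⟨g, hg, e⟩ := mem_blk.1 h3
      exact Or.inr ⟨h1, h2, mem_blk.2 ⟨g, H_mono _ hW hg, e⟩⟩
  · intro z b
    rcases (univ.filter fun i => lb hM p s n (univ.erase z) i = b).eq_empty_or_nonempty with
      h0 | ⟨i0, hi0⟩
    · rw [h0]; simp
    rw [mem_filter] at hi0
    by_cases hr : i0 ∈ rl hM p s n
    · have h1 : (univ.filter fun i => lb hM p s n (univ.erase z) i = b).card = c *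
          (blk (κ hM (p := p) (s := s)) (univ.erase z) (ph hM p s n i0)).card := by
        rw [← hi0.2, card_lb hM p s n hr, ← hq, ← hc]
      rw [h1]
      have h2 := blk_card_le hM (univ.erase z) z (Finset.notMem_erase _ _) (ph hM p s n i0)
      have h3 := Nat.mul_le_mul hcU h2
      omega
    · have h1 : (univ.filter fun i => lb hM p s n (univ.erase z) i = b) ⊆ {i0} := by
        intro i hi
        rw [mem_filter] at hi
        have h2 : lb hM p s n (univ.erase z) i0 = lb hM p s n (univ.erase z) i := by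
          rw [hi0.2, hi.2]
        rw [lb_eq] at h2
        rcases h2 with h | ⟨h, _⟩
        · rw [h]; exact mem_singleton_self _
        · exact absurd h hr
      have h2 := Finset.card_le_card h1
      rw [Finset.card_singleton] at h2
      omega
  · intro W i hi
    refine ⟨?_, fun j hj => ((lb_real hM p s n hi).1 hj).1⟩
    rw [card_lb hM p s n hi, ← hq, ← hc]
    have := blk_card_pos (κ hM (p := p) (s := s)) W (ph hM p s n i)
    exact hLc.trans (Nat.le_mul_of_pos_right _ this)
  · intro S hS hSn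
    by_contra hcon
    push Not at hcon
    obtain ⟨Bd, hBd⟩ : ∃ Bd : Finset (Fin n), Bd = (S.filter fun y => ∀ z,
      ∃ W : Finset (ZMod M), W.card = K0 ∧ z ∈ W ∧
          τ * (univ.filter fun j => lb hM p s n W j = lb hM p s n W y).card ≤
            (S.filter fun j => lb hM p s n W j = lb hM p s n W y).card) := ⟨_, rfl⟩
    rw [← hBd] at hcon
    -- the families
    let Gf : Fin n → Finset (Finset (ZMod M)) := fun y => univ.filter fun W =>
      τ * (univ.filter fun j => lb hM p s n W j = lb hM p s n W y).card ≤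
            (S.filter fun j => lb hM p s n W j = lb hM p s n W y).card
    obtain ⟨Gs, hGs⟩ : ∃ Gs, Bd.card ≤ F * (Bd.filter fun y => Gf y = Gs).card := by
      by_contra h
      push Not at h
      have h1 := Finset.card_eq_sum_card_fiberwise (f := Gf) (s := Bd) (t := univ)
        fun x _ => Finset.mem_coe.2 (Finset.mem_univ _)
      have h2 : ∑ Gs : Finset (Finset (ZMod M)), F * (Bd.filter fun y => Gf y = Gs).card <
          ∑ _Gs : Finset (Finset (ZMod M)), Bd.card :=
        Finset.sum_lt_sum_of_nonempty Finset.univ_nonempty fun Gs _ => h Gs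
      rw [← Finset.mul_sum, ← h1, Finset.sum_const, Finset.card_univ, smul_eq_mul, ← hF] at h2
      exact lt_irrefl _ h2
    set Y0 := Bd.filter fun y => Gf y = Gs with hY0
    have hGsc : (Gs.card : ℝ) ≤ 2 ^ M := by
      have h1 := Finset.card_le_univ Gs
      rw [Fintype.card_finset, ZMod.card] at h1
      exact_mod_cast h1
    have hGsR : (Bd.card : ℝ) ≤ F * Y0.card := by exact_mod_cast hGs
    have hbig : θ * Gs.card * S.card < τ * Y0.card := by
      have h1 : ζ * S.card < F * Y0.card := lt_of_lt_of_le hcon hGsR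
      have h2 : θ * Gs.card * S.card * F ≤ τ * (ζ * S.card) := by
        have h3 : θ * Gs.card * F ≤ ζ * τ := by
          refine le_trans ?_ hθ2
          calc θ * Gs.card * F = θ * (F * Gs.card) := by ring
            _ ≤ θ * (F * 2 ^ M) := by
              apply mul_le_mul_of_nonneg_left _ hθ0.le
              exact mul_le_mul_of_nonneg_left hGsc hFR.le
        calc θ * Gs.card * S.card * F = (θ * Gs.card * F) * S.card := by ring
          _ ≤ (ζ * τ) * S.card := mul_le_mul_of_nonneg_right h3 (Nat.cast_nonneg _)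
          _ = τ * (ζ * S.card) := by ring
      have h3 : τ * (ζ * S.card) < τ * (F * Y0.card) := mul_lt_mul_of_pos_left h1 hτ
      have h4 : θ * Gs.card * S.card * F < (τ * Y0.card) * F := by
        calc _ ≤ _ := h2
          _ < _ := h3
          _ = _ := by ring
      exact lt_of_mul_lt_mul_right h4 hFR.le
    obtain ⟨Y, hYY0, ⟨y1, hy1⟩, hYd⟩ := prune_comb (fun W => lb hM p s n W) Gs S Y0 τ θ hτ hθ0.le
      (by
        intro W hW y hy
        have h1 := (mem_filter.1 hy).2
        rw [← h1] at hW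
        exact (mem_filter.1 hW).2) hbig
    have hYS : Y ⊆ S := hYY0.trans ((Finset.filter_subset _ _).trans (by
      rw [hBd]; exact Finset.filter_subset _ _))
    have hYr : Y ⊆ rl hM p s n := hYS.trans hS
    have hcov : ∀ z, ∃ W ∈ Gs.toList, z ∈ W := by
      intro z
      have h1 := hYY0 hy1
      have h2 := (mem_filter.1 h1).2
      have h3 := (mem_filter.1 h1).1
      rw [hBd, mem_filter] at h3
      obtain ⟨W, _, h5, h6⟩ := h3.2 z
      refine ⟨W, ?_, h5⟩
      rw [Finset.mem_toList, ← h2]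
      exact mem_filter.2 ⟨mem_univ _, h6⟩
    have hc0 : (0 : ℝ) < c := by
      have : 0 < c := by omega
      exact_mod_cast this
    -- the density
    let h : Vt hM p s → ℝ := fun v => ((Y.filter fun y => ph hM p s n y = v).card : ℝ) / c
    have hsum : ∀ X : Finset (Vt hM p s), ∑ v ∈ X, h v =
        ((Y.filter fun y => ph hM p s n y ∈ X).card : ℝ) / c := by
      intro X
      show ∑ v ∈ X, ((Y.filter fun y => ph hM p s n y = v).card : ℝ) / c = _
      rw [← Finset.sum_div]
      congr 1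
      rw [Finset.card_eq_sum_card_fiberwise (f := ph hM p s n)
        (s := Y.filter fun y => ph hM p s n y ∈ X) (t := X)
        (fun j hj => Finset.mem_coe.2 (mem_filter.1 (Finset.mem_coe.1 hj)).2)]
      push_cast
      apply Finset.sum_congr rfl
      intro v hv
      congr 2
      ext j
      simp only [mem_filter]
      constructor
      · rintro ⟨h1, h3⟩
        exact ⟨⟨h1, by rw [h3]; exact hv⟩, h3⟩
      · rintro ⟨⟨h1, _⟩, h3⟩
        exact ⟨h1, h3⟩
    have hp := prune_orb hM hp16 Gs.toList hcov h (fun v => by positivity) (by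
      intro v
      rw [div_le_one hc0]
      have h1 : (Y.filter fun y => ph hM p s n y = v).card ≤ c := by
        rw [hc, hq, ← fib_rl hM p s n v]
        exact Finset.card_le_card (Finset.filter_subset_filter _ hYr)
      exact_mod_cast h1) θ hθ0.le (by
      intro W hW v hv
      rw [Finset.mem_toList] at hW
      obtain ⟨y, hy⟩ : (Y.filter fun y => ph hM p s n y = v).Nonempty := by
        rw [← Finset.card_pos]
        by_contra h0
        have h1 : (Y.filter fun y => ph hM p s n y = v).card = 0 := by omega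
        have h2 : h v = 0 := by
          show ((Y.filter fun y => ph hM p s n y = v).card : ℝ) / c = 0
          rw [h1]; simp
        rw [h2] at hv
        exact lt_irrefl _ hv
      rw [mem_filter] at hy
      have hyr := hYr hy.1
      have h1 := hYd W hW y hy.1
      rw [card_lb hM p s n hyr, hy.2, ← hq, ← hc] at h1
      rw [hsum, le_div_iff₀ hc0]
      have h2 : (Y.filter fun j => lb hM p s n W j = lb hM p s n W y) =
          Y.filter fun j => ph hM p s n j ∈ blk (κ hM (p := p) (s := s)) W v := by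
        apply Finset.filter_congr
        intro j hj
        rw [lb_real hM p s n hyr, hy.2]
        exact ⟨fun h => h.2, fun h => ⟨hYr hj, h⟩⟩
      rw [h2] at h1
      push_cast at h1
      calc θ * ((blk (κ hM (p := p) (s := s)) W v).card : ℝ) * c = θ * (c * (blk (κ hM (p := p) (s := s)) W v).card) := by ring
        _ ≤ _ := h1) (by
      refine ⟨ph hM p s n y1, ?_⟩
      apply div_pos _ hc0
      have : 0 < (Y.filter fun y => ph hM p s n y = ph hM p s n y1).card :=
        Finset.card_pos.2 ⟨y1, mem_filter.2 ⟨hy1, rfl⟩⟩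
      exact_mod_cast this)
    rw [hsum] at hp
    have e1 : (Y.filter fun y => ph hM p s n y ∈ univ) = Y := by simp
    have e2 : (Fintype.card (Vt hM p s) : ℝ) = q := by rw [hq]; rfl
    rw [e1, e2, Finset.length_toList] at hp
    have hq0' : (0 : ℝ) < q := by exact_mod_cast hq0
    have g1 : ε ≤ θ ^ Gs.card := by
      rw [hε]
      apply pow_le_pow_of_le_one hθ0.le hθ1
      have h1 := Finset.card_le_univ Gs
      rw [Fintype.card_finset, ZMod.card] at h1
      exact h1
    have g2 : (Y.card : ℝ) / c / q ≤ ε / 4 := by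
      rw [div_div, div_le_iff₀ (by positivity)]
      have h1 : (Y.card : ℝ) ≤ S.card := by exact_mod_cast Finset.card_le_card hYS
      have h2 : (ρ : ℝ) * S.card ≤ n := by exact_mod_cast hSn
      have h3 : (n : ℝ) ≤ 2 * (c * q) := by exact_mod_cast hcq.le
      have h4 : 8 ≤ ε * ρ := by
        rw [div_lt_iff₀ hε0] at hρ
        linarith
      have h5 : (0 : ℝ) ≤ S.card := Nat.cast_nonneg _
      have h6 : 8 * (S.card : ℝ) ≤ ε * (2 * (c * q)) := by
        calc 8 * (S.card : ℝ) ≤ (ε * ρ) * S.card := mul_le_mul_of_nonneg_right h4 h5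
          _ = ε * (ρ * S.card) := by ring
          _ ≤ ε * (2 * (c * q)) := mul_le_mul_of_nonneg_left (h2.trans h3) hε0.le
      linarith
    have g3 : 16 * (M : ℝ) ^ 2 * Gs.card / Real.sqrt p ≤ ε / 4 := by
      refine le_trans ?_ hpε
      apply div_le_div_of_nonneg_right _ (Real.sqrt_nonneg _)
      exact mul_le_mul_of_nonneg_left hGsc (by positivity)
    linarith

end Pool.Agent.W902.Z
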