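import Pool.Agent.W902.Z.Bad
import Pool.Agent.W902.Z.CrossX
import Pool.Agent.W902.Z.Scales
import Pool.Agent.W902.Z.RandT
import Pool.Agent.W902.Z.Sys

/-!
# Most inputs are in large classes with crossing feet
-/

set_option autoImplicit false

open Finset

namespace Pool.Agent.W902.Z

open Pool.Agent.H554R2.Sem Pool.Agent.H554R2.Coin Pool.Agent.H554R2.Lin Pool.Agent.H554R2.Rnd

open Classical in
/-- all numbers of reads -/
theorem bad_all {n r s : ℕ} (B : Blk n r s) (hB : AllRead B) (T : Fin r → Fin 3)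
    (k E H q lam κ : ℕ) (hlam : 1 ≤ lam) (hκ : 1 ≤ κ) (hE : 1 ≤ E) (hH : 1 ≤ H)
    (hch : ∀ N d m : ℕ, N ≤ (450 * lam * 4 ^ k + 3) * m → E * d ≤ 18 * m →
      ((∑ i ∈ range (d + 1), N.choose i : ℕ) : ℝ) ≤ (2 : ℝ) ^ ((m : ℝ) / (4 * κ : ℕ)))
    (K' : Finset (Pt n)) (hK : K' ⊆ B.K)
    (hg : ∀ x ∈ K', ∃ c : ℕ, c ≤ 2 * k ∧ (n : ℝ) ≤ H * (cnt (B.S x) c / (q : ℝ) ^ c) ∧
      GoodT2 (B.S x) T c E (300 * lam * 2 ^ c) (cnt (B.S x) c / (q : ℝ) ^ c)) :
    ((K'.filter (fun x => ¬ Lk κ (2 * H) B T x)).card : ℝ) ≤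
      (2 * k + 1) * (((n : ℝ) + 1) ^ 3 * (4 * 2 ^ n * (2 : ℝ) ^ (-((n : ℝ) / (3 * κ * H))))) := by
  obtain ⟨Kc, hKc⟩ : ∃ Kc : ℕ → Finset (Pt n), Kc = fun c => K'.filter fun x =>
    (n : ℝ) ≤ H * (cnt (B.S x) c / (q : ℝ) ^ c) ∧
      GoodT2 (B.S x) T c E (300 * lam * 2 ^ c) (cnt (B.S x) c / (q : ℝ) ^ c) := ⟨_, rfl⟩
  have hm : ∀ c, ∀ x ∈ Kc c, x ∈ K' ∧ (n : ℝ) ≤ H * (cnt (B.S x) c / (q : ℝ) ^ c) ∧
      GoodT2 (B.S x) T c E (300 * lam * 2 ^ c) (cnt (B.S x) c / (q : ℝ) ^ c) := by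
    intro c x hx
    rw [hKc] at hx
    exact mem_filter.1 hx
  have h1 : K'.filter (fun x => ¬ Lk κ (2 * H) B T x) ⊆
      (range (2 * k + 1)).biUnion fun c => (Kc c).filter (fun x => ¬ Lk κ (2 * H) B T x) := by
    intro x hx
    rw [mem_filter] at hx
    obtain ⟨c, hc, h2, h3⟩ := hg x hx.1
    rw [mem_biUnion]
    refine ⟨c, mem_range.2 (by omega), mem_filter.2 ⟨?_, hx.2⟩⟩
    rw [hKc]
    exact mem_filter.2 ⟨hx.1, h2, h3⟩
  have h2 := (Finset.card_le_card h1).trans Finset.card_biUnion_le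
  have h3 : ((K'.filter (fun x => ¬ Lk κ (2 * H) B T x)).card : ℝ) ≤
      ∑ c ∈ range (2 * k + 1), (((Kc c).filter (fun x => ¬ Lk κ (2 * H) B T x)).card : ℝ) := by
    exact_mod_cast h2
  refine h3.trans ?_
  calc ∑ c ∈ range (2 * k + 1), (((Kc c).filter (fun x => ¬ Lk κ (2 * H) B T x)).card : ℝ)
      ≤ ∑ _c ∈ range (2 * k + 1),
        (((n : ℝ) + 1) ^ 3 * (4 * 2 ^ n * (2 : ℝ) ^ (-((n : ℝ) / (3 * κ * H))))) := by
        apply Finset.sum_le_sum
        intro c hc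
        rw [mem_range] at hc
        exact bad_c B hB T k c E H q lam κ hlam hκ hE hH (by omega) hch (Kc c)
          (fun x hx => hK (hm c x hx).1) (fun x hx => (hm c x hx).2.1) (fun x hx => (hm c x hx).2.2)
    _ = _ := by
        rw [Finset.sum_const, card_range, nsmul_eq_mul]
        push_cast
        ring

/-- large numbers -/
theorem large (k κ H : ℕ) (hκ : 1 ≤ κ) (hH : 1 ≤ H) : ∃ N : ℕ, 0 < N ∧ ∀ n ≥ N,
    ((2 * k + 1) * (((n : ℝ) + 1) ^ 3 * (4 * 2 ^ n * (2 : ℝ) ^ (-((n : ℝ) / (3 * κ * H)))))) *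
      (2 : ℝ) ^ (n / N) ≤ 2 ^ n := by
  obtain ⟨N, hN, h⟩ := R13_large (k + 1) (κ * H) (Nat.mul_pos hκ hH)
  refine ⟨N, hN, fun n hn => (h n hn).trans' ?_⟩
  apply mul_le_mul_of_nonneg_right _ (by positivity)
  have hκR : (1 : ℝ) ≤ κ := by exact_mod_cast hκ
  have hHR : (1 : ℝ) ≤ H := by exact_mod_cast hH
  have h1 : (2 * (k : ℝ) + 1) ≤ 8 * ((k + 1 : ℕ) : ℝ) ^ 2 := by
    push_cast
    have : (0 : ℝ) ≤ k := Nat.cast_nonneg _
    nlinarith
  apply mul_le_mul h1 _ (by positivity) (by positivity)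
  apply mul_le_mul_of_nonneg_left _ (by positivity)
  apply mul_le_mul_of_nonneg_left _ (by positivity)
  apply Real.rpow_le_rpow_of_exponent_le (by norm_num)
  apply neg_le_neg
  apply div_le_div_of_nonneg_left (by positivity) (by positivity)
  push_cast
  have : (0 : ℝ) ≤ (κ : ℝ) * H := by positivity
  nlinarith

/-- averaging over the scales -/
theorem avg_scale {α : Type} (K : Finset α) (I k : ℕ) (hI : 1 ≤ I) (bad : α → Finset ℕ)
    (hb : ∀ x ∈ K, (bad x).card ≤ k) : ∃ i < I, I * (K.filter fun x => i ∈ bad x).card ≤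
      k * K.card := by
  by_contra hcon
  push Not at hcon
  have h1 : ∑ i ∈ range I, (K.filter fun x => i ∈ bad x).card ≤ k * K.card := by
    simp_rw [Finset.card_filter]
    rw [Finset.sum_comm]
    calc ∑ x ∈ K, ∑ i ∈ range I, (if i ∈ bad x then 1 else 0) ≤ ∑ _x ∈ K, k := by
          apply Finset.sum_le_sum
          intro x hx
          rw [← Finset.card_filter]
          refine (Finset.card_le_card ?_).trans (hb x hx)
          intro i hi
          exact (mem_filter.1 hi).2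
      _ = k * K.card := by rw [Finset.sum_const, smul_eq_mul, mul_comm]
  have h2 : ∑ _i ∈ range I, k * K.card < ∑ i ∈ range I, I * (K.filter fun x => i ∈ bad x).card := by
    apply Finset.sum_lt_sum_of_nonempty
    · rw [nonempty_range_iff]; omega
    · intro i hi
      exact hcon i (mem_range.1 hi)
  rw [Finset.sum_const, card_range, smul_eq_mul, ← Finset.mul_sum] at h2
  exact absurd (Nat.mul_le_mul_left I h1) (not_le.2 h2)

open Classical in
/-- averaging over the colourings -/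
theorem avg_col {α τ : Type} [Fintype τ] [Nonempty τ] (K : Finset α) (P : α → τ → Prop) (lam : ℕ)
    (h : ∀ x ∈ K, lam * Nat.card {t // ¬ P x t} ≤ Fintype.card τ) :
    ∃ t, lam * (K.filter fun x => ¬ P x t).card ≤ K.card := by
  by_contra hcon
  push Not at hcon
  have h1 : lam * ∑ t : τ, (K.filter fun x => ¬ P x t).card ≤ Fintype.card τ * K.card := by
    simp_rw [Finset.card_filter]
    rw [Finset.sum_comm, Finset.mul_sum]
    calc ∑ x ∈ K, lam * ∑ t : τ, (if ¬ P x t then 1 else 0) ≤ ∑ _x ∈ K, Fintype.card τ := by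
          apply Finset.sum_le_sum
          intro x hx
          rw [← Finset.card_filter]
          refine le_trans (le_of_eq ?_) (h x hx)
          rw [Nat.card_eq_fintype_card, Fintype.card_subtype]
      _ = Fintype.card τ * K.card := by rw [Finset.sum_const, smul_eq_mul, mul_comm]
  have h2 : ∑ _t : τ, K.card < ∑ t : τ, lam * (K.filter fun x => ¬ P x t).card := by
    apply Finset.sum_lt_sum_of_nonempty univ_nonempty
    intro t _
    exact hcon t
  rw [← Finset.mul_sum, Finset.sum_const, card_univ, smul_eq_mul] at h2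
  omega

open Classical in
theorem cover (k lam I : ℕ) (hk : 1 ≤ k) (hlam : 1 ≤ lam) (hI : 1 ≤ I) (M : ℕ) [NeZero M]
    (hM : 3 ≤ M) (hkM : 2 * k ≤ M) (D : ℕ) (hD : 1 ≤ D)
    (e : Fin D ≃ {W : Finset (ZMod M) // W.card = 2 * k}) :
    ∃ Q r N Bd : ℕ, 1 ≤ Q ∧ 1 ≤ r ∧ 1 ≤ N ∧ ∀ n ≥ N, ∃ lab : Finset (ZMod M) → Fin n → Fin n,
      (∀ W W', W ⊆ W' → ∀ i j, lab W i = lab W j → lab W' i = lab W' j) ∧
      (∀ z b, (univ.filter fun i => lab (univ.erase z) i = b).card ≤ Bd) ∧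
      ∀ s, r * s ≤ k * n → ∀ B : Blk n r s, AllRead B → ∃ T : Fin r → Fin 3,
        ((B.K.filter fun x => ¬ Gx (224 * D) Q (fun d => lab (e d).1) B T x).card : ℝ) ≤
          (2 * k / I + 1 / lam) * B.K.card + 2 ^ n / 2 ^ (n / N) := by
  obtain ⟨C, hC⟩ : ∃ C, C = 224 * D := ⟨_, rfl⟩
  have hC1 : 1 ≤ C := by omega
  obtain ⟨κ, hκ⟩ : ∃ κ, κ = 64 * C := ⟨_, rfl⟩
  have hκ1 : 1 ≤ κ := by omega
  obtain ⟨E, hE, hch⟩ := choose_small (450 * lam * 4 ^ k + 3) (4 * κ) (by omega)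
  obtain ⟨ℓ, H, hℓ, hH, hsc⟩ := scales k hk (lam * E) I (Nat.mul_pos hlam hE)
  obtain ⟨t0, ht0⟩ : ∃ t0, t0 = 128 * C * (2 * H) := ⟨_, rfl⟩
  obtain ⟨qm, hqm⟩ : ∃ qm, qm = ℓ ^ (2 * I + 1) := ⟨_, rfl⟩
  have hqm1 : 1 ≤ qm := by rw [hqm]; exact Nat.one_le_iff_ne_zero.2 (by positivity)
  have hkR : (1 : ℝ) ≤ k := by exact_mod_cast hk
  have hlR : (1 : ℝ) ≤ lam := by exact_mod_cast hlam
  have hHR : (1 : ℝ) ≤ H := by exact_mod_cast hH
  have hER : (1 : ℝ) ≤ E := by exact_mod_cast hE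
  have hDR : (1 : ℝ) ≤ D := by exact_mod_cast hD
  have hqmR : (1 : ℝ) ≤ qm := by exact_mod_cast hqm1
  have hIR : (1 : ℝ) ≤ I := by exact_mod_cast hI
  obtain ⟨τ, hτ⟩ : ∃ τ : ℝ, τ = 1 / (128 * lam * (2 * k) * (qm : ℝ) ^ (4 * k) * D * H) := ⟨_, rfl⟩
  have hτ0 : 0 < τ := by rw [hτ]; positivity
  obtain ⟨ζ, hζ⟩ : ∃ ζ : ℝ, ζ = 1 / (4 * H * k) := ⟨_, rfl⟩
  have hζ0 : 0 < ζ := by rw [hζ]; positivity
  obtain ⟨L, hL⟩ : ∃ L, L = 8 * D * H * t0 + 4 * H := ⟨_, rfl⟩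
  have hL1 : 1 ≤ L := by omega
  obtain ⟨ρ, Bd, hρ, hsys⟩ := sys M (2 * k) L hM hL1 ζ τ hζ0 hτ0
  obtain ⟨r, hr⟩ : ∃ r, r = ρ * k + 180 * lam * k ^ 2 * H ^ 2 := ⟨_, rfl⟩
  have hr1 : 1 ≤ r := by
    rw [hr]
    have : 0 < ρ * k := Nat.mul_pos hρ hk
    omega
  obtain ⟨N0, hN0, hlarge⟩ := large k κ H hκ1 hH
  refine ⟨2 * H, r, max N0 L, Bd, by omega, hr1, (Nat.one_le_iff_ne_zero.2 hN0.ne').trans
    (le_max_left _ _), ?_⟩
  intro n hn
  have hnN : N0 ≤ n := (le_max_left _ _).trans hn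
  have hnL : L ≤ n := (le_max_right _ _).trans hn
  have hn1 : 1 ≤ n := by omega
  have hnR : (1 : ℝ) ≤ n := by exact_mod_cast hn1
  obtain ⟨real, lab, h1, h2, h3, h4, h5⟩ := hsys n hnL
  refine ⟨lab, h2, h3, ?_⟩
  intro s hrs B hB
  -- the sizes of the blocks
  have hRd : ∀ x j, (univ.filter fun v => j ∈ B.S x v) = B.Rd j x := by
    intro x j
    ext v; simp [Blk.S]
  have hρs : ρ * s ≤ n := by
    have h6 : k * (ρ * s) ≤ k * n := by
      calc k * (ρ * s) = (ρ * k) * s := by ring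
        _ ≤ r * s := Nat.mul_le_mul_right _ (by omega)
        _ ≤ k * n := hrs
    exact Nat.le_of_mul_le_mul_left h6 hk
  have hsum : ∀ x ∈ B.K, ∑ j, (B.Rd j x).card ≤ k * n := by
    intro x hx
    calc ∑ j, (B.Rd j x).card ≤ ∑ _j : Fin r, s := Finset.sum_le_sum fun j _ => B.size x hx j
      _ = r * s := by simp
      _ ≤ k * n := hrs
  -- the scales
  have hscale : ∀ x ∈ B.K, ∃ bad : Finset ℕ, bad.card ≤ 2 * k ∧ ∀ i < I, i ∉ bad → ∃ c : ℕ,
      1 ≤ c ∧ c ≤ 2 * k ∧ c ≤ r ∧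
      ((lam * E : ℕ) : ℝ) * ∑ t ∈ (range (r + 1)).erase c,
        (cnt (B.S x) t : ℝ) / (ℓ ^ (2 * i + 1) : ℝ) ^ t ≤
        (cnt (B.S x) c : ℝ) / (ℓ ^ (2 * i + 1) : ℝ) ^ c ∧
      ((lam * E : ℕ) : ℝ) * ∑ t ∈ (range (r + 1)).filter (fun t => c < t),
        (cnt (B.S x) t : ℝ) * 2 ^ t / (ℓ ^ (2 * i + 1) : ℝ) ^ t ≤
        (cnt (B.S x) c : ℝ) / (ℓ ^ (2 * i + 1) : ℝ) ^ c ∧
      (n : ℝ) ≤ H * ((cnt (B.S x) c : ℝ) / (ℓ ^ (2 * i + 1) : ℝ) ^ c) := by
    intro x hx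
    have h0 : cnt (B.S x) 0 = 0 := by
      rw [cnt, Finset.card_eq_zero, Finset.filter_eq_empty_iff]
      intro v _ hv
      obtain ⟨j, hj⟩ := hB x hx v
      rw [Finset.card_eq_zero] at hv
      have : j ∈ B.S x v := by
        rw [Blk.S, Finset.mem_filter]
        exact ⟨Finset.mem_univ _, hj⟩
      rw [hv] at this
      exact absurd this (Finset.notMem_empty _)
    exact hsc r n (cnt (B.S x)) hn1 (cnt_sum _)
      (by rw [cnt_sum_mul, sum_card_S]; exact hsum x hx) h0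
  choose! bad hbad1 hbad2 using hscale
  obtain ⟨i, hi, hbi⟩ := avg_scale B.K I (2 * k) hI bad hbad1
  obtain ⟨q, hq⟩ : ∃ q, q = ℓ ^ (2 * i + 1) := ⟨_, rfl⟩
  have hq3 : 3 ≤ q := by
    rw [hq]
    calc 3 ≤ ℓ := hℓ
      _ = ℓ ^ 1 := (pow_one _).symm
      _ ≤ ℓ ^ (2 * i + 1) := Nat.pow_le_pow_right (by omega) (by omega)
  have hqqm : q ≤ qm := by
    rw [hq, hqm]
    exact Nat.pow_le_pow_right (by omega) (by omega)
  have hqc : ((ℓ : ℝ) ^ (2 * i + 1)) = (q : ℝ) := by rw [hq]; push_cast; rfl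
  obtain ⟨K1, hK1⟩ : ∃ K1, K1 = B.K.filter fun x => i ∉ bad x := ⟨_, rfl⟩
  obtain ⟨Gg, hGg⟩ : ∃ Gg : Pt n → (Fin r → Fin q) → Prop, Gg = fun x T => ∃ c : ℕ, c ≤ 2 * k ∧
    (n : ℝ) ≤ H * (cnt (B.S x) c / (q : ℝ) ^ c) ∧
      GoodT2 (B.S x) (kind T) c E (300 * lam * 2 ^ c) (cnt (B.S x) c / (q : ℝ) ^ c) ∧
      Crs (fun d => lab (e d).1) t0 (hat (B.S x) (kind T) 0)
        (hat (B.S x) (kind T) 1) (cnt (B.S x) c / (q : ℝ) ^ c / (16 * D)) := ⟨_, rfl⟩
  have hran : ∀ x ∈ K1, lam * Nat.card {T : Fin r → Fin q // ¬ Gg x T} ≤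
      Fintype.card (Fin r → Fin q) := by
    intro x hx
    rw [hK1, mem_filter] at hx
    obtain ⟨hxK, hxb⟩ := hx
    obtain ⟨c, hc1, hc2, hcr, h6, h7, h8⟩ := hbad2 x hxK i hi hxb
    rw [hqc] at h6 h7 h8
    have hE1 : (lam : ℝ) * (E : ℝ) * ∑ t ∈ (range (r + 1)).erase c,
        (cnt (B.S x) t : ℝ) / (q : ℝ) ^ t ≤ cnt (B.S x) c / (q : ℝ) ^ c := by
      push_cast at h6; exact h6
    have hE2 : (lam : ℝ) * (E : ℝ) * ∑ t ∈ (range (r + 1)).filter (fun t => c < t),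
        (cnt (B.S x) t : ℝ) * 2 ^ t / (q : ℝ) ^ t ≤ cnt (B.S x) c / (q : ℝ) ^ c := by
      push_cast at h7; exact h7
    obtain ⟨μ, hμ⟩ : ∃ μ : ℝ, μ = cnt (B.S x) c / (q : ℝ) ^ c := ⟨_, rfl⟩
    have hch2 : 180 * (lam : ℝ) * ∑ j : Fin r, ((univ.filter (fun v => j ∈ B.S x v)).card : ℝ) ^ 2
        ≤ (cnt (B.S x) c / (q : ℝ) ^ c) ^ 2 := by
      rw [← hμ]
      rw [← hμ] at h8
      have h9 : ∑ j : Fin r, ((univ.filter (fun v => j ∈ B.S x v)).card : ℝ) ^ 2 ≤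
          r * (s : ℝ) ^ 2 := by
        calc _ ≤ ∑ _j : Fin r, (s : ℝ) ^ 2 := by
              apply Finset.sum_le_sum
              intro j _
              rw [hRd x j]
              have h10 : ((B.Rd j x).card : ℝ) ≤ s := by exact_mod_cast B.size x hxK j
              exact pow_le_pow_left₀ (by positivity) h10 2
          _ = r * (s : ℝ) ^ 2 := by simp
      have h10 : ((r : ℝ) * s) ^ 2 ≤ ((k : ℝ) * n) ^ 2 := by
        have : ((r : ℝ) * s) ≤ (k : ℝ) * n := by exact_mod_cast hrs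
        exact pow_le_pow_left₀ (by positivity) this 2
      have h11 : (n : ℝ) ^ 2 ≤ ((H : ℝ) * μ) ^ 2 := pow_le_pow_left₀ (by positivity) h8 2
      have hrR : 180 * (lam : ℝ) * (k : ℝ) ^ 2 * (H : ℝ) ^ 2 ≤ (r : ℝ) := by
        have : 180 * lam * k ^ 2 * H ^ 2 ≤ r := by rw [hr]; exact Nat.le_add_left _ _
        exact_mod_cast this
      have hrR0 : (0 : ℝ) < r := by exact_mod_cast hr1
      have h12 : (r : ℝ) * (180 * lam * (r * (s : ℝ) ^ 2)) ≤ r * μ ^ 2 := by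
        calc (r : ℝ) * (180 * lam * (r * (s : ℝ) ^ 2)) = 180 * lam * ((r : ℝ) * s) ^ 2 := by ring
          _ ≤ 180 * lam * ((k : ℝ) * n) ^ 2 := mul_le_mul_of_nonneg_left h10 (by positivity)
          _ = 180 * lam * (k : ℝ) ^ 2 * (n : ℝ) ^ 2 := by ring
          _ ≤ 180 * lam * (k : ℝ) ^ 2 * ((H : ℝ) * μ) ^ 2 :=
              mul_le_mul_of_nonneg_left h11 (by positivity)
          _ = (180 * lam * (k : ℝ) ^ 2 * (H : ℝ) ^ 2) * μ ^ 2 := by ring
          _ ≤ r * μ ^ 2 := mul_le_mul_of_nonneg_right hrR (by positivity)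
      have h13 := le_of_mul_le_mul_left h12 hrR0
      calc _ ≤ 180 * (lam : ℝ) * (r * (s : ℝ) ^ 2) :=
            mul_le_mul_of_nonneg_left h9 (by positivity)
        _ ≤ μ ^ 2 := h13
    have hg1 := random hlam hq3 hc1 (B.S x) (E : ℝ) hER hE1 hE2 hch2
    have hg2 := cross_x e lab real L ρ ζ τ h1 h4 h5 (B.S x) q c t0 H lam k hq3 hc1 hH hlam hn1
      hζ0 hτ0 hc2 hkM (by
        intro j
        rw [hRd x j]
        exact (Nat.mul_le_mul_left _ (B.size x hxK j)).trans hρs) (by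
        simp_rw [hRd x]
        exact hsum x hxK) h8 (by
        rw [hζ]
        have : (0 : ℝ) < 4 * H * k := by positivity
        rw [mul_one_div_cancel this.ne']) (by omega) (by omega) (by
        rw [hτ]
        have h14 : (q : ℝ) ^ (2 * c) ≤ (qm : ℝ) ^ (4 * k) := by
          calc (q : ℝ) ^ (2 * c) ≤ (qm : ℝ) ^ (2 * c) := by
                apply pow_le_pow_left₀ (by positivity)
                exact_mod_cast hqqm
            _ ≤ (qm : ℝ) ^ (4 * k) := pow_le_pow_right₀ hqmR (by omega)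
        have h15 : (0 : ℝ) < 128 * lam * (2 * k) * (qm : ℝ) ^ (4 * k) * D * H := by positivity
        have h16 : 128 * (lam : ℝ) * (((2 * k : ℕ) : ℝ) * (1 / (128 * lam * (2 * k) *
            (qm : ℝ) ^ (4 * k) * D * H))) * (q : ℝ) ^ (2 * c) * D * H =
            (128 * lam * (2 * k) * (q : ℝ) ^ (2 * c) * D * H) /
              (128 * lam * (2 * k) * (qm : ℝ) ^ (4 * k) * D * H) := by
          push_cast
          ring
        rw [h16, div_le_one h15]
        apply mul_le_mul_of_nonneg_right _ (by positivity)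
        apply mul_le_mul_of_nonneg_right _ (by positivity)
        exact mul_le_mul_of_nonneg_left h14 (by positivity))
    have h17 : Nat.card {T : Fin r → Fin q // ¬ Gg x T} ≤
        Nat.card {T : Fin r → Fin q //
          ¬ GoodT2 (B.S x) (kind T) c E (300 * lam * 2 ^ c) (cnt (B.S x) c / (q : ℝ) ^ c)} +
        Nat.card {T : Fin r → Fin q // ¬ Crs (fun d => lab (e d).1) t0 (hat (B.S x) (kind T) 0)
          (hat (B.S x) (kind T) 1) (cnt (B.S x) c / (q : ℝ) ^ c / (16 * D))} := by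
      simp only [Nat.card_eq_fintype_card, Fintype.card_subtype]
      refine (Finset.card_le_card ?_).trans (Finset.card_union_le _ _)
      intro T hT
      rw [mem_filter] at hT
      rw [mem_union, mem_filter, mem_filter]
      by_contra hcon
      push Not at hcon
      obtain ⟨ha, hb⟩ := hcon
      apply hT.2
      rw [hGg]
      exact ⟨c, hc2, h8, ha (mem_univ _), hb (mem_univ _)⟩
    rw [Fintype.card_fun, Fintype.card_fin, Fintype.card_fin]
    have h18 := Nat.mul_le_mul_left (2 * lam) h17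
    rw [mul_add] at h18
    have h19 : 2 * (lam * Nat.card {T : Fin r → Fin q // ¬ Gg x T}) =
      2 * lam * Nat.card {T : Fin r → Fin q // ¬ Gg x T} := by ring
    omega
  have : Nonempty (Fin r → Fin q) := ⟨fun _ => ⟨0, by omega⟩⟩
  obtain ⟨T, hT⟩ := avg_col K1 Gg lam hran
  refine ⟨kind T, ?_⟩
  obtain ⟨K2, hK2⟩ : ∃ K2, K2 = K1.filter fun x => Gg x T := ⟨_, rfl⟩
  have hK2m : ∀ x ∈ K2, x ∈ B.K ∧ Gg x T := by
    intro x hx
    rw [hK2, mem_filter, hK1, mem_filter] at hx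
    exact ⟨hx.1.1, hx.2⟩
  have hb1 := bad_all B hB (kind T) k E H q lam κ hlam hκ1 hE hH hch K2
    (fun x hx => (hK2m x hx).1) (by
      intro x hx
      have := (hK2m x hx).2
      rw [hGg] at this
      obtain ⟨c, c1, c2, c3, -⟩ := this
      exact ⟨c, c1, c2, c3⟩)
  have hsub : (B.K.filter fun x => ¬ Gx (224 * D) (2 * H) (fun d => lab (e d).1) B (kind T) x) ⊆
      (B.K.filter fun x => i ∈ bad x) ∪ ((K1.filter fun x => ¬ Gg x T) ∪
        (K2.filter fun x => ¬ Lk κ (2 * H) B (kind T) x)) := by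
    intro x hx
    rw [mem_filter] at hx
    obtain ⟨hxK, hxG⟩ := hx
    rw [mem_union, mem_union, mem_filter, mem_filter, mem_filter]
    by_cases hb : i ∈ bad x
    · exact Or.inl ⟨hxK, hb⟩
    · right
      have hx1 : x ∈ K1 := by rw [hK1, mem_filter]; exact ⟨hxK, hb⟩
      by_cases hg : Gg x T
      · right
        refine ⟨by rw [hK2, mem_filter]; exact ⟨hx1, hg⟩, ?_⟩
        intro hLk
        apply hxG
        rw [hGg] at hg
        obtain ⟨c, c1, c2, c3, c4⟩ := hg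
        refine ⟨by rw [← hC, ← hκ]; exact hLk, ?_⟩
        rw [← hC, ← ht0]
        refine Crs_mono _ _ _ _ ?_ c4
        obtain ⟨-, -, a1, -, -⟩ := R13_typ (B.S x) (kind T) c E hE _ _ c3
        obtain ⟨μ, hμ⟩ : ∃ μ : ℝ, μ = cnt (B.S x) c / (q : ℝ) ^ c := ⟨_, rfl⟩
        rw [← hμ] at a1 ⊢
        have hμ0 : 0 ≤ μ := by rw [hμ]; positivity
        have a2 : ((⌊12 * μ / E⌋₊ : ℕ) : ℝ) ≤ 12 * μ := by
          refine (Nat.floor_le (by positivity)).trans ?_
          exact div_le_self (by positivity) hER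
        have a3 : ((min (hat (B.S x) (kind T) 0).card (hat (B.S x) (kind T) 1).card : ℕ) : ℝ) ≤
            14 * μ := by
          have a4 : ((min (hat (B.S x) (kind T) 0).card
              (hat (B.S x) (kind T) 1).card : ℕ) : ℝ) ≤ (hat (B.S x) (kind T) 0).card := by
            exact_mod_cast min_le_left _ _
          linarith
        rw [div_le_div_iff₀ (by rw [hC]; positivity) (by positivity)]
        calc _ ≤ (14 * μ) * (16 * (D : ℝ)) := mul_le_mul_of_nonneg_right a3 (by positivity)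
          _ = μ * ((C : ℕ) : ℝ) := by rw [hC]; push_cast; ring
      · exact Or.inl ⟨hx1, hg⟩
  have hcard := (Finset.card_le_card hsub).trans ((Finset.card_union_le _ _).trans
    (Nat.add_le_add_left (Finset.card_union_le _ _) _))
  have hcardR : ((B.K.filter fun x => ¬ Gx (224 * D) (2 * H) (fun d => lab (e d).1) B
      (kind T) x).card : ℝ) ≤ (B.K.filter fun x => i ∈ bad x).card +
      ((K1.filter fun x => ¬ Gg x T).card +
        (K2.filter fun x => ¬ Lk κ (2 * H) B (kind T) x).card) := by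
    exact_mod_cast hcard
  have e1 : ((B.K.filter fun x => i ∈ bad x).card : ℝ) ≤ 2 * k / I * B.K.card := by
    rw [div_mul_eq_mul_div, le_div_iff₀ (by positivity), mul_comm]
    exact_mod_cast hbi
  have e2 : ((K1.filter fun x => ¬ Gg x T).card : ℝ) ≤ 1 / lam * B.K.card := by
    rw [div_mul_eq_mul_div, le_div_iff₀ (by positivity), mul_comm, one_mul]
    have : K1.card ≤ B.K.card := by rw [hK1]; exact Finset.card_filter_le _ _
    exact_mod_cast hT.trans this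
  have e3 : ((K2.filter fun x => ¬ Lk κ (2 * H) B (kind T) x).card : ℝ) ≤
      2 ^ n / 2 ^ (n / max N0 L) := by
    rw [le_div_iff₀ (by positivity)]
    refine le_trans ?_ (hlarge n hnN)
    apply mul_le_mul hb1 _ (by positivity) (by positivity)
    apply pow_le_pow_right₀ (by norm_num)
    exact Nat.div_le_div_left (le_max_left _ _) hN0
  calc _ ≤ _ := hcardR
    _ ≤ 2 * k / I * B.K.card + (1 / lam * B.K.card + 2 ^ n / 2 ^ (n / max N0 L)) :=
        add_le_add e1 (add_le_add e2 e3)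
    _ = (2 * k / I + 1 / lam) * B.K.card + 2 ^ n / 2 ^ (n / max N0 L) := by ring

end Pool.Agent.W902.Z
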