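import Mathlib
import Pool.Agent.H554R2.Rnd.Defs

/-!
# The function of the values of the forms
-/

set_option autoImplicit false

open Finset

namespace Pool.Agent.W902.Z

open Pool.Agent.H554R2.Sem Pool.Agent.H554R2.Coin Pool.Agent.H554R2.Lin Pool.Agent.H554R2.Rnd

/-- all the bits of some class are ones -/
def Fz {D : ℕ} {γ : Type} [DecidableEq γ] (cl : Fin D → γ) (y : Fin D → Bool) : Bool :=
  decide (∃ d0, ∀ d, cl d = cl d0 → y d = true)

theorem bz_eq_one {b : Bool} : bz b = 1 ↔ b = true := by cases b <;> decide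

theorem prod_bz {D : ℕ} {γ : Type} [DecidableEq γ] (cl : Fin D → γ) (T : Finset γ)
    (y : Fin D → Bool) : ∏ c ∈ T, ∏ d ∈ univ.filter (fun d => cl d = c), bz (y d) =
      ∏ d, if cl d ∈ T then bz (y d) else 1 := by
  rw [← Finset.prod_filter]
  rw [← Finset.prod_fiberwise_of_maps_to (s := univ.filter fun d => cl d ∈ T) (t := T) (g := cl)
    (fun d hd => (mem_filter.1 hd).2)]
  apply Finset.prod_congr rfl
  intro c hc
  apply Finset.prod_congr _ fun _ _ => rfl
  ext d
  simp only [mem_filter, mem_univ, true_and]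
  constructor
  · intro h
    exact ⟨by rw [h]; exact hc, h⟩
  · exact fun h => h.2

theorem sum_bz {D : ℕ} {γ : Type} [DecidableEq γ] (cl : Fin D → γ) (T : Finset γ)
    (hT : T ⊆ univ.image cl) :
    ∑ y : Fin D → Bool, ∏ d, (if cl d ∈ T then bz (y d) else 1) =
      if T = univ.image cl then 1 else 0 := by
  have h1 := Finset.prod_univ_sum (fun _ : Fin D => (univ : Finset Bool))
    (fun d b => if cl d ∈ T then bz b else (1 : ZMod 2))
  rw [Fintype.piFinset_univ] at h1
  rw [← h1]
  have h2 : ∀ d, ∑ b : Bool, (if cl d ∈ T then bz b else (1 : ZMod 2)) =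
      if cl d ∈ T then 1 else 0 := by
    intro d
    rw [Fintype.sum_bool]
    by_cases h : cl d ∈ T
    · simp only [if_pos h]; decide
    · simp only [if_neg h]; decide
  simp only [h2]
  split_ifs with h
  · apply Finset.prod_eq_one
    intro d _
    rw [if_pos]
    rw [h]
    exact mem_image_of_mem _ (mem_univ _)
  · obtain ⟨c, hc, hcT⟩ : ∃ c ∈ univ.image cl, c ∉ T := by
      by_contra hcon
      push Not at hcon
      exact h (Finset.Subset.antisymm hT hcon)
    obtain ⟨d, -, rfl⟩ := mem_image.1 hc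
    exact Finset.prod_eq_zero (mem_univ d) (if_neg hcT)

theorem prod_false {D : ℕ} {γ : Type} [DecidableEq γ] (cl : Fin D → γ) (y : Fin D → Bool) :
    ∏ c ∈ univ.image cl, (1 + ∏ d ∈ univ.filter (fun d => cl d = c), bz (y d)) =
      if Fz cl y = false then 1 else 0 := by
  have h1 : ∀ c, ∏ d ∈ univ.filter (fun d => cl d = c), bz (y d) =
      if ∀ d, cl d = c → y d = true then 1 else 0 := by
    intro c
    split_ifs with h
    · apply Finset.prod_eq_one
      intro d hd
      rw [h d (mem_filter.1 hd).2]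
      decide
    · push Not at h
      obtain ⟨d, hd, hy⟩ := h
      apply Finset.prod_eq_zero (mem_filter.2 ⟨mem_univ d, hd⟩)
      have : y d = false := by simpa using hy
      rw [this]
      decide
  simp only [h1]
  by_cases h : ∃ d0, ∀ d, cl d = cl d0 → y d = true
  · have h2 : ¬ Fz cl y = false := by simp [Fz, h]
    rw [if_neg h2]
    obtain ⟨d0, hd0⟩ := h
    apply Finset.prod_eq_zero (mem_image_of_mem cl (mem_univ d0))
    rw [if_pos hd0]
    decide
  · have h2 : Fz cl y = false := by simp only [Fz, decide_eq_false_iff_not]; exact h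
    rw [if_pos h2]
    apply Finset.prod_eq_one
    intro c hc
    obtain ⟨d0, -, rfl⟩ := mem_image.1 hc
    rw [if_neg, add_zero]
    intro h3
    exact h ⟨d0, h3⟩

theorem odd_card {D : ℕ} {γ : Type} [DecidableEq γ] (cl : Fin D → γ) :
    Odd (univ.filter fun y : Fin D → Bool => Fz cl y = false).card := by
  rw [← ZMod.natCast_eq_one_iff_odd, Finset.card_filter, Nat.cast_sum]
  have h1 : ∀ y : Fin D → Bool, (((if Fz cl y = false then 1 else 0 : ℕ)) : ZMod 2) =
      ∑ T ∈ (univ.image cl).powerset, ∏ d, (if cl d ∈ T then bz (y d) else 1) := by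
    intro y
    have h2 := prod_false cl y
    rw [Finset.prod_one_add] at h2
    simp only [prod_bz] at h2
    rw [h2]
    split_ifs <;> simp
  simp only [h1]
  rw [Finset.sum_comm, Finset.sum_congr rfl fun T hT => sum_bz cl T (mem_powerset.1 hT),
    Finset.sum_ite_eq', if_pos (mem_powerset_self _)]

theorem sgn_ne (b : Bool) : sgn b = 1 ∨ sgn b = -1 := by cases b <;> decide

theorem sgn_abs (b : Bool) : |sgn b| = 1 := by cases b <;> decide

theorem sgn_xor (a b : Bool) : sgn (xor a b) = sgn a * sgn b := by cases a <;> cases b <;> decide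

/-- the top coefficient -/
theorem top_ne {D : ℕ} {γ : Type} [DecidableEq γ] (cl : Fin D → γ) :
    1 ≤ |∑ y : Fin D → Bool, (∏ d, sgn (y d)) * (if Fz cl y = false then 1 else 0)| := by
  apply Int.one_le_abs
  intro h
  have h1 : ((∑ y : Fin D → Bool, (∏ d, sgn (y d)) * (if Fz cl y = false then 1 else 0) : ℤ) :
      ZMod 2) = 1 := by
    have h2 := (ZMod.natCast_eq_one_iff_odd).2 (odd_card cl)
    rw [← h2, Finset.card_filter]
    push_cast
    apply Finset.sum_congr rfl
    intro y _
    have h3 : ∀ b : Bool, ((sgn b : ℤ) : ZMod 2) = 1 := by intro b; cases b <;> decide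
    simp only [h3, Finset.prod_const_one, one_mul]
  rw [h] at h1
  exact absurd h1 (by decide)

/-- the choice of the shift -/
theorem shift {n D : ℕ} {γ : Type} [DecidableEq γ] (cl : Fin D → γ) (v : Pt n → Fin D → Bool) :
    ∃ t : Fin D → Bool, 2 ^ n ≤ 2 ^ D * |∑ x : Pt n, (∏ d, sgn (v x d)) *
      (if Fz cl (fun d => xor (v x d) (t d)) = false then (1 : ℤ) else 0)| := by
  by_contra hcon
  push Not at hcon
  obtain ⟨A, hA⟩ : ∃ A : (Fin D → Bool) → ℤ, A = fun t => ∑ x : Pt n, (∏ d, sgn (v x d)) *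
      (if Fz cl (fun d => xor (v x d) (t d)) = false then (1 : ℤ) else 0) := ⟨_, rfl⟩
  have hcon' : ∀ t, 2 ^ D * |A t| < 2 ^ n := by
    intro t; rw [hA]; exact hcon t
  have h1 : ∑ t : Fin D → Bool, (∏ d, sgn (t d)) * A t = 2 ^ n *
      ∑ y : Fin D → Bool, (∏ d, sgn (y d)) * (if Fz cl y = false then 1 else 0) := by
    rw [hA]
    simp only [Finset.mul_sum]
    rw [Finset.sum_comm]
    have h2 : ∀ x : Pt n, ∑ t : Fin D → Bool, (∏ d, sgn (t d)) * ((∏ d, sgn (v x d)) *
        (if Fz cl (fun d => xor (v x d) (t d)) = false then (1 : ℤ) else 0)) =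
        ∑ y : Fin D → Bool, (∏ d, sgn (y d)) * (if Fz cl y = false then 1 else 0) := by
      intro x
      have hinv : Function.Involutive (fun (t : Fin D → Bool) (d : Fin D) => xor (v x d) (t d)) := by
        intro t
        funext d
        show xor (v x d) (xor (v x d) (t d)) = t d
        rw [← Bool.xor_assoc, Bool.xor_self, Bool.false_xor]
      rw [← Equiv.sum_comp hinv.toPerm
        (fun y : Fin D → Bool => (∏ d, sgn (y d)) * (if Fz cl y = false then (1 : ℤ) else 0))]
      apply Finset.sum_congr rfl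
      intro t _
      show _ = (∏ d, sgn (xor (v x d) (t d))) *
        (if Fz cl (fun d => xor (v x d) (t d)) = false then (1 : ℤ) else 0)
      simp only [sgn_xor, Finset.prod_mul_distrib]
      ring
    rw [Finset.sum_congr rfl fun x _ => h2 x, Finset.sum_const, card_univ, nsmul_eq_mul]
    have h3 : Fintype.card (Pt n) = 2 ^ n := by simp
    rw [h3, ← Finset.mul_sum]
    push_cast
    rfl
  have h4 : (2 : ℤ) ^ n ≤ |∑ t : Fin D → Bool, (∏ d, sgn (t d)) * A t| := by
    rw [h1, abs_mul, abs_of_pos (by positivity : (0 : ℤ) < 2 ^ n)]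
    exact le_mul_of_one_le_right (by positivity) (top_ne cl)
  have h5 : |∑ t : Fin D → Bool, (∏ d, sgn (t d)) * A t| ≤ ∑ t, |A t| := by
    refine (Finset.abs_sum_le_sum_abs _ _).trans (le_of_eq ?_)
    apply Finset.sum_congr rfl
    intro t _
    rw [abs_mul, Finset.abs_prod]
    simp only [sgn_abs, Finset.prod_const_one, one_mul]
  have h6 : ∑ t : Fin D → Bool, 2 ^ D * |A t| < ∑ _t : Fin D → Bool, (2 : ℤ) ^ n := by
    apply Finset.sum_lt_sum_of_nonempty univ_nonempty
    intro t _
    exact hcon' t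
  rw [← Finset.mul_sum, Finset.sum_const, card_univ, nsmul_eq_mul] at h6
  have h7 : Fintype.card (Fin D → Bool) = 2 ^ D := by simp
  rw [h7] at h6
  push_cast at h6
  have h8 := lt_of_mul_lt_mul_left h6 (by positivity)
  omega

end Pool.Agent.W902.Z
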