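import Pool.Agent.W902.Z.Cls
import Pool.Agent.H554R2.Rnd.Blocks
import Pool.Agent.H554R2.Rnd.Amplify
import Pool.Agent.H554R2.Rnd.Det

/-!
# Sums over the inputs on which a program answers `false`
-/

set_option autoImplicit false

open Finset

namespace Pool.Agent.W902.Z

open Pool.Agent.H554R2.Sem Pool.Agent.H554R2.Coin Pool.Agent.H554R2.Lin Pool.Agent.H554R2.Rnd

/-- a total program which reads all the variables -/
theorem tot {n : ℕ} (k : ℕ) (P : BP (Fin n) Bool) :
    ∃ U : BP (Fin n) Bool, Fintype.card U.State ≤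
        16 * (Fintype.card P.State * (k * n + 2) + n + 3) ∧
      (∀ x, ∃ (l : List (Fin n)) (b : Bool), l.length ≤ (k + 1) * n ∧ U.Comp x l b ∧ ∀ v, v ∈ l) ∧
      ∀ x l b, P.Comp x l b → l.length ≤ k * n → ∃ l', U.Comp x l' b := by
  obtain ⟨C, hC1, hC2, hC3⟩ := clock P (k * n)
  obtain ⟨R, hR1, hR2⟩ := read_all n
  obtain ⟨Q, hQ⟩ : ∃ Q : Fin 2 → BP (Fin n) Bool, Q = ![C, R] := ⟨_, rfl⟩
  have hQ0 : Q 0 = C := by rw [hQ]; rfl
  have hQ1 : Q 1 = R := by rw [hQ]; rfl
  have hcard : ∀ i, Fintype.card (Q i).State ≤ Fintype.card P.State * (k * n + 2) + n + 2 := by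
    intro i
    fin_cases i
    · show Fintype.card (Q 0).State ≤ _
      rw [hQ0]
      omega
    · show Fintype.card (Q 1).State ≤ _
      rw [hQ1, hR1]
      omega
  obtain ⟨U, hU1, hU2⟩ := seq_program Q hcard (fun b => b 0)
  have hcomp : ∀ x l b, C.Comp x l b → U.Comp x (l ++ List.finRange n) b := by
    intro x l b h
    have h1 := hU2 x ![l, List.finRange n] ![b, false] (by
      intro i
      fin_cases i
      · show (Q 0).Comp x l b
        rw [hQ0]; exact h
      · show (Q 1).Comp x (List.finRange n) false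
        rw [hQ1]; exact hR2 x)
    have h2 : (List.ofFn ![l, List.finRange n]).flatten = l ++ List.finRange n := by
      simp [List.ofFn_succ]
    rw [h2] at h1
    exact h1
  refine ⟨U, ?_, ?_, ?_⟩
  · refine hU1.trans (le_of_eq ?_)
    ring
  · intro x
    obtain ⟨l, b, h1, h2⟩ := hC2 x
    refine ⟨l ++ List.finRange n, b, ?_, hcomp x l b h2, ?_⟩
    · rw [List.length_append, List.length_finRange]
      have : (k + 1) * n = k * n + n := by ring
      omega
    · intro v
      rw [List.mem_append]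
      exact Or.inr (List.mem_finRange v)
  · intro x l b h1 h2
    exact ⟨_, hcomp x l b (hC3 x l b h1 h2)⟩

open Classical in
/-- sums over the inputs on which a program answers `false` -/
theorem det_sum {n : ℕ} (k r : ℕ) (hr : 1 ≤ r) (hrn : r ≤ n) (ψ : Pt n → ℤ) (ε δ : ℝ)
    (hδ : 0 ≤ δ)
    (hB : ∀ s, r * s ≤ (k + 1) * n → ∀ B : Blk n r s, AllRead B →
      |((∑ x ∈ B.K, ψ x : ℤ) : ℝ)| ≤ ε * B.K.card + δ)
    (P : BP (Fin n) Bool)
    (hP : ∀ x, ∃ (l : List (Fin n)) (b : Bool), l.length ≤ k * n ∧ P.Comp x l b ∧ ∀ v, v ∈ l) :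
    |((∑ x ∈ univ.filter (fun x => ∃ l, P.Comp x l false), ψ x : ℤ) : ℝ)| ≤
      ε * (univ.filter (fun x => ∃ l, P.Comp x l false)).card +
        (Fintype.card P.State : ℝ) ^ (r + 1) * δ := by
  obtain ⟨s, hs⟩ : ∃ s, s = k * n / r + 1 := ⟨_, rfl⟩
  have hs1 : k * n ≤ r * s := by
    rw [hs, Nat.mul_add, mul_one]
    have := Nat.div_add_mod (k * n) r
    have h2 := Nat.mod_lt (k * n) hr
    omega
  have hs2 : r * s ≤ (k + 1) * n := by
    rw [hs, Nat.mul_add, mul_one]
    have := Nat.mul_div_le (k * n) r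
    have h3 : (k + 1) * n = k * n + n := by ring
    omega
  have hP' : ∀ x, ∃ (l : List (Fin n)) (b : Bool), l.length ≤ r * s ∧ P.Comp x l b ∧ ∀ v, v ∈ l := by
    intro x
    obtain ⟨l, b, h1, h2, h3⟩ := hP x
    exact ⟨l, b, h1.trans hs1, h2, h3⟩
  obtain ⟨c, hc⟩ : ∃ c : Pt n → (Fin (r + 1) → P.State),
    c = fun x (j : Fin (r + 1)) => V1_it P x P.start (j * s) := ⟨_, rfl⟩
  have hfalse : ∀ x : Pt n, (∃ l, P.Comp x l false) → P.node (c x (Fin.last r)) = Sum.inr false := by
    rintro x ⟨l', hl'⟩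
    obtain ⟨l, b, h1, h2, -⟩ := hP' x
    have h3 := V1_comp P x h2 (t := max (r * s) l'.length) (h1.trans (le_max_left _ _))
    have h4 := V1_comp P x hl' (t := max (r * s) l'.length) (le_max_right _ _)
    rw [h3] at h4
    have h5 : b = false := by simpa using h4
    subst h5
    rw [hc]
    exact V1_comp P x h2 (by simpa using h1)
  obtain ⟨F, hF⟩ : ∃ F : Finset (Pt n), F = univ.filter (fun x => ∃ l, P.Comp x l false) := ⟨_, rfl⟩
  rw [← hF]
  have key : ∀ κ : Fin (r + 1) → P.State,
      |((∑ x ∈ F.filter (fun x => c x = κ), ψ x : ℤ) : ℝ)| ≤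
        ε * (F.filter (fun x => c x = κ)).card + δ := by
    intro κ
    by_cases hκ : κ 0 = P.start ∧ P.node (κ (Fin.last r)) = Sum.inr false
    · obtain ⟨B, hBr, hBK⟩ := blocks_all P r s hP' κ hκ.1 hκ.2
      have hset : F.filter (fun x => c x = κ) = B.K := by
        ext x
        simp only [hF, mem_filter, mem_univ, true_and, hBK]
        constructor
        · rintro ⟨_, h3⟩
          intro i
          rw [← h3, hc]
        · intro h1
          have h3 : c x = κ := by
            rw [hc]; funext i; exact h1 i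
          refine ⟨?_, h3⟩
          obtain ⟨l, w, h4, h5⟩ := V1_comp_of P x false _ P.start
            (by rw [h1 (Fin.last r)]; exact hκ.2)
          exact ⟨l, w, h4, h5⟩
      rw [hset]
      exact hB s hs2 B hBr
    · have hempty : F.filter (fun x => c x = κ) = ∅ := by
        rw [Finset.filter_eq_empty_iff]
        intro x hx hcx
        rw [hF] at hx
        simp only [mem_filter, mem_univ, true_and] at hx
        apply hκ
        constructor
        · rw [← hcx, hc]
          change V1_it P x P.start (((0 : Fin (r + 1)) : ℕ) * s) = _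
          rw [Fin.val_zero, zero_mul, V1_it_zero]
        · rw [← hcx]
          exact hfalse x hx
      rw [hempty]
      simpa using hδ
  have hfib : ∀ φ : Pt n → ℤ, ∑ x ∈ F, φ x = ∑ κ : Fin (r + 1) → P.State,
      ∑ x ∈ F.filter (fun x => c x = κ), φ x := by
    intro φ
    exact (Finset.sum_fiberwise_of_maps_to (fun x _ => Finset.mem_univ _) φ).symm
  have hcardF : (F.card : ℝ) = ∑ κ : Fin (r + 1) → P.State,
      ((F.filter (fun x => c x = κ)).card : ℝ) := by
    have := hfib (fun _ => 1)
    simp only [sum_const, nsmul_eq_mul, mul_one] at this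
    exact_mod_cast this
  rw [hfib ψ, hcardF]
  push_cast
  refine (Finset.abs_sum_le_sum_abs _ _).trans ?_
  calc ∑ κ : Fin (r + 1) → P.State, |∑ x ∈ F.filter (fun x => c x = κ), (ψ x : ℝ)|
      ≤ ∑ κ : Fin (r + 1) → P.State, (ε * (F.filter (fun x => c x = κ)).card + δ) := by
        apply Finset.sum_le_sum
        intro κ _
        have := key κ
        push_cast at this
        exact this
    _ = _ := by
        rw [Finset.sum_add_distrib, ← Finset.mul_sum, Finset.sum_const, Finset.card_univ,
          nsmul_eq_mul, Fintype.card_fun, Fintype.card_fin]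
        push_cast
        ring

end Pool.Agent.W902.Z
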