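import Pool.Agent.W902.Z.Fn
import Pool.Agent.W902.Prog

/-!
# The zero-error programs
-/

set_option autoImplicit false
set_option linter.unusedSectionVars false

open Finset

namespace Pool.Agent.W902.Z

open Pool.Agent.H554R2.Sem Pool.Agent.H554R2.Coin Pool.Agent.H554R2.Lin Pool.Agent.H554R2.Rnd

/-- programs for functions of sums over the blocks -/
theorem programO {n B : ℕ} {𝔸 γ : Type} [Fintype 𝔸] [AddCommMonoid 𝔸] (π : Fin n → Fin n)
    (hπ : ∀ c, (univ.filter (fun v => π v = c)).card ≤ B) (F : Fin n → Pt n → 𝔸)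
    (hF : ∀ c, ∀ x y : Pt n, (∀ i, π i = c → x i = y i) → F c x = F c y) (h : 𝔸 → γ)
    (hn : 1 ≤ n) :
    ∃ (U : BP (Fin n) γ) (l : List (Fin n)),
      Fintype.card U.State ≤ (Fintype.card 𝔸 * 2 ^ (B + 1) + 1) * n ∧ l.Nodup ∧
        ∀ x : Pt n, U.Comp x l (h (∑ c, F c x)) := by
  obtain ⟨U, l, h1, h2, -, h3⟩ := Pool.Agent.W902.Prog.ind π F hF univ
  refine ⟨Pool.Agent.W902.Prog.map U h, l, ?_, h2,
    fun x => Pool.Agent.W902.Prog.map_comp U h x l _ (h3 x)⟩
  have e : Fintype.card (Pool.Agent.W902.Prog.map U h).State = Fintype.card U.State :=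
    Fintype.card_congr (Equiv.refl _)
  rw [e]
  refine h1.trans ?_
  have h4 : ∑ c : Fin n, 2 ^ (univ.filter (fun v => π v = c)).card ≤ n * 2 ^ B := by
    calc ∑ c : Fin n, 2 ^ (univ.filter (fun v => π v = c)).card ≤ ∑ _c : Fin n, 2 ^ B :=
          Finset.sum_le_sum fun c _ => Nat.pow_le_pow_right (by norm_num) (hπ c)
      _ = n * 2 ^ B := by rw [Finset.sum_const, Finset.card_univ, Fintype.card_fin, smul_eq_mul]
  calc Fintype.card 𝔸 * (2 * ∑ c : Fin n, 2 ^ (univ.filter (fun v => π v = c)).card) + 1
      ≤ Fintype.card 𝔸 * (2 * (n * 2 ^ B)) + n :=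
        Nat.add_le_add (Nat.mul_le_mul_left _ (Nat.mul_le_mul_left _ h4)) hn
    _ = (Fintype.card 𝔸 * 2 ^ (B + 1) + 1) * n := by rw [pow_succ]; ring

/-- the sum of the products as an element of the field -/
theorem qr_eq {n G : ℕ} (π : Fin n → Fin G) (h : Fin n → Fin n → Bool) (x : Pt n) :
    qr π h x = decide ((∑ u, ∑ v, if π u = π v ∧ h u v = true ∧ x u = true ∧ x v = true then
      (1 : ZMod 2) else 0) = 1) := by
  unfold qr
  congr 1
  rw [← ZMod.natCast_eq_one_iff_odd, Finset.card_filter, Fintype.sum_prod_type]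
  push_cast
  rfl

section ze

variable {n M K0 D : ℕ} [NeZero M]

open Classical in
/-- the answer of the program `z` -/
noncomputable def ans {γ : Type} [DecidableEq γ] (e : Fin D ≃ {W : Finset (ZMod M) // W.card = K0})
    (cl : Fin D → γ) (z : ZMod M) (y : Fin D → Bool) : Option Bool :=
  if ∃ d0, ∀ d, cl d = cl d0 → z ∉ (e d).1 ∧ y d = true then some true else
    if ∀ d0, ∃ d, cl d = cl d0 ∧ z ∉ (e d).1 ∧ y d = false then some false else none

theorem ans_congr {γ : Type} [DecidableEq γ] (e : Fin D ≃ {W : Finset (ZMod M) // W.card = K0})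
    (cl : Fin D → γ) (z : ZMod M) (y y' : Fin D → Bool) (h : ∀ d, z ∉ (e d).1 → y d = y' d) :
    ans e cl z y = ans e cl z y' := by
  unfold ans
  have h1 : (∃ d0, ∀ d, cl d = cl d0 → z ∉ (e d).1 ∧ y d = true) =
      (∃ d0, ∀ d, cl d = cl d0 → z ∉ (e d).1 ∧ y' d = true) := by
    apply propext
    apply exists_congr; intro d0
    apply forall_congr'; intro d
    apply imp_congr_right; intro _
    apply and_congr_right; intro hz
    rw [h d hz]
  have h2 : (∀ d0, ∃ d, cl d = cl d0 ∧ z ∉ (e d).1 ∧ y d = false) =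
      (∀ d0, ∃ d, cl d = cl d0 ∧ z ∉ (e d).1 ∧ y' d = false) := by
    apply propext
    apply forall_congr'; intro d0
    apply exists_congr; intro d
    apply and_congr_right; intro _
    apply and_congr_right; intro hz
    rw [h d hz]
  simp only [h1, h2]

/-- the programs do not err -/
theorem ans_sound {γ : Type} [DecidableEq γ] (e : Fin D ≃ {W : Finset (ZMod M) // W.card = K0})
    (cl : Fin D → γ) (z : ZMod M) (y : Fin D → Bool) (b : Bool) (h : ans e cl z y = some b) :
    Fz cl y = b := by
  unfold ans at h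
  split_ifs at h with h1 h2
  · have hb : b = true := by simpa using h.symm
    rw [hb]
    obtain ⟨d0, hd0⟩ := h1
    simp only [Fz, decide_eq_true_eq]
    exact ⟨d0, fun d hd => (hd0 d hd).2⟩
  · have hb : b = false := by simpa using h.symm
    rw [hb]
    simp only [Fz, decide_eq_false_iff_not]
    rintro ⟨d0, hd0⟩
    obtain ⟨d, h3, -, h4⟩ := h2 d0
    rw [hd0 d h3] at h4
    exact absurd h4 (by decide)

open Classical in
/-- the programs answer often -/
theorem ans_often {G R : ℕ} (e : Fin D ≃ {W : Finset (ZMod M) // W.card = K0})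
    (g : ZMod M → Fin G) (hg : ∀ i, (univ.filter fun z => g z = i).card ≤ R) (hR : 2 ^ G ≤ R)
    (y : Fin D → Bool) :
    (univ.filter fun z => ans e (fun d => (e d).1.image g) z y = none).card ≤ K0 * R := by
  obtain ⟨cl, hcl⟩ : ∃ cl : Fin D → Finset (Fin G), cl = fun d => (e d).1.image g := ⟨_, rfl⟩
  rw [← hcl]
  by_cases hF : ∃ d0, ∀ d, cl d = cl d0 → y d = true
  · obtain ⟨d0, hd0⟩ := hF
    have h1 : (univ.filter fun z => ans e cl z y = none) ⊆
        (cl d0).biUnion fun i => univ.filter fun z => g z = i := by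
      intro z hz
      rw [mem_filter] at hz
      rw [mem_biUnion]
      by_contra hcon
      push Not at hcon
      have h2 : g z ∉ cl d0 := by
        intro h3
        exact hcon (g z) h3 (mem_filter.2 ⟨mem_univ _, rfl⟩)
      have h3 : ans e cl z y = some true := by
        unfold ans
        rw [if_pos]
        refine ⟨d0, fun d hd => ⟨?_, hd0 d hd⟩⟩
        intro h4
        apply h2
        rw [← hd, hcl]
        exact mem_image_of_mem g h4
      rw [h3] at hz
      exact absurd hz.2 (by simp)
    calc _ ≤ _ := Finset.card_le_card h1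
      _ ≤ ∑ i ∈ cl d0, (univ.filter fun z => g z = i).card := Finset.card_biUnion_le
      _ ≤ ∑ _i ∈ cl d0, R := Finset.sum_le_sum fun i _ => hg i
      _ = (cl d0).card * R := by rw [Finset.sum_const, smul_eq_mul]
      _ ≤ K0 * R := by
        apply Nat.mul_le_mul_right
        rw [hcl]
        exact Finset.card_image_le.trans (le_of_eq (e d0).2)
  · push Not at hF
    have h0 : ∀ I : Finset (Fin G), ∃ W : Finset (ZMod M), W.card ≤ K0 ∧
        (I ∈ univ.image cl → ∃ d, cl d = I ∧ W = (e d).1 ∧ y d = false) := by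
      intro I
      by_cases hI : I ∈ univ.image cl
      · obtain ⟨d0, -, hd0⟩ := mem_image.1 hI
        obtain ⟨d, h1, h2⟩ := hF d0
        refine ⟨(e d).1, le_of_eq (e d).2, fun _ => ⟨d, by rw [h1, hd0], rfl, by simpa using h2⟩⟩
      · exact ⟨∅, by simp, fun h => absurd h hI⟩
    choose W hW1 hW2 using h0
    have h1 : (univ.filter fun z => ans e cl z y = none) ⊆
        (univ : Finset (Finset (Fin G))).biUnion W := by
      intro z hz
      rw [mem_filter] at hz
      rw [mem_biUnion]
      by_contra hcon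
      push Not at hcon
      have h3 : ∃ b, ans e cl z y = some b := by
        unfold ans
        split_ifs with h4 h5
        · exact ⟨true, rfl⟩
        · exact ⟨false, rfl⟩
        · exfalso
          apply h5
          intro d0
          obtain ⟨d, h6, h7, h8⟩ := hW2 (cl d0) (mem_image_of_mem cl (mem_univ d0))
          refine ⟨d, h6, ?_, h8⟩
          rw [← h7]
          exact hcon (cl d0) (mem_univ _)
      obtain ⟨b, hb⟩ := h3
      rw [hb] at hz
      exact absurd hz.2 (by simp)
    calc _ ≤ _ := Finset.card_le_card h1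
      _ ≤ ∑ I : Finset (Fin G), (W I).card := Finset.card_biUnion_le
      _ ≤ ∑ _I : Finset (Fin G), K0 := Finset.sum_le_sum fun I _ => hW1 I
      _ = 2 ^ G * K0 := by
        rw [Finset.sum_const, smul_eq_mul, card_univ, Fintype.card_finset, Fintype.card_fin]
      _ ≤ K0 * R := by
        rw [mul_comm]
        exact Nat.mul_le_mul_left _ hR

/-- the programs -/
theorem ans_prog {γ : Type} [DecidableEq γ] {Bd : ℕ} (hn : 1 ≤ n)
    (e : Fin D ≃ {W : Finset (ZMod M) // W.card = K0}) (cl : Fin D → γ)
    (lab : Finset (ZMod M) → Fin n → Fin n)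
    (hmono : ∀ W W', W ⊆ W' → ∀ i j, lab W i = lab W j → lab W' i = lab W' j)
    (hBd : ∀ z b, (univ.filter fun i => lab (univ.erase z) i = b).card ≤ Bd)
    (h : Fin D → Fin n → Fin n → Bool) (t : Fin D → Bool) (z : ZMod M) :
    ∃ (U : BP (Fin n) (Option Bool)) (l : List (Fin n)),
      Fintype.card U.State ≤ (2 ^ D * 2 ^ (Bd + 1) + 1) * n ∧ l.Nodup ∧
        ∀ x : Pt n, U.Comp x l (ans e cl z fun d => xor (qr (lab (e d).1) (h d) x) (t d)) := by
  classical
  obtain ⟨U, l, h1, h2, h3⟩ := programO (𝔸 := Fin D → ZMod 2) (lab (univ.erase z)) (hBd z)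
    (fun b x d => if z ∉ (e d).1 then ∑ u, ∑ v, if lab (univ.erase z) u = b ∧
      lab (e d).1 u = lab (e d).1 v ∧ h d u v = true ∧ x u = true ∧ x v = true then
      (1 : ZMod 2) else 0 else 0) (by
      intro b x x' hx
      ext1 d
      by_cases hz : z ∉ (e d).1
      · simp only [if_pos hz]
        apply Finset.sum_congr rfl
        intro u _
        apply Finset.sum_congr rfl
        intro v _
        by_cases hb : lab (univ.erase z) u = b
        · by_cases hl : lab (e d).1 u = lab (e d).1 v
          · have hsub : (e d).1 ⊆ univ.erase z := by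
              intro i hi
              rw [mem_erase]
              exact ⟨fun h => hz (by rw [← h]; exact hi), mem_univ _⟩
            have hb' : lab (univ.erase z) v = b := by
              rw [← hmono _ _ hsub u v hl]; exact hb
            rw [hx u hb, hx v hb']
          · simp only [hl, false_and, and_false, if_false]
        · simp only [hb, false_and, if_false]
      · simp only [if_neg hz])
    (fun a => ans e cl z fun d => xor (decide (a d = 1)) (t d)) hn
  refine ⟨U, l, ?_, h2, fun x => ?_⟩
  · have e1 : Fintype.card (Fin D → ZMod 2) = 2 ^ D := by simp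
    rw [e1] at h1
    exact h1
  · have h4 := h3 x
    have h5 : ans e cl z (fun d => xor (decide ((∑ b, fun d => if z ∉ (e d).1 then
        ∑ u, ∑ v, if lab (univ.erase z) u = b ∧
      lab (e d).1 u = lab (e d).1 v ∧ h d u v = true ∧ x u = true ∧ x v = true then
      (1 : ZMod 2) else 0 else 0) d = 1)) (t d)) =
      ans e cl z (fun d => xor (qr (lab (e d).1) (h d) x) (t d)) := by
      apply ans_congr
      intro d hz
      rw [qr_eq, Finset.sum_apply]
      simp only [if_pos hz]
      have h6 : ∑ b, ∑ u, ∑ v, (if lab (univ.erase z) u = b ∧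
        lab (e d).1 u = lab (e d).1 v ∧ h d u v = true ∧ x u = true ∧ x v = true then
        (1 : ZMod 2) else 0) = ∑ u, ∑ v, (if
        lab (e d).1 u = lab (e d).1 v ∧ h d u v = true ∧ x u = true ∧ x v = true then
        (1 : ZMod 2) else 0) := by
        rw [Finset.sum_comm]
        apply Finset.sum_congr rfl
        intro u _
        rw [Finset.sum_comm]
        apply Finset.sum_congr rfl
        intro v _
        simp only [ite_and]
        rw [Finset.sum_ite_eq, if_pos (mem_univ _)]
      rw [h6]
    rw [h5] at h4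
    exact h4

end ze

end Pool.Agent.W902.Z
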