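import Pool.Agent.W902.Z.Cov
import Pool.Agent.W902.Z.Coef
import Pool.Agent.W902.Z.Zer
import Pool.Agent.W902.Z.Low
import Pool.Agent.H554R2.Rnd.Final

/-!
# Zero-error programs against deterministic programs
-/

set_option autoImplicit false

open Finset

namespace Pool.Agent.W902.Z

open Pool.Agent.H554R2.Sem Pool.Agent.H554R2.Coin Pool.Agent.H554R2.Lin Pool.Agent.H554R2.Rnd

open Classical in
/-- `f` has zero-error programs -/
def ZeroErr {n : ℕ} (f : Pt n → Bool) (D e : ℕ) : Prop :=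
  ∃ (m : ℕ) (q : Fin m → Pt n → Option Bool), 0 < m ∧ m ≤ D ∧
    (∀ j, ∃ (U : BP (Fin n) (Option Bool)) (l : List (Fin n)), Fintype.card U.State ≤ D * n ∧
      l.Nodup ∧ ∀ x : Pt n, U.Comp x l (q j x)) ∧
    (∀ x j b, q j x = some b → f x = b) ∧
    (∀ x, e * (univ.filter fun j => q j x = none).card ≤ m)

open Classical in
/-- small programs fail on a constant part of the inputs -/
def HardAvg {n : ℕ} (f : Pt n → Bool) (D t : ℕ) : Prop :=
  ∀ P : BP (Fin n) Bool, Fintype.card P.State < 2 ^ (n / D) →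
    2 ^ n ≤ D * (univ.filter fun x => ¬ ∃ l, P.Comp x l (f x) ∧ l.length ≤ t).card

theorem ZeroErr.mono {n : ℕ} {f : Pt n → Bool} {D D' e e' : ℕ} (h : ZeroErr f D e) (hD : D ≤ D')
    (he : e' ≤ e) : ZeroErr f D' e' := by
  obtain ⟨m, q, h0, h1, h2, h3, h4⟩ := h
  refine ⟨m, q, h0, h1.trans hD, fun j => ?_, h3, fun x => ?_⟩
  · obtain ⟨U, l, a1, a2, a3⟩ := h2 j
    exact ⟨U, l, a1.trans (Nat.mul_le_mul_right _ hD), a2, a3⟩
  · exact (Nat.mul_le_mul_right _ he).trans (h4 x)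

open Classical in
theorem HardAvg.mono {n : ℕ} {f : Pt n → Bool} {D D' t t' : ℕ} (h : HardAvg f D t) (hD0 : 0 < D)
    (hD : D ≤ D') (ht : t' ≤ t) : HardAvg f D' t' := by
  intro P hP
  have h1 : 2 ^ (n / D') ≤ 2 ^ (n / D) :=
    Nat.pow_le_pow_right (by norm_num) (Nat.div_le_div_left hD hD0)
  refine (h P (hP.trans_le h1)).trans (Nat.mul_le_mul hD (Finset.card_le_card ?_))
  intro x hx
  rw [mem_filter] at hx ⊢
  refine ⟨hx.1, fun h2 => hx.2 ?_⟩
  obtain ⟨l, hl, hl2⟩ := h2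
  exact ⟨l, hl, hl2.trans ht⟩

theorem chi_abs {n G D : ℕ} (π : Fin D → Fin n → Fin G) (h : Fin D → Fin n → Fin n → Bool)
    (x : Pt n) : |chi π h univ x| = 1 := by
  unfold chi
  rw [Finset.abs_prod]
  simp only [sgn_abs, Finset.prod_const_one]

/-- the size of the programs -/
theorem big_exp (k r N1 A : ℕ) (hN1 : 1 ≤ N1) : ∃ D : ℕ, 1 ≤ D ∧ ∀ n ≥ D, ∀ S : ℕ,
    S ≤ 2 ^ (n / D) → 2 ^ A * (16 * (S * (k * n + 2) + n + 3)) ^ (r + 1) ≤ 2 ^ (n / N1) := by
  obtain ⟨c, hc⟩ : ∃ c, c = N1 * (4 * (r + 1)) := ⟨_, rfl⟩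
  have hc1 : 1 ≤ c := by rw [hc]; exact Nat.mul_pos hN1 (by omega)
  obtain ⟨N2, hN2⟩ := exp_large c hc1 (16 * (k + 5))
  refine ⟨c + N2 + c * A, by omega, ?_⟩
  intro n hn S hS
  obtain ⟨u, hu⟩ : ∃ u, u = n / c := ⟨_, rfl⟩
  have h1 := hN2 n (by omega)
  rw [← hu] at h1
  have hS' : S ≤ 2 ^ u := by
    refine hS.trans (Nat.pow_le_pow_right (by norm_num) ?_)
    rw [hu]
    exact Nat.div_le_div_left (by omega) hc1
  have hA : A ≤ u := by
    rw [hu, Nat.le_div_iff_mul_le hc1, mul_comm]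
    omega
  have h2 : 16 * (S * (k * n + 2) + n + 3) ≤ 2 ^ (2 * u) := by
    have h3 : 1 ≤ 2 ^ u := Nat.one_le_two_pow
    calc 16 * (S * (k * n + 2) + n + 3) ≤ 16 * (2 ^ u * (k * n + 2) + 2 ^ u * (n + 3)) := by
          have h4 := Nat.mul_le_mul_right (k * n + 2) hS'
          have h5 := Nat.mul_le_mul_right (n + 3) h3
          omega
      _ = 2 ^ u * (16 * (k * n + n + 5)) := by ring
      _ ≤ 2 ^ u * (16 * (k + 5) * (n + 1)) := by
          apply Nat.mul_le_mul_left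
          nlinarith
      _ ≤ 2 ^ u * 2 ^ u := Nat.mul_le_mul_left _ h1
      _ = 2 ^ (2 * u) := by rw [← pow_add]; congr 1; ring
  have h6 : 4 * (r + 1) * u ≤ n / N1 := by
    rw [hu, hc, ← Nat.div_div_eq_div_mul]
    exact Nat.mul_div_le _ _
  calc 2 ^ A * (16 * (S * (k * n + 2) + n + 3)) ^ (r + 1) ≤ 2 ^ u * (2 ^ (2 * u)) ^ (r + 1) :=
        Nat.mul_le_mul (Nat.pow_le_pow_right (by norm_num) hA) (Nat.pow_le_pow_left h2 _)
    _ = 2 ^ (u + 2 * u * (r + 1)) := by rw [← pow_mul, ← pow_add]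
    _ ≤ 2 ^ (n / N1) := by
        apply Nat.pow_le_pow_right (by norm_num)
        refine le_trans ?_ h6
        nlinarith

open Classical in
/-- the inputs on which the program is wrong -/
theorem err_bound {n : ℕ} (ψ : Pt n → ℤ) (hψ : ∀ x, |ψ x| ≤ 1) (f : Pt n → Bool) (t : ℕ)
    (P U : BP (Fin n) Bool)
    (hU : ∀ x l b, P.Comp x l b → l.length ≤ t → ∃ l', U.Comp x l' b) :
    |∑ x, ψ x * (if f x = false then (1 : ℤ) else 0)| ≤
      |∑ x ∈ univ.filter (fun x => ∃ l, U.Comp x l false), ψ x| +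
        (univ.filter fun x => ¬ ∃ l, P.Comp x l (f x) ∧ l.length ≤ t).card := by
  have h1 : ∑ x, ψ x * (if f x = false then (1 : ℤ) else 0) =
      ∑ x ∈ univ.filter (fun x => ∃ l, U.Comp x l false), ψ x +
      ∑ x, ψ x * ((if f x = false then (1 : ℤ) else 0) -
        (if ∃ l, U.Comp x l false then 1 else 0)) := by
    rw [Finset.sum_filter, ← Finset.sum_add_distrib]
    apply Finset.sum_congr rfl
    intro x _
    by_cases h : ∃ l, U.Comp x l false
    · rw [if_pos h, if_pos h]; ring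
    · rw [if_neg h, if_neg h]; ring
  rw [h1]
  refine (abs_add_le _ _).trans (add_le_add le_rfl ?_)
  rw [Finset.card_filter]
  push_cast
  refine (Finset.abs_sum_le_sum_abs _ _).trans (Finset.sum_le_sum fun x _ => ?_)
  rw [abs_mul]
  by_cases hx : ∃ l, P.Comp x l (f x) ∧ l.length ≤ t
  · rw [if_neg (not_not.2 hx)]
    obtain ⟨l, hl, hl2⟩ := hx
    obtain ⟨l', hl'⟩ := hU x l _ hl hl2
    have h2 : (∃ l, U.Comp x l false) ↔ f x = false := by
      constructor
      · rintro ⟨l2, h3⟩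
        exact R25_comp_det U x hl' h3
      · intro h3
        rw [h3] at hl'
        exact ⟨l', hl'⟩
    by_cases h3 : f x = false
    · rw [if_pos h3, if_pos (h2.2 h3)]; simp
    · rw [if_neg h3, if_neg fun h4 => h3 (h2.1 h4)]; simp
  · rw [if_pos hx]
    have h4 : |(if f x = false then (1 : ℤ) else 0) -
        (if ∃ l, U.Comp x l false then 1 else 0)| ≤ 1 := by
      split_ifs <;> simp
    calc |ψ x| * _ ≤ 1 * 1 := mul_le_mul (hψ x) h4 (abs_nonneg _) (by norm_num)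
      _ = 1 := by norm_num

open Classical in
theorem fixedZ (k e : ℕ) : ∃ D : ℕ, 0 < D ∧ ∀ n ≥ D, ∃ f : Pt n → Bool, ZeroErr f D e ∧
    HardAvg f D (k * n) := by
  obtain ⟨k1, hk1⟩ : ∃ k1, k1 = k + 2 := ⟨_, rfl⟩
  obtain ⟨K0, hK0⟩ : ∃ K0, K0 = 2 * k1 := ⟨_, rfl⟩
  obtain ⟨G, hG⟩ : ∃ G, G = (e + 1) * K0 := ⟨_, rfl⟩
  obtain ⟨R, hR⟩ : ∃ R, R = 2 ^ G := ⟨_, rfl⟩
  obtain ⟨M, hM⟩ : ∃ M, M = G * R := ⟨_, rfl⟩
  have hK04 : 4 ≤ K0 := by omega
  have hGK : K0 ≤ G := by rw [hG]; exact Nat.le_mul_of_pos_left _ (by omega)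
  have hR1 : 1 ≤ R := by rw [hR]; exact Nat.one_le_two_pow
  have hMG : G ≤ M := by rw [hM]; exact Nat.le_mul_of_pos_right _ hR1
  have hM3 : 3 ≤ M := by omega
  have hkM : 2 * k1 ≤ M := by omega
  have : NeZero M := ⟨by omega⟩
  obtain ⟨D, hD⟩ : ∃ D, D = Fintype.card {W : Finset (ZMod M) // W.card = 2 * k1} := ⟨_, rfl⟩
  have hD1 : 1 ≤ D := by
    rw [hD]
    obtain ⟨W, -, hW⟩ := Finset.exists_superset_card_eq (s := (∅ : Finset (ZMod M))) (n := 2 * k1)
      (by simp) (by rw [ZMod.card]; exact hkM)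
    exact Fintype.card_pos_iff.2 ⟨⟨W, hW⟩⟩
  let ev : Fin D ≃ {W : Finset (ZMod M) // W.card = 2 * k1} :=
    (Fintype.equivFinOfCardEq hD.symm).symm
  obtain ⟨lam, hlam⟩ : ∃ lam, lam = 8 * 2 ^ D := ⟨_, rfl⟩
  have hlam1 : 1 ≤ lam := by
    rw [hlam]
    have : 1 ≤ 2 ^ D := Nat.one_le_two_pow
    omega
  obtain ⟨I, hI⟩ : ∃ I, I = lam * (2 * k1) := ⟨_, rfl⟩
  have hI1 : 1 ≤ I := by rw [hI]; exact Nat.mul_pos hlam1 (by omega)
  obtain ⟨Q, r, N, Bd, hQ, hr, hN, hcov⟩ := cover k1 lam I (by omega) hlam1 hI1 M hM3 hkM D hD1 ev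
  obtain ⟨C, hC⟩ : ∃ C, C = 224 * D := ⟨_, rfl⟩
  have hC1 : 1 ≤ C := by omega
  rw [← hC] at hcov
  obtain ⟨N1, hN1⟩ : ∃ N1, N1 = N + 64 * C * Q := ⟨_, rfl⟩
  have hN11 : 1 ≤ N1 := by omega
  have hCQ : 1 ≤ 64 * C * Q := Nat.mul_pos (by omega) hQ
  obtain ⟨D1, hD11, hexp⟩ := big_exp k r N1 (D + 3) hN11
  -- the groups
  have hgl : ∀ z : ZMod M, z.val / R < G := by
    intro z
    rw [Nat.div_lt_iff_lt_mul hR1, ← hM]
    exact ZMod.val_lt z
  let g : ZMod M → Fin G := fun z => ⟨z.val / R, hgl z⟩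
  have hg : ∀ i, (univ.filter fun z => g z = i).card ≤ R := by
    intro i
    rw [← Finset.card_range R]
    apply Finset.card_le_card_of_injOn (fun z : ZMod M => z.val % R)
    · intro z _
      rw [mem_coe, mem_range]
      exact Nat.mod_lt _ hR1
    · intro z hz z' hz' h
      rw [mem_coe, mem_filter] at hz hz'
      have h1 : z.val / R = z'.val / R := by
        have := hz.2.trans hz'.2.symm
        exact (Fin.mk.inj_iff.1 this)
      have h2 : z.val % R = z'.val % R := h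
      apply ZMod.val_injective M
      rw [← Nat.div_add_mod z.val R, ← Nat.div_add_mod z'.val R, h1, h2]
  let cl : Fin D → Finset (Fin G) := fun d => (ev d).1.image g
  refine ⟨M + (2 ^ D * 2 ^ (Bd + 1) + 1) + N + r + D1 + 2 * 2 ^ D, by omega, ?_⟩
  intro n hn
  have hn1 : 1 ≤ n := by omega
  obtain ⟨lab, hmono, hBd, hblk⟩ := hcov n (by omega)
  obtain ⟨h, hh⟩ := coefs C Q D n hC1 hQ hn1 (fun d => lab (ev d).1)
  obtain ⟨t, ht⟩ := shift cl (fun x d => qr (lab (ev d).1) (h d) x)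
  refine ⟨fun x => Fz cl (fun d => xor (qr (lab (ev d).1) (h d) x) (t d)), ?_, ?_⟩
  · -- the zero-error programs
    let E : Fin M ≃ ZMod M := (ZMod.finEquiv M).toEquiv
    refine ⟨M, fun j x => ans ev cl (E j) fun d => xor (qr (lab (ev d).1) (h d) x) (t d),
      by omega, by omega, ?_, ?_, ?_⟩
    · intro j
      obtain ⟨U, l, h1, h2, h3⟩ := ans_prog hn1 ev cl lab hmono hBd h t (E j)
      exact ⟨U, l, h1.trans (Nat.mul_le_mul_right _ (by omega)), h2, h3⟩
    · intro x j b hb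
      exact ans_sound ev cl (E j) _ b hb
    · intro x
      have h1 := ans_often ev g hg hR.symm.le
        (fun d => xor (qr (lab (ev d).1) (h d) x) (t d))
      have h2 : (univ.filter fun j : Fin M => ans ev cl (E j)
          (fun d => xor (qr (lab (ev d).1) (h d) x) (t d)) = none).card =
          (univ.filter fun z : ZMod M => ans ev cl z
          (fun d => xor (qr (lab (ev d).1) (h d) x) (t d)) = none).card := by
        apply Finset.card_bij (fun j _ => E j)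
        · intro j hj
          rw [mem_filter] at hj ⊢
          exact ⟨mem_univ _, hj.2⟩
        · intro a _ b _ hab
          exact E.injective hab
        · intro z hz
          rw [mem_filter] at hz
          refine ⟨E.symm z, ?_, E.apply_symm_apply z⟩
          rw [mem_filter]
          refine ⟨mem_univ _, ?_⟩
          rw [E.apply_symm_apply]
          exact hz.2
      rw [h2]
      calc e * _ ≤ e * (2 * k1 * R) := Nat.mul_le_mul_left _ h1
        _ = (e * K0) * R := by rw [hK0]; ring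
        _ ≤ G * R := by
          apply Nat.mul_le_mul_right
          rw [hG]
          exact Nat.mul_le_mul_right _ (by omega)
        _ = M := hM.symm
  · -- the lower bound
    intro P hP
    obtain ⟨U, hU1, hU2, hU3⟩ := tot k P
    obtain ⟨ψ, hψ⟩ : ∃ ψ : Pt n → ℤ, ψ = chi (fun d => lab (ev d).1) h univ := ⟨_, rfl⟩
    have hψ1 : ∀ x, |ψ x| ≤ 1 := by
      intro x
      rw [hψ]
      exact (chi_abs _ _ _).le
    obtain ⟨δ, hδ⟩ : ∃ δ : ℝ, δ = 2 * 2 ^ n / 2 ^ (n / N1) := ⟨_, rfl⟩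
    have hδ0 : 0 ≤ δ := by rw [hδ]; positivity
    have hε : (2 * (k1 : ℝ) / I + 1 / lam) = 1 / (4 * 2 ^ D) := by
      have hk0 : (0 : ℝ) < k1 := by
        have : 0 < k1 := by omega
        exact_mod_cast this
      rw [hI, hlam]
      push_cast
      field_simp
      norm_num
    have hblk' : ∀ s, r * s ≤ ((k + 1) + 1) * n → ∀ B : Blk n r s, AllRead B →
        |((∑ x ∈ B.K, ψ x : ℤ) : ℝ)| ≤ (1 / (4 * 2 ^ D)) * B.K.card + δ := by
      intro s hs B hB
      obtain ⟨T, hT⟩ := hblk s (by rw [hk1]; exact hs) B hB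
      have h1 := all_classes hC1 hQ B hB T (fun d => lab (ev d).1) h hh
      rw [← hψ] at h1
      have h2 : |((∑ x ∈ B.K.filter (fun x => Gx C Q (fun d => lab (ev d).1) B T x), ψ x : ℤ) : ℝ)|
          ≤ 2 ^ n / 2 ^ (n / (64 * C * Q)) := by
        rw [le_div_iff₀ (by positivity)]
        exact_mod_cast h1
      have h3 : |((∑ x ∈ B.K.filter (fun x => ¬ Gx C Q (fun d => lab (ev d).1) B T x), ψ x : ℤ) :
          ℝ)| ≤ ((B.K.filter fun x => ¬ Gx C Q (fun d => lab (ev d).1) B T x).card : ℝ) := by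
        have h4 : |∑ x ∈ B.K.filter (fun x => ¬ Gx C Q (fun d => lab (ev d).1) B T x), ψ x| ≤
            ((B.K.filter fun x => ¬ Gx C Q (fun d => lab (ev d).1) B T x).card : ℤ) := by
          refine (Finset.abs_sum_le_sum_abs _ _).trans ?_
          refine (Finset.sum_le_sum fun x _ => hψ1 x).trans (le_of_eq ?_)
          simp
        exact_mod_cast h4
      have h5 := Finset.sum_filter_add_sum_filter_not B.K
        (fun x => Gx C Q (fun d => lab (ev d).1) B T x) ψ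
      have h6 : (2 : ℝ) ^ n / 2 ^ (n / (64 * C * Q)) ≤ 2 ^ n / 2 ^ (n / N1) := by
        apply div_le_div_of_nonneg_left (by positivity) (by positivity)
        apply pow_le_pow_right₀ (by norm_num)
        exact Nat.div_le_div_left (by omega) hCQ
      have h7 : (2 : ℝ) ^ n / 2 ^ (n / N) ≤ 2 ^ n / 2 ^ (n / N1) := by
        apply div_le_div_of_nonneg_left (by positivity) (by positivity)
        apply pow_le_pow_right₀ (by norm_num)
        exact Nat.div_le_div_left (by omega) hN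
      rw [hε] at hT
      have h8 : δ = 2 ^ n / 2 ^ (n / N1) + 2 ^ n / 2 ^ (n / N1) := by rw [hδ]; ring
      rw [← h5]
      push_cast at h2 h3 ⊢
      calc _ ≤ _ := abs_add_le _ _
        _ ≤ 2 ^ n / 2 ^ (n / (64 * C * Q)) +
            ((B.K.filter fun x => ¬ Gx C Q (fun d => lab (ev d).1) B T x).card : ℝ) :=
          add_le_add h2 h3
        _ ≤ _ := by linarith
    have hdet := det_sum (k + 1) r hr (by omega) ψ (1 / (4 * 2 ^ D)) δ hδ0 hblk' U hU2
    have herr := err_bound ψ hψ1 (fun x => Fz cl (fun d => xor (qr (lab (ev d).1) (h d) x) (t d)))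
      (k * n) P U hU3
    obtain ⟨X, hX⟩ : ∃ X, X = (univ.filter fun x => ¬ ∃ l, P.Comp x l
      ((fun x => Fz cl (fun d => xor (qr (lab (ev d).1) (h d) x) (t d))) x) ∧
        l.length ≤ k * n).card := ⟨_, rfl⟩
    rw [← hX] at herr ⊢
    have hchi : ∀ x, ψ x = ∏ d, sgn (qr (lab (ev d).1) (h d) x) := by
      intro x; rw [hψ]; rfl
    have ht' : (2 : ℝ) ^ n ≤ 2 ^ D * |((∑ x, ψ x * (if (fun x => Fz cl (fun d =>
        xor (qr (lab (ev d).1) (h d) x) (t d))) x = false then (1 : ℤ) else 0) : ℤ) : ℝ)| := by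
      have h1 : (2 : ℤ) ^ n ≤ 2 ^ D * |∑ x, ψ x * (if (fun x => Fz cl (fun d =>
          xor (qr (lab (ev d).1) (h d) x) (t d))) x = false then (1 : ℤ) else 0)| := by
        simp only [hchi]
        exact ht
      exact_mod_cast h1
    have herr' : |((∑ x, ψ x * (if (fun x => Fz cl (fun d =>
        xor (qr (lab (ev d).1) (h d) x) (t d))) x = false then (1 : ℤ) else 0) : ℤ) : ℝ)| ≤
        |((∑ x ∈ univ.filter (fun x => ∃ l, U.Comp x l false), ψ x : ℤ) : ℝ)| + X := by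
      exact_mod_cast herr
    have hXU : ((univ.filter fun x => ∃ l, U.Comp x l false).card : ℝ) ≤ 2 ^ n := by
      have h1 : (univ.filter fun x => ∃ l, U.Comp x l false).card ≤ 2 ^ n := by
        refine (Finset.card_le_univ _).trans (le_of_eq ?_)
        simp
      exact_mod_cast h1
    have hUc : (Fintype.card U.State : ℝ) ^ (r + 1) * δ ≤ 1 / (4 * 2 ^ D) * 2 ^ n := by
      have h1 := hexp n (by omega) (Fintype.card P.State) (hP.le.trans
        (Nat.pow_le_pow_right (by norm_num) (Nat.div_le_div_left (by omega) hD11)))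
      have h2 : 2 ^ (D + 3) * Fintype.card U.State ^ (r + 1) ≤ 2 ^ (n / N1) :=
        (Nat.mul_le_mul_left _ (Nat.pow_le_pow_left hU1 _)).trans h1
      have h3 : (2 : ℝ) ^ (D + 3) * (Fintype.card U.State : ℝ) ^ (r + 1) ≤ 2 ^ (n / N1) := by
        exact_mod_cast h2
      rw [hδ, mul_div_assoc', div_le_iff₀ (by positivity)]
      have h4 : (1 / (4 * 2 ^ D) * 2 ^ n : ℝ) * ((2 : ℝ) ^ (D + 3) *
          (Fintype.card U.State : ℝ) ^ (r + 1)) ≤ 1 / (4 * 2 ^ D) * 2 ^ n * 2 ^ (n / N1) :=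
        mul_le_mul_of_nonneg_left h3 (by positivity)
      refine le_trans (le_of_eq ?_) h4
      have h5 : (2 : ℝ) ^ D ≠ 0 := by positivity
      have h6 : (1 / (4 * 2 ^ D) * 2 ^ n : ℝ) * ((2 : ℝ) ^ (D + 3) *
          (Fintype.card U.State : ℝ) ^ (r + 1)) =
          ((2 : ℝ) ^ D * (2 ^ D)⁻¹) * ((Fintype.card U.State : ℝ) ^ (r + 1) * (2 * 2 ^ n)) := by
        rw [one_div, mul_inv, pow_add]
        ring
      rw [h6, mul_inv_cancel₀ h5, one_mul]
    have hfin : (2 : ℝ) ^ n ≤ 2 * 2 ^ D * X := by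
      have h1 : (1 / (4 * 2 ^ D) : ℝ) *
          ((univ.filter fun x => ∃ l, U.Comp x l false).card : ℝ) ≤ 1 / (4 * 2 ^ D) * 2 ^ n :=
        mul_le_mul_of_nonneg_left hXU (by positivity)
      have h2 : |((∑ x, ψ x * (if (fun x => Fz cl (fun d =>
        xor (qr (lab (ev d).1) (h d) x) (t d))) x = false then (1 : ℤ) else 0) : ℤ) : ℝ)| ≤
        2 * (1 / (4 * 2 ^ D) * 2 ^ n) + X := by linarith
      have h3 : (2 : ℝ) ^ n ≤ 2 ^ D * (2 * (1 / (4 * 2 ^ D) * 2 ^ n) + X) :=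
        ht'.trans (mul_le_mul_of_nonneg_left h2 (by positivity))
      have h4 : (2 : ℝ) ^ D * (2 * (1 / (4 * 2 ^ D) * 2 ^ n) + X) = 2 ^ n / 2 + 2 ^ D * X := by
        have h5 : (2 : ℝ) ^ D ≠ 0 := by positivity
        have h6 : (2 : ℝ) ^ D * (2 * (1 / (4 * 2 ^ D) * 2 ^ n) + X) =
            ((2 : ℝ) ^ D * (2 ^ D)⁻¹) * (2 ^ n / 2) + 2 ^ D * X := by
          rw [one_div, mul_inv]
          ring
        rw [h6, mul_inv_cancel₀ h5, one_mul]
      rw [h4] at h3
      linarith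
    have hfin' : 2 ^ n ≤ 2 * 2 ^ D * X := by exact_mod_cast hfin
    exact hfin'.trans (Nat.mul_le_mul_right _ (by omega))

end Pool.Agent.W902.Z
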