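import Pool.Agent.W902.Z.Avg

/-!
# A small set cannot be dense in its orbits under subgroups which together generate the group
-/

set_option autoImplicit false
set_option linter.unusedSectionVars false

open Finset
open scoped InnerProductSpace

namespace Pool.Agent.W902.Z

open Pool.Agent.W902.Spec Pool.Agent.W902.Heis Pool.Agent.W902.Cross

variable {G V : Type} [Group G] [Fintype V] [MulAction G V] {p : ℕ} [Fact p.Prime]
variable {ι : Type} [Fintype ι] [DecidableEq ι]

open Classical in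
/-- the orbit of `v` under the group generated by the elements `κ i a`, `i ∈ W` -/
noncomputable def blk (κ : ι → ZMod p → G) (W : Finset ι) (v : V) : Finset V :=
  univ.filter fun w => ∃ g ∈ H κ W, g • v = w

theorem mem_blk {κ : ι → ZMod p → G} {W : Finset ι} {v w : V} :
    w ∈ blk κ W v ↔ ∃ g ∈ H κ W, g • v = w := by
  simp [blk]

theorem self_mem_blk (κ : ι → ZMod p → G) (W : Finset ι) (v : V) : v ∈ blk κ W v :=
  mem_blk.2 ⟨1, one_mem _, one_smul _ _⟩

theorem blk_eq {κ : ι → ZMod p → G} {W : Finset ι} {v w : V} (h : w ∈ blk κ W v) :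
    blk κ W w = blk κ W v := by
  obtain ⟨g, hg, rfl⟩ := mem_blk.1 h
  ext u
  rw [mem_blk, mem_blk]
  constructor
  · rintro ⟨g', hg', rfl⟩
    exact ⟨g' * g, mul_mem hg' hg, mul_smul _ _ _⟩
  · rintro ⟨g', hg', rfl⟩
    exact ⟨g' * g⁻¹, mul_mem hg' (inv_mem hg), by rw [mul_smul, inv_smul_smul]⟩

theorem mem_blk_comm {κ : ι → ZMod p → G} {W : Finset ι} {v w : V} :
    w ∈ blk κ W v ↔ v ∈ blk κ W w := by
  constructor
  · intro h
    rw [blk_eq h]
    exact self_mem_blk κ W v
  · intro h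
    rw [blk_eq h]
    exact self_mem_blk κ W w

theorem blk_card_pos (κ : ι → ZMod p → G) (W : Finset ι) (v : V) : 0 < (blk κ W v).card :=
  Finset.card_pos.2 ⟨v, self_mem_blk κ W v⟩

theorem inner_eq (x y : EuclideanSpace ℝ V) : ⟪x, y⟫_ℝ = ∑ v, x v * y v := by
  rw [PiLp.inner_apply]
  exact Finset.sum_congr rfl fun v _ => by simp [mul_comm]

/-- the average over the orbits -/
noncomputable def Dop (κ : ι → ZMod p → G) (W : Finset ι) :
    EuclideanSpace ℝ V →ₗ[ℝ] EuclideanSpace ℝ V where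
  toFun x := WithLp.toLp 2 fun v => (∑ w ∈ blk κ W v, x w) / (blk κ W v).card
  map_add' x y := by
    ext v
    simp [Finset.sum_add_distrib, add_div]
  map_smul' c x := by
    ext v
    simp [← Finset.mul_sum, mul_div_assoc]

theorem Dop_apply (κ : ι → ZMod p → G) (W : Finset ι) (x : EuclideanSpace ℝ V) (v : V) :
    Dop κ W x v = (∑ w ∈ blk κ W v, x w) / (blk κ W v).card := rfl

theorem Dop_of_const {κ : ι → ZMod p → G} {W : Finset ι} {x : EuclideanSpace ℝ V} {v : V} {c : ℝ}
    (h : ∀ w ∈ blk κ W v, x w = c) : Dop κ W x v = c := by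
  have := blk_card_pos κ W v
  have h2 : ((blk κ W v).card : ℝ) ≠ 0 := by positivity
  rw [Dop_apply, Finset.sum_congr rfl h, Finset.sum_const, nsmul_eq_mul, mul_comm,
    mul_div_assoc, div_self h2, mul_one]

theorem Dop_proj (κ : ι → ZMod p → G) (W : Finset ι) :
    Proj (Dop κ W : EuclideanSpace ℝ V →ₗ[ℝ] EuclideanSpace ℝ V) := by
  classical
  constructor
  · intro x y
    rw [inner_eq, inner_eq]
    have e1 : ∀ v : V, Dop κ W x v * y v =
        ∑ w, if w ∈ blk κ W v then x w * y v / (blk κ W v).card else 0 := by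
      intro v
      rw [Dop_apply, ← Finset.sum_filter, Finset.filter_mem_eq_inter, Finset.univ_inter,
        Finset.sum_div, Finset.sum_mul]
      exact Finset.sum_congr rfl fun w _ => by ring
    have e2 : ∀ w : V, x w * Dop κ W y w =
        ∑ v, if w ∈ blk κ W v then x w * y v / (blk κ W v).card else 0 := by
      intro w
      rw [Dop_apply, Finset.sum_div, Finset.mul_sum]
      have : ∀ v, (if w ∈ blk κ W v then x w * y v / (blk κ W v).card else 0) =
          if v ∈ blk κ W w then x w * (y v / (blk κ W w).card) else 0 := by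
        intro v
        by_cases h : w ∈ blk κ W v
        · rw [if_pos h, if_pos (mem_blk_comm.1 h), blk_eq h, mul_div_assoc]
        · rw [if_neg h, if_neg (fun h' => h (mem_blk_comm.1 h'))]
      rw [Finset.sum_congr rfl fun v _ => this v, ← Finset.sum_filter,
        Finset.filter_mem_eq_inter, Finset.univ_inter]
    rw [Finset.sum_congr rfl fun v _ => e1 v, Finset.sum_congr rfl fun v _ => e2 v,
      Finset.sum_comm]
  · intro x
    ext v
    apply Dop_of_const
    intro w hw
    rw [Dop_apply, Dop_apply, blk_eq hw]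

theorem Dop_one (κ : ι → ZMod p → G) (W : Finset ι) (c : ℝ) :
    Dop κ W (WithLp.toLp 2 (fun _ => c) : EuclideanSpace ℝ V) = WithLp.toLp 2 (fun _ => c) := by
  ext v
  exact Dop_of_const fun w _ => rfl

section fixed

variable {κ : ι → ZMod p → G} (hκ : ∀ i a b, κ i (a + b) = κ i a * κ i b)
include hκ

theorem fix_H {W : Finset ι} {u : EuclideanSpace ℝ V}
    (hu : ∀ i ∈ W, avg (rep G V) (κ i) u = u) {g : G} (hg : g ∈ H κ W) :
    rep G V g u = u := by
  induction hg using Subgroup.closure_induction with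
  | mem g hg =>
    obtain ⟨i, hi, a, rfl⟩ := hg
    rw [← hu i hi]
    exact ρ_fix _ (hκ i) a u
  | one => rw [map_one]; rfl
  | mul g h _ _ hg hh =>
    rw [map_mul]
    show rep G V g (rep G V h u) = u
    rw [hh, hg]
  | inv g _ hg =>
    have : rep G V g⁻¹ (rep G V g u) = u := by
      have h1 : rep G V g⁻¹ (rep G V g u) = rep G V (g⁻¹ * g) u := by rw [map_mul]; rfl
      rw [h1, inv_mul_cancel, map_one]; rfl
    rw [hg] at this
    exact this

theorem fix_const {W : Finset ι} {u : EuclideanSpace ℝ V}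
    (hu : ∀ i ∈ W, avg (rep G V) (κ i) u = u) {v w : V} (hw : w ∈ blk κ W v) : u w = u v := by
  obtain ⟨g, hg, rfl⟩ := mem_blk.1 hw
  have h := fix_H hκ hu hg
  have h4 : rep G V g u (g • v) = u (g • v) := by rw [h]
  rw [rep_apply, inv_smul_smul] at h4
  exact h4.symm

theorem Dop_fix {W : Finset ι} {u : EuclideanSpace ℝ V}
    (hu : ∀ i ∈ W, avg (rep G V) (κ i) u = u) : Dop κ W u = u := by
  ext v
  exact Dop_of_const fun w hw => fix_const hκ hu hw

theorem avg_Dop {W : Finset ι} {i : ι} (hi : i ∈ W) (x : EuclideanSpace ℝ V) :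
    avg (rep G V) (κ i) (Dop κ W x) = Dop κ W x := by
  apply avg_of_fix
  intro a
  ext v
  rw [rep_apply, Dop_apply, Dop_apply]
  have : (κ i a)⁻¹ • v ∈ blk κ W v := mem_blk.2 ⟨_, inv_mem (mem_H κ hi a), rfl⟩
  rw [blk_eq this]

end fixed

section main

variable (hp : 16 ≤ p) (σ : Equiv.Perm ι) (κ ζ : ι → ZMod p → G)
    (hκ : ∀ i a b, κ i (a + b) = κ i a * κ i b) (hζ : ∀ i a b, ζ i (a + b) = ζ i a * ζ i b)
    (hζa : ∀ i a c, ζ i c * κ i a = κ i a * ζ i c)
    (hζb : ∀ i b c, ζ i c * κ (σ i) b = κ (σ i) b * ζ i c)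
    (hab : ∀ i a b, κ (σ i) b * κ i a = κ i a * κ (σ i) b * ζ i (a * b))
    (hcomm : ∀ i j, i ≠ j → j ≠ σ i → i ≠ σ j → ∀ a b, κ i a * κ j b = κ j b * κ i a)
    (hσ : ∀ i, σ i ≠ i) (hgen : ∀ v w : V, ∃ g ∈ H κ univ, g • v = w)

include hp hκ hζ hζa hζb hab hcomm hσ

/-- the Poincaré inequality for a subset of the generators -/
theorem poin (W : Finset ι) (x : EuclideanSpace ℝ V)
    (hx : ∀ u, (∀ i ∈ W, avg (rep G V) (κ i) u = u) → ⟪u, x⟫_ℝ = 0) :
    ‖x‖ ^ 2 ≤ 2 * ∑ i ∈ W, ‖x - avg (rep G V) (κ i) x‖ ^ 2 := by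
  set P : ι → EuclideanSpace ℝ V →ₗ[ℝ] EuclideanSpace ℝ V := fun i =>
    if i ∈ W then avg (rep G V) (κ i) else LinearMap.id with hP
  have hPi : ∀ i ∈ W, P i = avg (rep G V) (κ i) := fun i hi => if_pos hi
  have hPn : ∀ i, i ∉ W → P i = LinearMap.id := fun i hi => if_neg hi
  have hid : Proj (LinearMap.id : EuclideanSpace ℝ V →ₗ[ℝ] EuclideanSpace ℝ V) :=
    ⟨fun _ _ => rfl, fun _ => rfl⟩
  have hproj : ∀ i, Proj (P i) := by
    intro i
    by_cases hi : i ∈ W
    · rw [hPi i hi]; exact avg_proj rep_inner (hκ i)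
    · rw [hPn i hi]; exact hid
  have h1 := poincare P σ hproj hσ (by
      intro i y
      by_cases hi : i ∈ W
      · by_cases hj : σ i ∈ W
        · rw [hPi i hi, hPi _ hj]
          exact heis_pair hp rep_inner (hκ i) (hκ (σ i)) (hζ i) (hζa i) (hζb i) (hab i) y
        · rw [hPn _ hj, LinearMap.id_apply, sub_self, inner_zero_right]
          positivity
      · rw [hPn _ hi, LinearMap.id_apply, sub_self, inner_zero_left]
        positivity) (by
      intro i j hij hj hi y
      by_cases h1 : i ∈ W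
      · by_cases h2 : j ∈ W
        · rw [hPi i h1, hPi j h2]
          exact avg_comm _ (hcomm i j hij hj hi) y
        · rw [hPn j h2]; rfl
      · rw [hPn i h1]; rfl) x (by
      intro u hu
      apply hx
      intro i hi
      rw [← hPi i hi]
      exact hu i)
  have h2 : ∑ i, ‖x - P i x‖ ^ 2 = ∑ i ∈ W, ‖x - avg (rep G V) (κ i) x‖ ^ 2 := by
    rw [← Finset.sum_subset (Finset.subset_univ W)]
    · exact Finset.sum_congr rfl fun i hi => by rw [hPi i hi]
    · intro i _ hi
      rw [hPn i hi, LinearMap.id_apply, sub_self, norm_zero]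
      norm_num
  rw [h2] at h1
  exact h1

theorem comm_all (i j : ι) (x : EuclideanSpace ℝ V) :
    ‖avg (rep G V) (κ i) (avg (rep G V) (κ j) x) - avg (rep G V) (κ j) (avg (rep G V) (κ i) x)‖ ≤
      2 / Real.sqrt p * ‖x‖ := by
  have h0 : 0 ≤ 2 / Real.sqrt p * ‖x‖ := by positivity
  by_cases hij : i = j
  · subst hij
    rw [sub_self, norm_zero]
    exact h0
  · by_cases h1 : j = σ i
    · subst h1
      exact heis_comm_norm rep_inner (hκ i) (hκ (σ i)) (hζ i) (hζa i) (hζb i) (hab i) x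
    · by_cases h2 : i = σ j
      · subst h2
        rw [norm_sub_rev]
        exact heis_comm_norm rep_inner (hκ j) (hκ (σ j)) (hζ j) (hζa j) (hζb j) (hab j) x
      · rw [avg_comm _ (hcomm i j hij h1 h2) x, sub_self, norm_zero]
        exact h0

include hgen

theorem prune_bound (l : List (Finset ι)) (hl : ∀ i, ∃ W ∈ l, i ∈ W) (hne : Nonempty ι)
    (h : V → ℝ) (h0 : ∀ v, 0 ≤ h v) (h1 : ∀ v, h v ≤ 1) (θ : ℝ) (hθ : 0 ≤ θ)
    (hh : ∀ W ∈ l, ∀ v, 0 < h v → θ * (blk κ W v).card ≤ ∑ w ∈ blk κ W v, h w)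
    (hpos : ∃ v, 0 < h v) :
    θ ^ l.length ≤ (∑ v, h v) / Fintype.card V +
      16 * (Fintype.card ι : ℝ) ^ 2 * l.length / Real.sqrt p := by
  classical
  obtain ⟨v0, hv0⟩ := hpos
  have hV : 0 < Fintype.card V := Fintype.card_pos_iff.2 ⟨v0⟩
  have hι : 1 ≤ Fintype.card ι := Nat.succ_le_of_lt (Fintype.card_pos_iff.2 hne)
  set P : ι → EuclideanSpace ℝ V →ₗ[ℝ] EuclideanSpace ℝ V := fun i => avg (rep G V) (κ i) with hP
  set D : Finset ι → EuclideanSpace ℝ V →ₗ[ℝ] EuclideanSpace ℝ V := fun W => Dop κ W with hD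
  set X : EuclideanSpace ℝ V := WithLp.toLp 2 h with hX
  have hXv : ∀ v, X v = h v := fun v => rfl
  -- lower bound
  have hlow : ∀ l' : List (Finset ι), (∀ W ∈ l', W ∈ l) → ∀ v, θ ^ l'.length * h v ≤ pr D l' X v := by
    intro l'
    induction l' with
    | nil =>
      intro _ v
      show θ ^ 0 * h v ≤ X v
      rw [pow_zero, one_mul, hXv]
    | cons W l' ih =>
      intro hsub v
      have hW := hsub W (List.mem_cons_self)
      have ih' := ih fun W' hW' => hsub W' (List.mem_cons_of_mem _ hW')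
      show _ ≤ Dop κ W (pr D l' X) v
      have hc := blk_card_pos κ W v
      have hc' : (0 : ℝ) < (blk κ W v).card := by exact_mod_cast hc
      have h2 : θ ^ l'.length * ∑ w ∈ blk κ W v, h w ≤ ∑ w ∈ blk κ W v, pr D l' X w := by
        rw [Finset.mul_sum]
        exact Finset.sum_le_sum fun w _ => ih' w
      have hθl : 0 ≤ θ ^ l'.length := pow_nonneg hθ _
      rw [Dop_apply, le_div_iff₀ hc', List.length_cons, pow_succ]
      rcases (h0 v).eq_or_lt with h3 | h3
      · rw [← h3, mul_zero, zero_mul]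
        refine le_trans ?_ h2
        exact mul_nonneg hθl (Finset.sum_nonneg fun w _ => h0 w)
      · have h4 := hh W hW v h3
        refine le_trans ?_ h2
        calc θ ^ l'.length * θ * h v * (blk κ W v).card
            ≤ θ ^ l'.length * θ * 1 * (blk κ W v).card := by
              apply mul_le_mul_of_nonneg_right _ hc'.le
              exact mul_le_mul_of_nonneg_left (h1 v) (mul_nonneg hθl hθ)
          _ = θ ^ l'.length * (θ * (blk κ W v).card) := by ring
          _ ≤ _ := mul_le_mul_of_nonneg_left h4 hθl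
  have hlow2 : ∀ v, 0 < h v → θ ^ l.length ≤ pr D l X v := by
    intro v hv
    obtain ⟨W, l', rfl⟩ : ∃ W l', l = W :: l' := by
      cases l with
      | nil =>
        obtain ⟨i⟩ := hne
        obtain ⟨W, hW, -⟩ := hl i
        simp at hW
      | cons W l' => exact ⟨W, l', rfl⟩
    have ih' := hlow l' fun W' hW' => List.mem_cons_of_mem _ hW'
    show _ ≤ Dop κ W (pr D l' X) v
    have hc := blk_card_pos κ W v
    have hc' : (0 : ℝ) < (blk κ W v).card := by exact_mod_cast hc
    have h2 : θ ^ l'.length * ∑ w ∈ blk κ W v, h w ≤ ∑ w ∈ blk κ W v, pr D l' X w := by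
      rw [Finset.mul_sum]
      exact Finset.sum_le_sum fun w _ => ih' w
    have hθl : 0 ≤ θ ^ l'.length := pow_nonneg hθ _
    rw [Dop_apply, le_div_iff₀ hc', List.length_cons, pow_succ]
    have h4 := hh W (List.mem_cons_self) v hv
    refine le_trans ?_ h2
    calc θ ^ l'.length * θ * (blk κ W v).card = θ ^ l'.length * (θ * (blk κ W v).card) := by ring
      _ ≤ _ := mul_le_mul_of_nonneg_left h4 hθl
  -- linearity
  have hadd : ∀ (l' : List (Finset ι)) (x y : EuclideanSpace ℝ V),
      pr D l' (x + y) = pr D l' x + pr D l' y := by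
    intro l' x y
    induction l' with
    | nil => rfl
    | cons W l' ih =>
      show D W (pr D l' (x + y)) = D W (pr D l' x) + D W (pr D l' y)
      rw [ih, map_add]
  set N : ℝ := (Fintype.card V : ℝ) with hN
  have hN0 : 0 < N := by rw [hN]; exact_mod_cast hV
  set μ : ℝ := (∑ v, h v) / N with hμ
  set c : EuclideanSpace ℝ V := WithLp.toLp 2 (fun _ => μ) with hc
  have hprc : ∀ l' : List (Finset ι), pr D l' c = c := by
    intro l'
    induction l' with
    | nil => rfl
    | cons W l' ih =>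
      show D W (pr D l' c) = c
      rw [ih]
      exact Dop_one κ W μ
  set Y := X - c with hY
  have hYv : ∀ v, Y v = h v - μ := fun v => rfl
  have hsumY : ∑ v, Y v = 0 := by
    rw [Finset.sum_congr rfl fun v _ => hYv v, Finset.sum_sub_distrib, Finset.sum_const,
      Finset.card_univ, nsmul_eq_mul, hμ, ← hN]
    field_simp
    ring
  have horth : ∀ u, (∀ i, P i u = u) → ⟪u, Y⟫_ℝ = 0 := by
    intro u hu
    have hconst : ∀ v, u v = u v0 := by
      intro v
      exact fix_const hκ (W := univ) (fun i _ => hu i) (mem_blk.2 (hgen v0 v))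
    rw [inner_eq, Finset.sum_congr rfl fun v _ => by rw [hconst v], ← Finset.mul_sum, hsumY,
      mul_zero]
  have hsmall := pr_small (P := P) (D := D) (δ := 2 / Real.sqrt p)
    (fun i => avg_proj rep_inner (hκ i)) (fun W => Dop_proj κ W) (by positivity)
    (fun W i hi x => avg_Dop hκ hi x) (fun W u hu => Dop_fix hκ fun i _ => hu i)
    (fun W x hx => poin hp σ κ ζ hκ hζ hζa hζb hab hcomm hσ W x fun u hu => by
      have h5 : Dop κ W u = u := Dop_fix hκ hu
      rw [← h5, (Dop_proj κ W).symm]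
      show ⟪u, D W x⟫_ℝ = 0
      rw [hx, inner_zero_right])
    (fun x hx => poin hp σ κ ζ hκ hζ hζa hζb hab hcomm hσ univ x fun u hu =>
      hx u fun i => hu i (mem_univ i))
    (fun i j x => comm_all hp σ κ ζ hκ hζ hζa hζb hab hcomm hσ i j x) l hl Y horth hι
  have hXY : X = Y + c := by rw [hY]; abel
  have e1 : pr D l X = pr D l Y + c := by rw [hXY, hadd, hprc]
  have hXX : ‖X‖ ^ 2 = ∑ v, h v ^ 2 := by
    rw [← real_inner_self_eq_norm_sq, inner_eq]
    exact Finset.sum_congr rfl fun v _ => by rw [hXv]; ring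
  have hYY : ‖Y‖ ^ 2 ≤ ‖X‖ ^ 2 := by
    rw [← real_inner_self_eq_norm_sq, inner_eq, hXX]
    have e2 : ∑ v, Y v * Y v = ∑ v, h v ^ 2 - μ * ∑ v, h v - μ * ∑ v, Y v := by
      rw [Finset.mul_sum, Finset.mul_sum, ← Finset.sum_sub_distrib, ← Finset.sum_sub_distrib]
      exact Finset.sum_congr rfl fun v _ => by rw [hYv]; ring
    rw [e2, hsumY, mul_zero, sub_zero]
    have h6 : 0 ≤ ∑ v, h v := Finset.sum_nonneg fun v _ => h0 v
    have : 0 ≤ μ * ∑ v, h v := mul_nonneg (div_nonneg h6 hN0.le) h6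
    linarith
  have hYX : ‖Y‖ ≤ ‖X‖ := le_of_sq_le_sq hYY (norm_nonneg _)
  have hX2 : ‖X‖ ^ 2 ≤ ∑ v, h v := by
    rw [hXX]
    apply Finset.sum_le_sum
    intro v _
    have := h0 v
    have := h1 v
    nlinarith
  set C : ℝ := 8 * (Fintype.card ι : ℝ) ^ 2 * l.length * (2 / Real.sqrt p) with hC
  have hC0 : 0 ≤ C := by positivity
  have hin : ⟪X, pr D l X⟫_ℝ ≤ C * (∑ v, h v) + μ * ∑ v, h v := by
    rw [e1, inner_add_right]
    apply add_le_add
    · refine (real_inner_le_norm _ _).trans ?_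
      calc ‖X‖ * ‖pr D l Y‖ ≤ ‖X‖ * (C * ‖X‖) := by
            apply mul_le_mul_of_nonneg_left _ (norm_nonneg _)
            refine hsmall.trans ?_
            exact mul_le_mul_of_nonneg_left hYX hC0
        _ = C * ‖X‖ ^ 2 := by ring
        _ ≤ C * ∑ v, h v := mul_le_mul_of_nonneg_left hX2 hC0
    · rw [inner_eq, Finset.mul_sum]
      apply Finset.sum_le_sum
      intro v _
      rw [mul_comm]
  have hlo : θ ^ l.length * ∑ v, h v ≤ ⟪X, pr D l X⟫_ℝ := by
    rw [inner_eq, Finset.mul_sum]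
    apply Finset.sum_le_sum
    intro v _
    rw [hXv]
    rcases (h0 v).eq_or_lt with h3 | h3
    · rw [← h3]; simp
    · rw [mul_comm]
      exact mul_le_mul_of_nonneg_left (hlow2 v h3) h3.le
  have hS : 0 < ∑ v, h v :=
    Finset.sum_pos' (fun v _ => h0 v) ⟨v0, mem_univ _, hv0⟩
  have h7 : θ ^ l.length * ∑ v, h v ≤ (μ + C) * ∑ v, h v := by
    calc _ ≤ _ := hlo.trans hin
      _ = (μ + C) * ∑ v, h v := by ring
  have h8 := le_of_mul_le_mul_right h7 hS
  refine h8.trans (le_of_eq ?_)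
  rw [hC]
  ring

end main

end Pool.Agent.W902.Z
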