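import Mathlib
import Pool.Agent.H554R2.Rnd.Defs

/-!
# Definitions and statements for the zero-error separation
-/

set_option autoImplicit false

open Finset

namespace Pool.Agent.W902.Z

open Pool.Agent.H554R2.Sem Pool.Agent.H554R2.Coin Pool.Agent.H554R2.Lin Pool.Agent.H554R2.Rnd

/-- the number of elements of `A` with the label `o` -/
def nb {n : ℕ} (lab : Fin n → Fin n) (A : Finset (Fin n)) (o : Fin n) : ℕ :=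
  (A.filter fun v => lab v = o).card

/-- some of the partitions `lab W` has classes `o ∈ O` with many elements of `A` and of `B` -/
def Crs {n : ℕ} {ω : Type} (lab : ω → Fin n → Fin n) (t0 : ℕ) (A B : Finset (Fin n))
    (μ : ℝ) : Prop :=
  ∃ (W : ω) (O : Finset (Fin n)), (∀ o ∈ O, t0 ≤ nb (lab W) A o ∧ t0 ≤ nb (lab W) B o) ∧
    μ ≤ ((∑ o ∈ O, min (nb (lab W) A o) (nb (lab W) B o) : ℕ) : ℝ)

/-- most random colourings give crossing feet -/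
def TaskCross : Prop := ∀ (n r q c L t0 H lam : ℕ) (ω : Type) [Fintype ω] [DecidableEq ω]
  (lab : ω → Fin n → Fin n) (S : Fin n → Finset (Fin r)) (Gd : Finset (Fin n)) (Wo : Fin n → ω)
  (σ : ℝ), 3 ≤ q → 1 ≤ c → 1 ≤ H → 1 ≤ lam → 1 ≤ n → 0 ≤ σ → (∀ v ∈ Gd, (S v).card = c) →
  cnt S c ≤ 2 * Gd.card → (n : ℝ) ≤ H * (cnt S c / (q : ℝ) ^ c) →
  (∀ v ∈ Gd, ((univ.filter fun u =>
    lab (Wo v) u = lab (Wo v) v ∧ ¬ Disjoint (S u) (S v)).card : ℝ) ≤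
      σ * nb (lab (Wo v)) univ (lab (Wo v) v)) →
  (∀ v ∈ Gd, L ≤ nb (lab (Wo v)) univ (lab (Wo v) v)) →
  8 * Fintype.card ω * H * t0 ≤ L →
  128 * lam * σ * (q : ℝ) ^ (2 * c) * Fintype.card ω * H ≤ 1 →
  2 * lam * Nat.card {T : Fin r → Fin q // ¬ Crs lab t0 (hat S (kind T) 0) (hat S (kind T) 1)
    (cnt S c / (q : ℝ) ^ c / (16 * Fintype.card ω))} ≤ q ^ r

/-- as `random_T2`, with small failure probability -/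
def TaskRandom : Prop := ∀ {n r q c lam : ℕ} (_ : 1 ≤ lam) (_ : 3 ≤ q) (_ : 1 ≤ c)
    (S : Fin n → Finset (Fin r)) (E : ℝ) (_ : 1 ≤ E)
    (_ : lam * E * ∑ t ∈ (range (r + 1)).erase c, (cnt S t : ℝ) / (q : ℝ) ^ t ≤
      cnt S c / (q : ℝ) ^ c)
    (_ : lam * E * ∑ t ∈ (range (r + 1)).filter (fun t => c < t),
      (cnt S t : ℝ) * 2 ^ t / (q : ℝ) ^ t ≤ cnt S c / (q : ℝ) ^ c)
    (_ : 180 * lam * ∑ j : Fin r, ((univ.filter (fun v => j ∈ S v)).card : ℝ) ^ 2 ≤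
      (cnt S c / (q : ℝ) ^ c) ^ 2),
    2 * lam * Nat.card {T : Fin r → Fin q //
      ¬ GoodT2 S (kind T) c E (300 * lam * 2 ^ c) (cnt S c / (q : ℝ) ^ c)} ≤ q ^ r

/-- as `scales2`, for all scales but `2 k` -/
def TaskScales : Prop := ∀ (k : ℕ) (_ : 1 ≤ k) (E I : ℕ) (_ : 1 ≤ E), ∃ ℓ H : ℕ, 3 ≤ ℓ ∧ 1 ≤ H ∧
    ∀ (r n : ℕ) (N : ℕ → ℕ), 1 ≤ n → ∑ t ∈ range (r + 1), N t = n →
    ∑ t ∈ range (r + 1), t * N t ≤ k * n → N 0 = 0 →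
    ∃ bad : Finset ℕ, bad.card ≤ 2 * k ∧ ∀ i < I, i ∉ bad → ∃ c : ℕ, 1 ≤ c ∧ c ≤ 2 * k ∧ c ≤ r ∧
      (E : ℝ) * ∑ t ∈ (range (r + 1)).erase c, (N t : ℝ) / (ℓ ^ (2 * i + 1) : ℝ) ^ t ≤
        (N c : ℝ) / (ℓ ^ (2 * i + 1) : ℝ) ^ c ∧
      (E : ℝ) * ∑ t ∈ (range (r + 1)).filter (fun t => c < t),
        (N t : ℝ) * 2 ^ t / (ℓ ^ (2 * i + 1) : ℝ) ^ t ≤ (N c : ℝ) / (ℓ ^ (2 * i + 1) : ℝ) ^ c ∧
      (n : ℝ) ≤ H * ((N c : ℝ) / (ℓ ^ (2 * i + 1) : ℝ) ^ c)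

end Pool.Agent.W902.Z
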